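import Pool.Agent.Y241.HK.Low

set_option autoImplicit false

/-!
# Hilbert–Kunz multiplicities: one kernel element gives many
-/

namespace Pool.Agent.Y241.HK

open MvPolynomial Module

variable {K : Type*} [Field K]

theorem ex_injective : Function.Injective fun ab : ℕ × ℕ => ex ab.1 ab.2 := by
  intro ab cd h
  obtain ⟨h1, h2⟩ := ex_inj h
  exact Prod.ext h1 h2

theorem finrank_WW (D : ℕ) : finrank K (WW K D) =
    (Finset.univ.filter fun ab : Fin D × Fin D => (ab.1 : ℕ) + ab.2 < D).card := by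
  rw [← Fintype.card_subtype]
  refine finrank_span_eq_card ?_
  have h := (basisMonomials (Fin 2) K).linearIndependent.comp
    (fun ab : {ab : Fin D × Fin D // (ab.1 : ℕ) + ab.2 < D} => ex ab.1.1 ab.1.2) ?_
  · simpa [Function.comp_def] using h
  · rintro ⟨⟨a, b⟩, h1⟩ ⟨⟨c, d⟩, h2⟩ h
    obtain ⟨h3, h4⟩ := ex_inj h
    exact Subtype.ext (Prod.ext (Fin.ext h3) (Fin.ext h4))

theorem sq_le_finrank_WW (D : ℕ) : D ^ 2 ≤ 2 * finrank K (WW K D) := by
  rw [finrank_WW]
  have h2 := Finset.card_filter_add_card_filter_not (s := (Finset.univ : Finset (Fin D × Fin D)))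
    (fun ab : Fin D × Fin D => (ab.1 : ℕ) + ab.2 < D)
  rw [Finset.card_univ, Fintype.card_prod, Fintype.card_fin, ← pow_two] at h2
  have h1 : (Finset.univ.filter fun ab : Fin D × Fin D => ¬ ((ab.1 : ℕ) + ab.2 < D)).card ≤
      (Finset.univ.filter fun ab : Fin D × Fin D => (ab.1 : ℕ) + ab.2 < D).card := by
    refine Finset.card_le_card_of_injOn (fun ab => (ab.1.rev, ab.2.rev)) ?_ ?_
    · rintro ⟨⟨a, ha⟩, ⟨b, hb⟩⟩ hab
      simp only [Finset.coe_filter, Finset.mem_univ, true_and, Set.mem_ofPred_eq, Fin.val_rev]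
        at hab ⊢
      omega
    · rintro ⟨a, b⟩ _ ⟨c, d⟩ _ h
      simp only [Prod.mk.injEq, Fin.rev_inj] at h
      exact Prod.ext h.1 h.2
  omega

theorem deg_WW {D : ℕ} {w : P2 K} (h : w ∈ WW K D) : w = 0 ∨ w.totalDegree + 1 ≤ D := by
  by_cases hD : D = 0
  · left
    subst hD
    have : WW K 0 = ⊥ := by
      rw [WW, Submodule.span_eq_bot]
      rintro _ ⟨⟨ab, hab⟩, rfl⟩
      omega
    rw [this] at h
    exact (Submodule.mem_bot K).1 h
  · right
    have h1 : WW K D ≤ restrictTotalDegree (Fin 2) K (D - 1) := by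
      rw [WW, Submodule.span_le]
      rintro _ ⟨⟨ab, hab⟩, rfl⟩
      rw [SetLike.mem_coe, mem_restrictTotalDegree]
      refine (totalDegree_monomial_le _ _).trans ?_
      have h3 := ex_degree (ab.1 : ℕ) (ab.2 : ℕ)
      change ((ex (ab.1 : ℕ) (ab.2 : ℕ)).sum fun _ e => e) ≤ D - 1
      omega
    have h2 := (mem_restrictTotalDegree _ _ _).1 (h1 h)
    omega

theorem powpow_mem_JJ {p : ℕ} [Fact p.Prime] [CharP K p] {Q : ℕ} {g : P2 K} (h : g ∈ JJ K Q)
    (k : ℕ) : g ^ p ^ k ∈ JJ K (p ^ k * Q) := by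
  induction k with
  | zero => simpa using h
  | succ k ih =>
    have := pow_mem_JJ (p := p) ih
    rw [← pow_mul, ← pow_succ, ← mul_assoc, ← pow_succ'] at this
    exact this

theorem sE_add {p : ℕ} (hp : 1 ≤ p) (i j : ℕ) :
    sE p (i + j) = p ^ (2 * j) * sE p i + sE p j := by
  have h1 := sE_spec hp i
  have h2 := sE_spec hp j
  have h3 := sE_spec hp (i + j)
  have h4 : p ^ (2 * (i + j)) = p ^ (2 * j) * p ^ (2 * i) := by ring
  rw [h4, ← h1] at h3
  have h5 : (p + 1) * sE p (i + j) = (p + 1) * (p ^ (2 * j) * sE p i + sE p j) := by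
    have : (p + 1) * sE p (i + j) + 1 = (p + 1) * (p ^ (2 * j) * sE p i + sE p j) + 1 := by
      rw [h3]
      conv_lhs => rw [mul_add, mul_one]
      conv_lhs => rw [← h2]
      rw [← h2]
      ring
    omega
  exact Nat.eq_of_mul_eq_mul_left (by omega) h5

theorem two_sE_le {p : ℕ} (hp : 1 ≤ p) (i : ℕ) : 2 * sE p i + 1 ≤ p ^ (2 * i) := by
  rw [← sE_spec hp i]
  have : 2 * sE p i ≤ (p + 1) * sE p i := Nat.mul_le_mul_right _ (by omega)
  omega

/-- Amplification. -/
theorem Lq_amp {p : ℕ} [Fact p.Prime] [CharP K p] {A : K} {i : ℕ} {c : P2 K} (hc : c ≠ 0)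
    (hd : c.totalDegree + 2 * sE p i + 1 ≤ p ^ (2 * i))
    (hm : c * ff A ^ sE p i ∈ JJ K (p ^ (2 * i))) (j : ℕ) :
    2 * (p ^ (2 * (i + j))) ^ 2 + (p ^ (2 * j) - 2 * sE p j) ^ 2 ≤
      2 * Lq (p ^ (2 * (i + j))) (ff A ^ sE p (i + j)) +
        2 * (p ^ (2 * (i + j)) - 2 * sE p (i + j)) ^ 2 := by
  have hp1 : 1 ≤ p := (Fact.out : p.Prime).one_le
  set N := p ^ (2 * j) - 2 * sE p j with hN
  set U : Submodule K (P2 K) := (WW K N).map (LinearMap.mulLeft K (c ^ p ^ (2 * j))) with hU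
  have hinj : Function.Injective (LinearMap.mulLeft K (c ^ p ^ (2 * j))) := by
    intro a b hab
    exact mul_left_cancel₀ (pow_ne_zero _ hc) hab
  have hUr : finrank K U = finrank K (WW K N) := by
    rw [hU]
    exact ((WW K N).equivMapOfInjective _ hinj).finrank_eq.symm
  have hN1 : N + 2 * sE p j = p ^ (2 * j) := by
    have := two_sE_le hp1 j
    omega
  have hq : p ^ (2 * (i + j)) = p ^ (2 * j) * p ^ (2 * i) := by ring
  have hs := sE_add hp1 i j
  have hD1 : (p ^ (2 * (i + j)) - 2 * sE p (i + j)) + 2 * sE p (i + j) = p ^ (2 * (i + j)) := by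
    have := two_sE_le hp1 (i + j)
    omega
  have key := Lq_lower (A := A) hD1 U ?_ ?_
  · have h3 := sq_le_finrank_WW (K := K) N
    rw [hUr] at key
    omega
  · rintro _ ⟨w, hw, rfl⟩
    rw [LinearMap.mulLeft_apply]
    rcases deg_WW hw with rfl | hw
    · rw [mul_zero, totalDegree_zero]
      have := two_sE_le hp1 (i + j)
      omega
    · have h1 := totalDegree_mul (c ^ p ^ (2 * j)) w
      have h2 := totalDegree_pow c (p ^ (2 * j))
      have h3 : p ^ (2 * j) * (c.totalDegree + 2 * sE p i + 1) ≤ p ^ (2 * (i + j)) := by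
        rw [hq]
        exact Nat.mul_le_mul_left _ hd
      have h4 : p ^ (2 * j) * (c.totalDegree + 2 * sE p i + 1) =
        p ^ (2 * j) * c.totalDegree + 2 * (p ^ (2 * j) * sE p i) + p ^ (2 * j) := by ring
      rw [h4] at h3
      rw [hs]
      omega
  · rintro _ ⟨w, hw, rfl⟩
    rw [LinearMap.mulLeft_apply, hq, hs]
    have h1 : ff A ^ (p ^ (2 * j) * sE p i + sE p j) * (c ^ p ^ (2 * j) * w) =
        (c * ff A ^ sE p i) ^ p ^ (2 * j) * (ff A ^ sE p j * w) := by
      rw [pow_add, mul_comm (p ^ (2 * j)) (sE p i), pow_mul, mul_pow]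
      ring
    rw [h1]
    exact Ideal.mul_mem_right _ _ (powpow_mem_JJ hm _)

end Pool.Agent.Y241.HK
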