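import Pool.Agent.Y241.HK.Fin

set_option autoImplicit false

/-!
# Hilbert–Kunz multiplicities: extension of the ground field
-/

namespace Pool.Agent.Y241.HK

open MvPolynomial Module TensorProduct

theorem map_JJ {K K' : Type*} [Field K] [Field K'] (φ : K →+* K') (q : ℕ) :
    (JJ K q).map (MvPolynomial.map φ) = JJ K' q := by
  rw [JJ, JJ, Ideal.map_span]
  congr 1
  simp [Set.image_insert_eq]

theorem Lq_map {K K' : Type*} [Field K] [Field K'] [Algebra K K'] (q : ℕ) (g : P2 K) :
    Lq q (MvPolynomial.map (algebraMap K K') g) = Lq q g := by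
  set I : Ideal (P2 K) := JJ K q ⊔ Ideal.span {g} with hI
  have hI' : I.map (MvPolynomial.map (algebraMap K K')) =
      JJ K' q ⊔ Ideal.span {MvPolynomial.map (algebraMap K K') g} := by
    rw [hI, Ideal.map_sup, map_JJ, Ideal.map_span, Set.image_singleton]
  have e1 : K' ⊗[K] (P2 K ⧸ I) ≃ₐ[K'] (K' ⊗[K] P2 K) ⧸
      I.map (Algebra.TensorProduct.includeRight (A := K') (R := K)) :=
    Algebra.TensorProduct.tensorQuotientEquiv (R := K) K' (P2 K) K' I
  have e2 : ((K' ⊗[K] P2 K) ⧸ I.map (Algebra.TensorProduct.includeRight (A := K') (R := K)))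
      ≃ₐ[K'] (P2 K' ⧸ I.map (MvPolynomial.map (algebraMap K K'))) := by
    refine Ideal.quotientEquivAlg _ _ (MvPolynomial.algebraTensorAlgEquiv K K') ?_
    have h1 : I.map (Algebra.TensorProduct.includeRight (A := K') (R := K) (B := P2 K)) =
        I.map (Algebra.TensorProduct.includeRight (A := K') (R := K) (B := P2 K)).toRingHom := rfl
    have h2 : (MvPolynomial.map (algebraMap K K') : P2 K →+* P2 K') =
        ((MvPolynomial.algebraTensorAlgEquiv (σ := Fin 2) K K' : K' ⊗[K] P2 K →+* P2 K')).comp
          (Algebra.TensorProduct.includeRight (A := K') (R := K) (B := P2 K)).toRingHom := by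
      apply MvPolynomial.ringHom_ext
      · intro r
        simp
      · intro i
        simp
    rw [h2, h1, ← Ideal.map_map]
  rw [Lq, Lq, ← hI', ← (e1.trans e2).toLinearEquiv.finrank_eq, Module.finrank_baseChange]

theorem map_ff {K K' : Type*} [Field K] [Field K'] (φ : K →+* K') (A : K) :
    MvPolynomial.map φ (ff A) = ff (φ A) := by
  simp [ff]

theorem phi_map {K K' : Type*} [Field K] [Field K'] [Algebra K K'] (p : ℕ) (A : K) (e : ℕ) :
    phi p (algebraMap K K' A) e = phi p A e := by
  rw [phi, phi, ← map_ff, ← map_pow, Lq_map]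

theorem phiInf_map {K K' : Type*} [Field K] [Field K'] [Algebra K K'] (p : ℕ) (A : K) :
    phiInf p (algebraMap K K' A) = phiInf p A := by
  simp only [phiInf, psi, phi_map]

end Pool.Agent.Y241.HK
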