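import Pool.Agent.Y241.HK.Loc

set_option autoImplicit false

/-!
# Hilbert–Kunz multiplicities: the rings `K[x, y, z] / (z ^ n - f)`
-/

namespace Pool.Agent.Y241.HK

open MvPolynomial Module

universe u

/-- For a free algebra `S` over `P`, the quotient `S / IS` is a direct sum of copies of `P / I`. -/
theorem equiv_free {K P S ι : Type*} [Field K] [CommRing P] [CommRing S] [Algebra K P]
    [Algebra P S] [Algebra K S] [IsScalarTower K P S] [Fintype ι] (b : Basis ι P S)
    (I : Ideal P) : Nonempty ((S ⧸ I.map (algebraMap P S)) ≃ₗ[K] (ι → P ⧸ I)) := by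
  let φ : S →ₗ[K] (ι → P ⧸ I) :=
    LinearMap.pi fun i => (Ideal.Quotient.mkₐ K I).toLinearMap.comp ((b.coord i).restrictScalars K)
  have hφ : ∀ s i, φ s i = Ideal.Quotient.mk I (b.repr s i) := fun s i => rfl
  have hs : Function.Surjective φ := by
    intro v
    choose w hw using fun i => Ideal.Quotient.mk_surjective (v i)
    refine ⟨b.equivFun.symm w, ?_⟩
    funext i
    rw [hφ, ← hw i, ← b.equivFun_apply, LinearEquiv.apply_symm_apply]
  have hk : LinearMap.ker φ = (I.map (algebraMap P S)).restrictScalars K := by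
    ext s
    rw [LinearMap.mem_ker, Submodule.restrictScalars_mem]
    constructor
    · intro h
      rw [← b.sum_repr s]
      refine Ideal.sum_mem _ fun i _ => ?_
      have := congrFun h i
      rw [hφ, Pi.zero_apply, Ideal.Quotient.eq_zero_iff_mem] at this
      rw [Algebra.smul_def]
      exact Ideal.mul_mem_right _ _ (Ideal.mem_map_of_mem _ this)
    · intro h
      have h' : s ∈ I • (⊤ : Submodule P S) := by
        rw [Ideal.smul_top_eq_map]
        exact h
      funext i
      rw [hφ, Pi.zero_apply, Ideal.Quotient.eq_zero_iff_mem]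
      refine Submodule.smul_induction_on h' ?_ ?_
      · intro a ha x _
        rw [map_smul, Finsupp.smul_apply, smul_eq_mul]
        exact Ideal.mul_mem_right _ _ ha
      · intro x y hx hy
        rw [map_add, Finsupp.add_apply]
        exact add_mem hx hy
  exact ⟨((Submodule.Quotient.restrictScalarsEquiv K (I.map (algebraMap P S))).symm.trans
    (Submodule.quotEquivOfEq _ _ hk.symm)).trans (φ.quotKerEquivOfSurjective hs)⟩

variable {K : Type u} [Field K]

/-- The polynomial `z ^ n - f`. -/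
noncomputable def gz (n : ℕ) (A : K) : Polynomial (P2 K) :=
  Polynomial.X ^ n - Polynomial.C (ff A)

/-- The ring `K[x, y, z] / (z ^ n - f)`. -/
abbrev SS (n : ℕ) (A : K) : Type u := AdjoinRoot (gz n A)

theorem monic_gz {n : ℕ} (hn : n ≠ 0) (A : K) : (gz n A).Monic :=
  Polynomial.monic_X_pow_sub_C _ hn

theorem natDegree_gz (n : ℕ) (A : K) : (gz n A).natDegree = n :=
  Polynomial.natDegree_X_pow_sub_C

theorem root_pow (n : ℕ) (A : K) :
    (AdjoinRoot.root (gz n A)) ^ n = algebraMap (P2 K) (SS n A) (ff A) := by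
  have h := AdjoinRoot.eval₂_root (gz n A)
  rw [gz, Polynomial.eval₂_sub, Polynomial.eval₂_X_pow, Polynomial.eval₂_C, sub_eq_zero] at h
  exact h

theorem finrank_SS {n : ℕ} (hn : n ≠ 0) (A : K) (I : Ideal (P2 K)) [Module.Finite K (P2 K ⧸ I)] :
    finrank K (SS n A ⧸ I.map (algebraMap (P2 K) (SS n A))) = n * finrank K (P2 K ⧸ I) := by
  obtain ⟨e⟩ := equiv_free (K := K) (AdjoinRoot.powerBasisAux' (monic_gz hn A)) I
  rw [e.finrank_eq, finrank_pi_fintype]
  simp [natDegree_gz]

theorem finite_SS {n : ℕ} (hn : n ≠ 0) (A : K) (I : Ideal (P2 K)) [Module.Finite K (P2 K ⧸ I)] :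
    Module.Finite K (SS n A ⧸ I.map (algebraMap (P2 K) (SS n A))) := by
  obtain ⟨e⟩ := equiv_free (K := K) (AdjoinRoot.powerBasisAux' (monic_gz hn A)) I
  exact Module.Finite.equiv e.symm

/-- The three generators of the maximal ideal. -/
noncomputable def gx (n : ℕ) (A : K) : SS n A := algebraMap (P2 K) (SS n A) (X 0)
/-- The three generators of the maximal ideal. -/
noncomputable def gy (n : ℕ) (A : K) : SS n A := algebraMap (P2 K) (SS n A) (X 1)
/-- The three generators of the maximal ideal. -/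
noncomputable def gr (n : ℕ) (A : K) : SS n A := AdjoinRoot.root (gz n A)

/-- The maximal ideal. -/
noncomputable def MS (n : ℕ) (A : K) : Ideal (SS n A) :=
  Ideal.span {gx n A, gy n A, gr n A}

theorem gx_mem (n : ℕ) (A : K) : gx n A ∈ MS n A := Ideal.subset_span (by simp)
theorem gy_mem (n : ℕ) (A : K) : gy n A ∈ MS n A := Ideal.subset_span (by simp)
theorem gr_mem (n : ℕ) (A : K) : gr n A ∈ MS n A := Ideal.subset_span (by simp)

/-- A ring homomorphism out of `S` from the images of the three generators. -/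
noncomputable def lft (n : ℕ) (A : K) {T : Type*} [CommRing T] [Algebra K T] (a b c : T)
    (h : c ^ n = a * (b * ((a - b) * (a - algebraMap K T A * b)))) : SS n A →ₐ[K] T :=
  AdjoinRoot.liftAlgHom (gz n A) (aeval ![a, b]) c (by
    rw [gz, Polynomial.eval₂_sub, Polynomial.eval₂_X_pow, Polynomial.eval₂_C, h, sub_eq_zero, ff]
    simp)

theorem lft_x (n : ℕ) (A : K) {T : Type*} [CommRing T] [Algebra K T] (a b c : T)
    (h : c ^ n = a * (b * ((a - b) * (a - algebraMap K T A * b)))) :
    lft n A a b c h (gx n A) = a := by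
  rw [lft, gx, AdjoinRoot.algebraMap_eq, AdjoinRoot.liftAlgHom_of]
  simp

theorem lft_y (n : ℕ) (A : K) {T : Type*} [CommRing T] [Algebra K T] (a b c : T)
    (h : c ^ n = a * (b * ((a - b) * (a - algebraMap K T A * b)))) :
    lft n A a b c h (gy n A) = b := by
  rw [lft, gy, AdjoinRoot.algebraMap_eq, AdjoinRoot.liftAlgHom_of]
  simp

theorem lft_r (n : ℕ) (A : K) {T : Type*} [CommRing T] [Algebra K T] (a b c : T)
    (h : c ^ n = a * (b * ((a - b) * (a - algebraMap K T A * b)))) :
    lft n A a b c h (gr n A) = c := by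
  rw [lft, gr, AdjoinRoot.liftAlgHom_root]

theorem hom_ext_SS {n : ℕ} {A : K} {T : Type*} [CommRing T] [Algebra K T] {f g : SS n A →ₐ[K] T}
    (hx : f (gx n A) = g (gx n A)) (hy : f (gy n A) = g (gy n A)) (hr : f (gr n A) = g (gr n A)) :
    f = g := by
  refine AdjoinRoot.algHom_ext' ?_ hr
  refine MvPolynomial.algHom_ext fun i => ?_
  fin_cases i
  · exact hx
  · exact hy

/-- The point. -/
noncomputable def pt {n : ℕ} (hn : n ≠ 0) (A : K) : SS n A →ₐ[K] K :=
  lft n A 0 0 0 (by simp [hn])

theorem sub_pt_mem {n : ℕ} (hn : n ≠ 0) (A : K) (s : SS n A) :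
    s - algebraMap K (SS n A) (pt hn A s) ∈ MS n A := by
  have key : (Ideal.Quotient.mkₐ K (MS n A)) =
      (Algebra.ofId K (SS n A ⧸ MS n A)).comp (pt hn A) := by
    refine hom_ext_SS ?_ ?_ ?_
    · rw [AlgHom.comp_apply, pt, lft_x, map_zero, Ideal.Quotient.mkₐ_eq_mk,
        Ideal.Quotient.eq_zero_iff_mem]
      exact gx_mem n A
    · rw [AlgHom.comp_apply, pt, lft_y, map_zero, Ideal.Quotient.mkₐ_eq_mk,
        Ideal.Quotient.eq_zero_iff_mem]
      exact gy_mem n A
    · rw [AlgHom.comp_apply, pt, lft_r, map_zero, Ideal.Quotient.mkₐ_eq_mk,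
        Ideal.Quotient.eq_zero_iff_mem]
      exact gr_mem n A
  rw [← Ideal.Quotient.mk_eq_mk_iff_sub_mem]
  exact congrArg (fun φ => φ s) key

theorem MS_eq_ker {n : ℕ} (hn : n ≠ 0) (A : K) : MS n A = RingHom.ker (pt hn A) := by
  apply le_antisymm
  · rw [MS, Ideal.span_le]
    rintro s (rfl | rfl | rfl)
    · exact lft_x ..
    · exact lft_y ..
    · exact lft_r ..
  · intro s hs
    have := sub_pt_mem hn A s
    rw [RingHom.mem_ker] at hs
    rwa [hs, map_zero, sub_zero] at this

theorem MS_max {n : ℕ} (hn : n ≠ 0) (A : K) : (MS n A).IsMaximal := by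
  rw [MS_eq_ker hn]
  exact RingHom.ker_isMaximal_of_surjective _ fun k => ⟨algebraMap K _ k, AlgHom.commutes _ k⟩

end Pool.Agent.Y241.HK
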