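import Pool.Agent.Y241.HK.Base

set_option autoImplicit false

/-!
# Hilbert–Kunz multiplicities: the rings `K[x, y, z] / (z ^ n - f)`, invariants
-/

namespace Pool.Agent.Y241.HK

open MvPolynomial Module Filter Topology

universe u

variable {K : Type u} [Field K]

/-- The first order neighbourhood of the point. -/
noncomputable def jet {n : ℕ} (hn : 2 ≤ n) (A : K) : SS n A →ₐ[K] TrivSqZeroExt K (Fin 3 → K) :=
  lft n A (TrivSqZeroExt.inr (Pi.single 0 1)) (TrivSqZeroExt.inr (Pi.single 1 1))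
    (TrivSqZeroExt.inr (Pi.single 2 1)) (by
      obtain ⟨k, rfl⟩ := Nat.exists_eq_add_of_le hn
      rw [pow_add, pow_two, TrivSqZeroExt.inr_mul_inr, zero_mul, ← mul_assoc,
        TrivSqZeroExt.inr_mul_inr, zero_mul])

theorem fst_jet {n : ℕ} (hn : 2 ≤ n) (A : K) (s : SS n A) :
    (jet hn A s).fst = pt (by omega) A s := by
  have key : (TrivSqZeroExt.fstHom K K (Fin 3 → K)).comp (jet hn A) = pt (by omega) A := by
    refine hom_ext_SS ?_ ?_ ?_
    · rw [AlgHom.comp_apply, jet, pt, lft_x, lft_x]; rfl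
    · rw [AlgHom.comp_apply, jet, pt, lft_y, lft_y]; rfl
    · rw [AlgHom.comp_apply, jet, pt, lft_r, lft_r]; rfl
  exact congrArg (fun φ => φ s) key

theorem finite_sq {n : ℕ} (hn : 2 ≤ n) (A : K) : Module.Finite K (SS n A ⧸ (MS n A) ^ 2) := by
  have h1 : (JJ K 2 ⊔ Ideal.span {X 0 ^ 2}).map (algebraMap (P2 K) (SS n A)) ≤ (MS n A) ^ 2 := by
    rw [Ideal.map_le_iff_le_comap, JJ, ← Ideal.span_union, Ideal.span_le]
    rintro s hs
    simp only [Set.union_singleton, Set.mem_insert_iff, Set.mem_singleton_iff, ← or_assoc,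
      or_self] at hs
    rw [SetLike.mem_coe, Ideal.mem_comap]
    rcases hs with rfl | rfl
    · rw [map_pow]
      exact Ideal.pow_mem_pow (gx_mem n A) 2
    · rw [map_pow]
      exact Ideal.pow_mem_pow (gy_mem n A) 2
  have h2 := finite_SS (n := n) (by omega) A (JJ K 2 ⊔ Ideal.span {X 0 ^ 2})
  exact Module.Finite.of_surjective (Ideal.Quotient.factorₐ K h1).toLinearMap
    (Ideal.Quotient.factor_surjective h1)

theorem emb_SS {n : ℕ} (hn : 2 ≤ n) (A : K) : 2 + 2 ≤ finrank K (SS n A ⧸ (MS n A) ^ 2) := by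
  have hfin := finite_sq hn A
  let φ : SS n A →ₗ[K] K × (Fin 3 → K) :=
    (((TrivSqZeroExt.fstHom K K (Fin 3 → K)).toLinearMap).prod
      (TrivSqZeroExt.sndHom K (Fin 3 → K))).comp (jet hn A).toLinearMap
  have hφ : ∀ s, φ s = ((jet hn A s).fst, (jet hn A s).snd) := fun s => rfl
  have hs : Function.Surjective φ := by
    rintro ⟨k, v⟩
    refine ⟨algebraMap K _ k + (v 0 • gx n A + (v 1 • gy n A + v 2 • gr n A)), ?_⟩
    rw [hφ]
    simp only [map_add, map_smul, AlgHom.commutes, jet, lft_x, lft_y, lft_r]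
    refine Prod.ext ?_ ?_
    · simp [TrivSqZeroExt.algebraMap_eq_inl]
    · funext i
      fin_cases i <;>
      simp [TrivSqZeroExt.algebraMap_eq_inl]
  have hk : ((MS n A) ^ 2).restrictScalars K ≤ LinearMap.ker φ := by
    intro g hg
    rw [Submodule.restrictScalars_mem, pow_two] at hg
    refine Submodule.mul_induction_on hg ?_ ?_
    · intro a ha b hb
      rw [MS_eq_ker (by omega), RingHom.mem_ker] at ha hb
      have ha' : (jet hn A a).fst = 0 := by rw [fst_jet]; exact ha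
      have hb' : (jet hn A b).fst = 0 := by rw [fst_jet]; exact hb
      rw [LinearMap.mem_ker, hφ, map_mul, TrivSqZeroExt.fst_mul, TrivSqZeroExt.snd_mul, ha', hb']
      simp
    · intro a b ha hb
      exact add_mem ha hb
  let ψ : (SS n A ⧸ (MS n A) ^ 2) →ₗ[K] K × (Fin 3 → K) :=
    (Submodule.liftQ _ φ hk).comp
      (Submodule.Quotient.restrictScalarsEquiv K ((MS n A) ^ 2)).symm.toLinearMap
  have hψ : Function.Surjective ψ := by
    intro v
    obtain ⟨g, hg⟩ := hs v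
    exact ⟨Ideal.Quotient.mk _ g, hg⟩
  have h1 := LinearMap.finrank_le_finrank_of_surjective hψ
  rw [Module.finrank_prod, finrank_self, finrank_fintype_fun_eq_card, Fintype.card_fin] at h1
  omega

theorem char_SS {p : ℕ} [CharP K p] {n : ℕ} (hn : n ≠ 0) (A : K) : CharP (SS n A) p := by
  have hM := MS_max hn A
  have : Nontrivial (SS n A) := ⟨⟨0, 1, fun h01 => hM.ne_top (by
    rw [Ideal.eq_top_iff_one, ← h01]; exact zero_mem _)⟩⟩
  exact charP_of_injective_algebraMap (algebraMap K (SS n A)).injective p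

theorem frobPow_MS {p : ℕ} [Fact p.Prime] [CharP K p] {n : ℕ} (hn : n ≠ 0) (A : K) (e : ℕ) :
    frobPow (MS n A) (p ^ e) =
      Ideal.span {gx n A ^ p ^ e, gy n A ^ p ^ e, gr n A ^ p ^ e} := by
  have := char_SS (p := p) hn A
  rw [MS, frobPow_span]
  congr 1
  rw [Set.image_insert_eq, Set.image_pair]

theorem frobPow_le {p : ℕ} [Fact p.Prime] [CharP K p] {n : ℕ} (hn : n ≠ 0) (A : K) (e : ℕ) :
    frobPow (MS n A) (p ^ e) ≤
      (JJ K (p ^ e) ⊔ Ideal.span {ff A ^ (p ^ e / n)}).map (algebraMap (P2 K) (SS n A)) := by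
  rw [frobPow_MS hn, Ideal.span_le]
  rintro s (rfl | rfl | rfl)
  · rw [SetLike.mem_coe, gx, ← map_pow]
    exact Ideal.mem_map_of_mem _ (Ideal.mem_sup_left (X0_mem _))
  · rw [SetLike.mem_coe, gy, ← map_pow]
    exact Ideal.mem_map_of_mem _ (Ideal.mem_sup_left (X1_mem _))
  · rw [SetLike.mem_coe]
    have h1 : gr n A ^ p ^ e = algebraMap (P2 K) (SS n A) (ff A ^ (p ^ e / n)) *
        gr n A ^ (p ^ e % n) := by
      conv_lhs => rw [← Nat.div_add_mod (p ^ e) n]
      rw [pow_add, pow_mul, map_pow, ← root_pow]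
      rfl
    rw [h1]
    exact Ideal.mul_mem_right _ _ (Ideal.mem_map_of_mem _
      (Ideal.mem_sup_right (Ideal.mem_span_singleton_self _)))

theorem le_frobPow {p : ℕ} [Fact p.Prime] [CharP K p] {n : ℕ} (hn : n ≠ 0) (A : K) (e : ℕ) :
    (JJ K (p ^ e) ⊔ Ideal.span {ff A ^ (p ^ e / n + 1)}).map (algebraMap (P2 K) (SS n A)) ≤
      frobPow (MS n A) (p ^ e) := by
  have hx : gx n A ^ p ^ e ∈ frobPow (MS n A) (p ^ e) :=
    Ideal.subset_span ⟨_, gx_mem n A, rfl⟩
  have hy : gy n A ^ p ^ e ∈ frobPow (MS n A) (p ^ e) :=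
    Ideal.subset_span ⟨_, gy_mem n A, rfl⟩
  have hr : gr n A ^ p ^ e ∈ frobPow (MS n A) (p ^ e) :=
    Ideal.subset_span ⟨_, gr_mem n A, rfl⟩
  rw [Ideal.map_le_iff_le_comap, JJ, ← Ideal.span_union, Ideal.span_le]
  rintro s ((rfl | rfl) | rfl)
  · rw [SetLike.mem_coe, Ideal.mem_comap, map_pow]
    exact hx
  · rw [SetLike.mem_coe, Ideal.mem_comap, map_pow]
    exact hy
  · rw [SetLike.mem_coe, Ideal.mem_comap]
    have h2 : p ^ e ≤ n * (p ^ e / n + 1) := by
      have := Nat.div_add_mod (p ^ e) n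
      have h3 := Nat.mod_lt (p ^ e) (Nat.pos_of_ne_zero hn)
      rw [mul_add, mul_one]
      omega
    have h1 : algebraMap (P2 K) (SS n A) (ff A ^ (p ^ e / n + 1)) =
        gr n A ^ p ^ e * gr n A ^ (n * (p ^ e / n + 1) - p ^ e) := by
      rw [← pow_add, Nat.add_sub_cancel' h2, pow_mul, map_pow, ← root_pow]
      rfl
    rw [h1]
    exact Ideal.mul_mem_right _ _ hr

/-- The function `λ`. -/
noncomputable def lamS (p n : ℕ) (A : K) (e : ℕ) : ℕ :=
  finrank K (SS n A ⧸ frobPow (MS n A) (p ^ e))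

theorem finite_frobPow {p : ℕ} [Fact p.Prime] [CharP K p] {n : ℕ} (hn : n ≠ 0) (A : K) (e : ℕ) :
    Module.Finite K (SS n A ⧸ frobPow (MS n A) (p ^ e)) := by
  have h1 := le_frobPow (p := p) hn A e
  have h2 := finite_SS hn A (JJ K (p ^ e) ⊔ Ideal.span {ff A ^ (p ^ e / n + 1)})
  exact Module.Finite.of_surjective (Ideal.Quotient.factorₐ K h1).toLinearMap
    (Ideal.Quotient.factor_surjective h1)

theorem lamS_lower {p : ℕ} [Fact p.Prime] [CharP K p] {n : ℕ} (hn : n ≠ 0) (A : K) (e : ℕ) :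
    n * Lq (p ^ e) (ff A ^ (p ^ e / n)) ≤ lamS p n A e := by
  have := finite_frobPow (p := p) hn A e
  rw [lamS, Lq, ← finrank_SS hn]
  exact finrank_quot_le (frobPow_le hn A e)

theorem lamS_upper {p : ℕ} [Fact p.Prime] [CharP K p] {n : ℕ} (hn : n ≠ 0) (A : K) (e : ℕ) :
    lamS p n A e ≤ n * (Lq (p ^ e) (ff A ^ (p ^ e / n)) + 4 * p ^ e) := by
  have h1 : lamS p n A e ≤ n * Lq (p ^ e) (ff A ^ (p ^ e / n + 1)) := by
    have h2 := finite_SS hn A (JJ K (p ^ e) ⊔ Ideal.span {ff A ^ (p ^ e / n + 1)})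
    rw [lamS, Lq, ← finrank_SS hn]
    exact finrank_quot_le (le_frobPow hn A e)
  have h3 := Lq_pow_add (p ^ e) A (p ^ e / n) 1
  rw [mul_one] at h3
  exact h1.trans (Nat.mul_le_mul_left _ h3)

/-- The Hilbert–Kunz multiplicity is `(p + 1) φ`. -/
theorem tendsto_lamS {p : ℕ} [Fact p.Prime] [CharP K p] (A : K) :
    Tendsto (fun e => (lamS p (p + 1) A e : ℝ) / ((p : ℝ) ^ e) ^ 2) atTop
      (𝓝 (((p : ℝ) + 1) * phiInf p A)) := by
  have hp : 1 ≤ p := (Fact.out : p.Prime).one_le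
  have hp' : (1 : ℝ) ≤ (p : ℝ) := by exact_mod_cast hp
  have h1 : Tendsto (fun e => ((p : ℝ) + 1) * phi p A e) atTop
      (𝓝 (((p : ℝ) + 1) * phiInf p A)) := (tendsto_phi A).const_mul _
  have h2 : Tendsto (fun e => ((p : ℝ) + 1) * (phi p A e + 4 / (p : ℝ) ^ e)) atTop
      (𝓝 (((p : ℝ) + 1) * phiInf p A)) := (tendsto_psi A).const_mul _
  refine tendsto_of_tendsto_of_tendsto_of_le_of_le h1 h2 (fun e => ?_) (fun e => ?_)
  · have h3 := lamS_lower (p := p) (n := p + 1) (by omega) A e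
    have h4 : ((p : ℝ) + 1) * (Lq (p ^ e) (ff A ^ (p ^ e / (p + 1))) : ℕ) ≤
        (lamS p (p + 1) A e : ℕ) := by exact_mod_cast h3
    have hq : (0 : ℝ) < (p : ℝ) ^ e := pow_pos (by linarith) _
    simp only [phi]
    rw [← mul_div_assoc]
    gcongr
  · have h3 := lamS_upper (p := p) (n := p + 1) (by omega) A e
    have h4 : ((lamS p (p + 1) A e : ℕ) : ℝ) ≤ ((p : ℝ) + 1) *
        ((Lq (p ^ e) (ff A ^ (p ^ e / (p + 1))) : ℕ) + 4 * (p : ℝ) ^ e) := by
      exact_mod_cast h3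
    have hq : (0 : ℝ) < (p : ℝ) ^ e := pow_pos (by linarith) _
    simp only [phi]
    rw [div_le_iff₀ (pow_pos hq 2)]
    refine h4.trans (le_of_eq ?_)
    field_simp

end Pool.Agent.Y241.HK
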