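import Pool.Agent.Y241.HK.Base2

set_option autoImplicit false

/-!
# Hilbert–Kunz multiplicities: the dimension of `K[x, y, z] / (z ^ n - f)` at the origin
-/

namespace Pool.Agent.Y241.HK

open MvPolynomial Module

universe u

variable {K : Type u} [Field K]

open RingTheory.Sequence in
theorem weaklyRegular_P : IsWeaklyRegular (P2 K) [(X 0 : P2 K), X 1] := by
  rw [isWeaklyRegular_cons_iff, isWeaklyRegular_singleton_iff]
  constructor
  · intro a b h
    exact mul_left_cancel₀ (X_ne_zero (R := K) 0) h
  · rw [isSMulRegular_iff_right_eq_zero_of_smul]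
    intro a h
    obtain ⟨a, rfl⟩ := Submodule.Quotient.mk_surjective _ a
    rw [← Submodule.Quotient.mk_smul, Submodule.Quotient.mk_eq_zero] at h
    rw [Submodule.Quotient.mk_eq_zero]
    obtain ⟨b, -, hb⟩ := Submodule.mem_smul_pointwise_iff_exists _ _ _ |>.1 h
    simp only [smul_eq_mul] at hb
    have h1 : ev 0 a = 0 := by
      have h2 := congrArg (ev 0) hb
      rw [map_mul, map_mul, ev_X0, ev_X1, map_zero, zero_mul, zero_mul] at h2
      exact (mul_eq_zero.1 h2.symm).resolve_left Polynomial.X_ne_zero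
    obtain ⟨c, hc⟩ := dvd_of_ev h1
    rw [map_zero, zero_mul, sub_zero] at hc
    exact Submodule.mem_smul_pointwise_iff_exists _ _ _ |>.2 ⟨c, trivial, hc.symm⟩

theorem noeth_SS (n : ℕ) (A : K) : IsNoetherianRing (SS n A) := by
  infer_instance

theorem res_SS {n : ℕ} (hn : n ≠ 0) (A : K) : finrank K (SS n A ⧸ MS n A) = 1 := by
  have := MS_max hn A
  refine finrank_eq_one (1 : SS n A ⧸ MS n A) one_ne_zero fun w => ?_
  obtain ⟨s, rfl⟩ := Ideal.Quotient.mk_surjective w
  have hk := sub_pt_mem hn A s
  refine ⟨pt hn A s, ?_⟩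
  rw [← Ideal.Quotient.mk_eq_mk_iff_sub_mem] at hk
  rw [hk, Algebra.smul_def, mul_one]
  rfl

open RingTheory.Sequence in
theorem height_SS {n : ℕ} (hn : n ≠ 0) (A : K) : (MS n A).height = 2 := by
  have hM := MS_max hn A
  have hnoeth := noeth_SS n A
  set R := Localization.AtPrime (MS n A) with hR
  have hnR : IsNoetherianRing R := IsLocalization.isNoetherianRing (MS n A).primeCompl _ hnoeth
  have hfree : Module.Free (P2 K) (SS n A) := (monic_gz hn A).free_adjoinRoot
  have h1 : IsWeaklyRegular (SS n A) [gx n A, gy n A] := (weaklyRegular_P (K := K)).of_flat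
  have h2 : RingTheory.Sequence.IsRegular R ([gx n A, gy n A].map (algebraMap (SS n A) R)) :=
    h1.isRegular_of_isLocalization_of_mem R (MS n A) (by
      intro r hr
      simp only [List.mem_cons, List.not_mem_nil, or_false] at hr
      rcases hr with rfl | rfl
      · exact gx_mem n A
      · exact gy_mem n A)
  have h3 := ringKrullDim_add_length_eq_ringKrullDim_of_isRegular _ h2
  set I : Ideal (SS n A) := Ideal.ofList [gx n A, gy n A] with hI
  have hmap : Ideal.ofList ([gx n A, gy n A].map (algebraMap (SS n A) R)) =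
      I.map (algebraMap (SS n A) R) := by
    rw [hI, Ideal.map_ofList]
  have hI' : I = (JJ K 1 ⊔ Ideal.span {X 0}).map (algebraMap (P2 K) (SS n A)) := by
    rw [hI, Ideal.ofList, JJ, ← Ideal.span_union, Ideal.map_span]
    congr 1
    ext s
    simp [gx, gy, eq_comm, or_comm]
  have hgx : gx n A ∈ I := by rw [hI]; exact Ideal.subset_span (by simp)
  have hgy : gy n A ∈ I := by rw [hI]; exact Ideal.subset_span (by simp)
  have hrad : MS n A ≤ I.radical := by
    rw [MS, Ideal.span_le]
    rintro s (rfl | rfl | rfl)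
    · exact Ideal.le_radical hgx
    · exact Ideal.le_radical hgy
    · refine ⟨n, ?_⟩
      rw [gr, root_pow, ff, map_mul]
      exact Ideal.mul_mem_right _ _ hgx
  obtain ⟨k, hk⟩ := Ideal.exists_pow_le_of_le_radical_of_fg hrad (IsNoetherian.noetherian _)
  have hfin : Module.Finite K (SS n A ⧸ I) := by
    rw [hI']
    have : Module.Finite K (P2 K ⧸ (JJ K 1 ⊔ Ideal.span {X 0})) := fin_quot 1 (X 0)
    exact finite_SS hn A _
  have h4 := length_loc (K := K) (MS n A) (res_SS hn A) I hk
  have h5 : Module.length R (R ⧸ I.map (algebraMap (SS n A) R)) =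
      Module.length (R ⧸ I.map (algebraMap (SS n A) R)) (R ⧸ I.map (algebraMap (SS n A) R)) :=
    Module.length_eq_of_surjective (R := R ⧸ I.map (algebraMap (SS n A) R)) (S := R)
      Ideal.Quotient.mk_surjective
  have h6 : IsArtinianRing (R ⧸ I.map (algebraMap (SS n A) R)) := by
    have h7 : Module.length (R ⧸ I.map (algebraMap (SS n A) R))
        (R ⧸ I.map (algebraMap (SS n A) R)) ≠ ⊤ := by
      rw [← h5, h4]
      exact ENat.natCast_ne_top _
    rw [Module.length_ne_top_iff, isFiniteLength_iff_isNoetherian_isArtinian] at h7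
    exact h7.2
  have hntr : Nontrivial (R ⧸ I.map (algebraMap (SS n A) R)) := by
    rw [← hmap]
    have := h2.2
    refine Ideal.Quotient.nontrivial_iff.2 fun h => this ?_
    rw [h]
    simp
  have h8 : ringKrullDim (R ⧸ I.map (algebraMap (SS n A) R)) = 0 :=
    le_antisymm (Ring.krullDimLE_iff.1 inferInstance) ringKrullDim_nonneg_of_nontrivial
  rw [hmap, h8, IsLocalization.AtPrime.ringKrullDim_eq_height (MS n A)] at h3
  simp only [List.map_cons, List.map_nil, List.length_cons, List.length_nil, zero_add] at h3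
  have h9 : ((MS n A).height : WithBot ℕ∞) = ((2 : ℕ∞) : WithBot ℕ∞) := by
    rw [← h3]
    rfl
  exact WithBot.coe_inj.1 h9

end Pool.Agent.Y241.HK
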