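import Pool.Agent.Y241.HK.BC

set_option autoImplicit false

/-!
# Hilbert–Kunz multiplicities: fibre products
-/

namespace Pool.Agent.Y241.HK

open Module Filter Topology

universe u

/-- The data of a point with residue field `K`, without the embedding dimension. -/
structure Pre (K : Type u) [Field K] (p d : ℕ) (lam : ℕ → ℕ) (S : Type u) [CommRing S]
    [Algebra K S] (M : Ideal S) : Prop where
  ft : Algebra.FiniteType K S
  max : M.IsMaximal
  res : ∀ s : S, ∃ k : K, s - algebraMap K S k ∈ M
  ht : M.height = d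
  fin : ∀ e, Module.Finite K (S ⧸ frobPow M (p ^ e))
  len : ∀ e, finrank K (S ⧸ frobPow M (p ^ e)) = lam e

theorem Good.pre {K : Type u} [Field K] {p d : ℕ} {lam : ℕ → ℕ} {S : Type u} [CommRing S]
    [Algebra K S] {M : Ideal S} (h : Good K p d lam S M) : Pre K p d lam S M :=
  ⟨h.ft, h.max, h.res, h.ht, h.fin, h.len⟩

theorem Pre.good {K : Type u} [Field K] {p d : ℕ} {lam : ℕ → ℕ} {S : Type u} [CommRing S]
    [Algebra K S] {M : Ideal S} (h : Pre K p d lam S M) (he : d + 2 ≤ finrank K (S ⧸ M ^ 2)) :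
    Good K p d lam S M :=
  ⟨h.ft, h.max, h.res, h.ht, he, h.fin, h.len⟩

theorem Pre.noeth {K : Type u} [Field K] {p d : ℕ} {lam : ℕ → ℕ} {S : Type u} [CommRing S]
    [Algebra K S] {M : Ideal S} (h : Pre K p d lam S M) : IsNoetherianRing S :=
  have := h.ft
  Algebra.FiniteType.isNoetherianRing K S

/-- the point itself -/
theorem Pre.base (K : Type u) [Field K] (p : ℕ) [Fact p.Prime] :
    Pre K p 0 (fun _ => 1) K (⊥ : Ideal K) := by
  have hp : 0 < p := (Fact.out : p.Prime).pos
  have hf : ∀ e, frobPow (⊥ : Ideal K) (p ^ e) = ⊥ := by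
    intro e
    rw [frobPow, Ideal.span_eq_bot]
    rintro y ⟨x, hx, rfl⟩
    rw [Ideal.mem_bot.1 hx, zero_pow (pow_pos hp e).ne']
  refine ⟨inferInstance, Ideal.bot_isMaximal, fun s => ⟨s, by simp⟩, ?_, fun e => ?_, fun e => ?_⟩
  · rw [Ideal.height_bot]; rfl
  · rw [hf]
    exact Module.Finite.of_surjective (Ideal.Quotient.mkₐ K (⊥ : Ideal K)).toLinearMap
      Ideal.Quotient.mk_surjective
  · rw [hf]
    have h1 : Function.Bijective (Ideal.Quotient.mkₐ K (⊥ : Ideal K)) := by
      refine ⟨?_, Ideal.Quotient.mk_surjective⟩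
      rw [injective_iff_map_eq_zero]
      intro a ha
      exact Ideal.mem_bot.1 (Ideal.Quotient.eq_zero_iff_mem.1 ha)
    rw [← (LinearEquiv.ofBijective (Ideal.Quotient.mkₐ K (⊥ : Ideal K)).toLinearMap h1).finrank_eq,
      finrank_self]

/-- Adding a variable. -/
theorem Pre.succ {K : Type u} [Field K] {p d : ℕ} [Fact p.Prime] [CharP K p] {lam : ℕ → ℕ}
    {S : Type u} [CommRing S] [Algebra K S] {M : Ideal S} (h : Pre K p d lam S M) :
    Pre K p (d + 1) (fun e => p ^ e * lam e) (Polynomial S) (up M) := by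
  have hmax := h.max
  have hft := h.ft
  have hnoeth := h.noeth
  have hnt : Nontrivial S := ⟨⟨0, 1, fun h01 => hmax.ne_top (by
    rw [Ideal.eq_top_iff_one, ← h01]; exact zero_mem _)⟩⟩
  have hchar : CharP S p := charP_of_injective_algebraMap (algebraMap K S).injective p
  have hmax' : (up M).IsMaximal :=
    Ideal.comap_isMaximal_of_surjective _ Polynomial.constantCoeff_surjective
  refine ⟨?_, hmax', ?_, ?_, ?_, ?_⟩
  · exact Algebra.FiniteType.trans (S := S) inferInstance inferInstance
  · intro g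
    obtain ⟨k, hk⟩ := h.res (g.coeff 0)
    refine ⟨k, ?_⟩
    rw [mem_up, Polynomial.coeff_sub, Polynomial.algebraMap_apply, Polynomial.coeff_C_zero]
    exact hk
  · have hover : (up M).LiesOver M := ⟨by
      ext x
      rw [Ideal.mem_comap, mem_up, Polynomial.algebraMap_apply, Algebra.algebraMap_self,
        RingHom.id_apply, Polynomial.coeff_C_zero]⟩
    rw [Polynomial.height_eq_height_add_one M (up M), h.ht]
    push_cast
    rfl
  · intro e
    have := h.fin e
    rw [frobPow_up]
    exact finite_up _ _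
  · intro e
    have := h.fin e
    rw [frobPow_up, finrank_up, h.len]

/-- affine space -/
theorem Pre.affine (K : Type u) [Field K] (p : ℕ) [Fact p.Prime] [CharP K p] (d : ℕ) :
    ∃ (S : Type u) (_ : CommRing S) (_ : Algebra K S) (M : Ideal S),
      Pre K p d (fun e => (p ^ e) ^ d) S M := by
  induction d with
  | zero => exact ⟨K, inferInstance, inferInstance, ⊥, by simpa using Pre.base K p⟩
  | succ d ih =>
    obtain ⟨S, _, _, M, h⟩ := ih
    refine ⟨Polynomial S, inferInstance, inferInstance, up M, ?_⟩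
    have h1 := h.succ
    have h2 : (fun e => (p ^ e) ^ (d + 1)) = fun e => p ^ e * (p ^ e) ^ d := by
      funext e
      ring
    rw [h2]
    exact h1

/-- the residue homomorphism -/
theorem Pre.exists_hom {K : Type u} [Field K] {p d : ℕ} {lam : ℕ → ℕ} {S : Type u} [CommRing S]
    [Algebra K S] {M : Ideal S} (h : Pre K p d lam S M) :
    ∃ ρ : S →ₐ[K] K, ∀ s, ρ s = 0 ↔ s ∈ M := by
  have hmax := h.max
  have hbij : Function.Bijective (Algebra.ofId K (S ⧸ M)) := by
    refine ⟨(algebraMap K (S ⧸ M)).injective, fun y => ?_⟩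
    obtain ⟨s, rfl⟩ := Ideal.Quotient.mk_surjective y
    obtain ⟨k, hk⟩ := h.res s
    refine ⟨k, ?_⟩
    rw [Algebra.ofId_apply, eq_comm]
    exact (Ideal.Quotient.eq).2 hk
  let e := AlgEquiv.ofBijective (Algebra.ofId K (S ⧸ M)) hbij
  refine ⟨(e.symm : (S ⧸ M) →ₐ[K] K).comp (Ideal.Quotient.mkₐ K M), fun s => ?_⟩
  rw [AlgHom.comp_apply]
  have h1 : (e.symm : (S ⧸ M) →ₐ[K] K) (Ideal.Quotient.mkₐ K M s) = 0 ↔
      Ideal.Quotient.mkₐ K M s = 0 := by
    constructor
    · intro h0
      have := congrArg e h0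
      rw [map_zero] at this
      rw [← this]
      exact (e.apply_symm_apply _).symm
    · intro h0
      rw [h0, map_zero]
  rw [h1]
  exact Ideal.Quotient.eq_zero_iff_mem

theorem Pre.lam_pos {K : Type u} [Field K] {p d : ℕ} [Fact p.Prime] {lam : ℕ → ℕ} {S : Type u}
    [CommRing S] [Algebra K S] {M : Ideal S} (h : Pre K p d lam S M) (e : ℕ) : 1 ≤ lam e := by
  have hmax := h.max
  have := h.fin e
  rw [← h.len e]
  have hle : frobPow M (p ^ e) ≤ M := by
    rw [frobPow, Ideal.span_le]
    rintro y ⟨x, hx, rfl⟩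
    exact Ideal.pow_mem_of_mem _ hx _ (pow_pos (Fact.out : p.Prime).pos e)
  have hnt : Nontrivial (S ⧸ frobPow M (p ^ e)) :=
    Ideal.Quotient.nontrivial_iff.2 fun h0 => hmax.ne_top (top_le_iff.1 (h0 ▸ hle))
  exact finrank_pos

/-- the height of a prime of a ring all of whose primes below it contain one of two kernels -/
theorem height_glue {T S₁ S₂ : Type u} [CommRing T] [CommRing S₁] [CommRing S₂]
    (f₁ : T →+* S₁) (f₂ : T →+* S₂) (h₁ : Function.Surjective f₁) (h₂ : Function.Surjective f₂)
    (hker : ∀ x y : T, f₁ x = 0 → f₂ y = 0 → x * y = 0) (M₁ : Ideal S₁) (M₂ : Ideal S₂)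
    [M₁.IsPrime] [M₂.IsPrime] (hM : M₁.comap f₁ = M₂.comap f₂) (d : ℕ) (hd₁ : M₁.height = d)
    (hd₂ : M₂.height = d) : (M₁.comap f₁).height = d := by
  -- the embedding of spectra
  have key : ∀ {S : Type u} [CommRing S] (f : T →+* S) (_ : Function.Surjective f) (N : Ideal S)
      [N.IsPrime] (_ : N.height = d) (s : LTSeries (PrimeSpectrum T)) (_ : s.last.asIdeal = N.comap f)
      (_ : RingHom.ker f ≤ s.head.asIdeal), (s.length : ℕ∞) ≤ d := by
    intro S _ f hf N _ hN s hs hk
    have hk' : ∀ j : Fin (s.length + 1), RingHom.ker f ≤ (s j).asIdeal := fun j =>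
      hk.trans (s.strictMono.monotone (Fin.zero_le j))
    have hr : ∀ j : Fin (s.length + 1), ∃ r : PrimeSpectrum S, PrimeSpectrum.comap f r = s j := by
      intro j
      have h1 : s j ∈ Set.range (PrimeSpectrum.comap f) := by
        rw [range_comap_of_surjective _ f hf]
        exact hk' j
      exact h1
    choose r hr using hr
    have hlt : ∀ a b : PrimeSpectrum S, PrimeSpectrum.comap f a < PrimeSpectrum.comap f b →
        a < b := by
      intro a b hab
      have h1 : (PrimeSpectrum.comap f a).asIdeal < (PrimeSpectrum.comap f b).asIdeal := hab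
      rw [PrimeSpectrum.comap_asIdeal, PrimeSpectrum.comap_asIdeal] at h1
      have h2 : a.asIdeal < b.asIdeal := by
        refine lt_of_le_of_ne ((Ideal.comap_le_comap_iff_of_surjective f hf _ _).1 h1.le) ?_
        intro h3
        rw [h3] at h1
        exact lt_irrefl _ h1
      exact h2
    let t : LTSeries (PrimeSpectrum S) := ⟨s.length, r, fun j => hlt _ _ (by
      rw [hr, hr]
      exact s.step j)⟩
    have hlast : t.last = ⟨N, inferInstance⟩ := by
      have h1 : PrimeSpectrum.comap f t.last = PrimeSpectrum.comap f ⟨N, inferInstance⟩ := by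
        apply PrimeSpectrum.ext
        rw [PrimeSpectrum.comap_asIdeal (y := ⟨N, inferInstance⟩), ← hs]
        exact congrArg PrimeSpectrum.asIdeal (hr _)
      exact PrimeSpectrum.comap_injective_of_surjective f hf h1
    have h1 := Order.length_le_height_last (p := t)
    rw [hlast, ← PrimeSpectrum.height_eq_orderHeight] at h1
    rw [← hN]
    exact h1
  have hpr : (M₁.comap f₁).IsPrime := inferInstance
  apply le_antisymm
  · have h0 : (M₁.comap f₁).height = Order.height (⟨M₁.comap f₁, hpr⟩ : PrimeSpectrum T) :=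
      PrimeSpectrum.height_eq_orderHeight ⟨M₁.comap f₁, hpr⟩
    rw [h0]
    apply Order.height_le
    intro s hs
    have hs' : s.last.asIdeal = M₁.comap f₁ := by rw [hs]
    by_cases hk : RingHom.ker f₁ ≤ s.head.asIdeal
    · exact key f₁ h₁ M₁ hd₁ s hs' hk
    · refine key f₂ h₂ M₂ hd₂ s (hs'.trans hM) ?_
      obtain ⟨x, hx, hx'⟩ := SetLike.not_le_iff_exists.1 hk
      intro y hy
      have h1 : x * y ∈ s.head.asIdeal := by
        rw [hker x y hx hy]
        exact zero_mem _
      exact (s.head.isPrime.mem_or_mem h1).resolve_left hx'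
  · have h1 : StrictMono (PrimeSpectrum.comap f₁) := by
      intro a b hab
      have h2 : a.asIdeal < b.asIdeal := hab
      have h3 : (PrimeSpectrum.comap f₁ a).asIdeal < (PrimeSpectrum.comap f₁ b).asIdeal := by
        rw [PrimeSpectrum.comap_asIdeal, PrimeSpectrum.comap_asIdeal]
        refine lt_of_le_of_ne (Ideal.comap_mono h2.le) ?_
        intro h4
        exact h2.ne (Ideal.comap_injective_of_surjective f₁ h₁ h4)
      exact h3
    have h2 := Order.height_le_height_apply_of_strictMono _ h1 (⟨M₁, inferInstance⟩ : PrimeSpectrum S₁)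
    rw [← PrimeSpectrum.height_eq_orderHeight, ← PrimeSpectrum.height_eq_orderHeight] at h2
    rw [← hd₁]
    exact h2

end Pool.Agent.Y241.HK
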