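import Pool.Agent.Y241.HK.Fib

set_option autoImplicit false

/-!
# Hilbert–Kunz multiplicities: the fibre product of two points
-/

namespace Pool.Agent.Y241.HK

open Module Filter Topology

universe u

theorem Pre.fin_sq {K : Type u} [Field K] {p d : ℕ} [Fact p.Prime] {lam : ℕ → ℕ} {S : Type u}
    [CommRing S] [Algebra K S] {M : Ideal S} (h : Pre K p d lam S M) :
    Module.Finite K (S ⧸ M ^ 2) := by
  have := h.fin 1
  have hle : frobPow M (p ^ 1) ≤ M ^ 2 := by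
    rw [frobPow, Ideal.span_le]
    rintro y ⟨x, hx, rfl⟩
    rw [pow_one]
    exact Ideal.pow_le_pow_right (Fact.out : p.Prime).two_le (Ideal.pow_mem_pow hx p)
  exact Module.Finite.of_surjective (Ideal.Quotient.factorₐ K hle).toLinearMap
    (Ideal.Quotient.factor_surjective hle)

/-- The fibre product of two points with the same residue field. -/
theorem Pre.fib {K : Type u} [Field K] {p d : ℕ} [Fact p.Prime] {lam₁ lam₂ : ℕ → ℕ}
    {S₁ S₂ : Type u} [CommRing S₁] [CommRing S₂] [Algebra K S₁] [Algebra K S₂] {M₁ : Ideal S₁}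
    {M₂ : Ideal S₂} (h₁ : Pre K p d lam₁ S₁ M₁) (h₂ : Pre K p d lam₂ S₂ M₂) :
    ∃ (T : Type u) (_ : CommRing T) (_ : Algebra K T) (M : Ideal T),
      Pre K p d (fun e => lam₁ e + lam₂ e - 1) T M ∧
      finrank K (S₁ ⧸ M₁ ^ 2) ≤ finrank K (T ⧸ M ^ 2) := by
  have hmax₁ := h₁.max
  have hmax₂ := h₂.max
  have hft₁ := h₁.ft
  have hft₂ := h₂.ft
  obtain ⟨ρ₁, hρ₁⟩ := h₁.exists_hom
  obtain ⟨ρ₂, hρ₂⟩ := h₂.exists_hom
  let T : Subalgebra K (S₁ × S₂) :=
    AlgHom.equalizer (ρ₁.comp (AlgHom.fst K S₁ S₂)) (ρ₂.comp (AlgHom.snd K S₁ S₂))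
  have hT : ∀ x : S₁ × S₂, x ∈ T ↔ ρ₁ x.1 = ρ₂ x.2 := fun x => Iff.rfl
  let f₁ : T →ₐ[K] S₁ := (AlgHom.fst K S₁ S₂).comp T.val
  let f₂ : T →ₐ[K] S₂ := (AlgHom.snd K S₁ S₂).comp T.val
  have hf₁ : ∀ t : T, f₁ t = (t : S₁ × S₂).1 := fun _ => rfl
  have hf₂ : ∀ t : T, f₂ t = (t : S₁ × S₂).2 := fun _ => rfl
  have hff : ∀ t : T, ρ₁ (f₁ t) = ρ₂ (f₂ t) := fun t => (hT _).1 t.2
  let j₁ : S₁ → T := fun a => ⟨(a, algebraMap K S₂ (ρ₁ a)), by
    rw [hT]; simp⟩
  let j₂ : S₂ → T := fun b => ⟨(algebraMap K S₁ (ρ₂ b), b), by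
    rw [hT]; simp⟩
  have hs₁ : Function.Surjective f₁ := fun a => ⟨j₁ a, rfl⟩
  have hs₂ : Function.Surjective f₂ := fun b => ⟨j₂ b, rfl⟩
  have hext : ∀ s t : T, f₁ s = f₁ t → f₂ s = f₂ t → s = t := fun s t h h' =>
    Subtype.ext (Prod.ext h h')
  let M : Ideal T := M₁.comap (f₁ : T →+* S₁)
  have hM₁ : ∀ t : T, t ∈ M ↔ f₁ t ∈ M₁ := fun t => Iff.rfl
  have hM₂ : ∀ t : T, t ∈ M ↔ f₂ t ∈ M₂ := fun t => by
    rw [hM₁, ← hρ₁, ← hρ₂, hff]
  have hMM : M₁.comap (f₁ : T →+* S₁) = M₂.comap (f₂ : T →+* S₂) := by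
    ext t
    exact hM₂ t
  have hmax : M.IsMaximal := Ideal.comap_isMaximal_of_surjective _ hs₁
  -- the Frobenius powers
  have hfrob : ∀ q : ℕ, q ≠ 0 → ∀ t : T, t ∈ frobPow M q ↔
      f₁ t ∈ frobPow M₁ q ∧ f₂ t ∈ frobPow M₂ q := by
    intro q hq t
    constructor
    · intro ht
      constructor
      · have h : frobPow M q ≤ (frobPow M₁ q).comap (f₁ : T →+* S₁) := by
          conv_lhs => rw [frobPow]
          rw [Ideal.span_le]
          rintro y ⟨x, hx, rfl⟩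
          show f₁ (x ^ q) ∈ frobPow M₁ q
          rw [map_pow]
          exact Ideal.subset_span ⟨f₁ x, (hM₁ x).1 hx, rfl⟩
        exact h ht
      · have h : frobPow M q ≤ (frobPow M₂ q).comap (f₂ : T →+* S₂) := by
          conv_lhs => rw [frobPow]
          rw [Ideal.span_le]
          rintro y ⟨x, hx, rfl⟩
          show f₂ (x ^ q) ∈ frobPow M₂ q
          rw [map_pow]
          exact Ideal.subset_span ⟨f₂ x, (hM₂ x).1 hx, rfl⟩
        exact h ht
    · rintro ⟨ht₁, ht₂⟩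
      -- the two axes
      let N₁ : Ideal S₁ :=
        { carrier := {a | ∃ s : T, f₁ s = a ∧ f₂ s = 0 ∧ s ∈ frobPow M q}
          zero_mem' := ⟨0, map_zero _, map_zero _, zero_mem _⟩
          add_mem' := by
            rintro a b ⟨s, hs, hs', hs''⟩ ⟨s₀, hs₀, hs₀', hs₀''⟩
            exact ⟨s + s₀, by rw [map_add, hs, hs₀], by rw [map_add, hs', hs₀', add_zero],
              add_mem hs'' hs₀''⟩
          smul_mem' := by
            rintro c a ⟨s, hs, hs', hs''⟩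
            exact ⟨j₁ c * s, by rw [map_mul, hs]; rfl, by rw [map_mul, hs', mul_zero],
              Ideal.mul_mem_left _ _ hs''⟩ }
      let N₂ : Ideal S₂ :=
        { carrier := {a | ∃ s : T, f₂ s = a ∧ f₁ s = 0 ∧ s ∈ frobPow M q}
          zero_mem' := ⟨0, map_zero _, map_zero _, zero_mem _⟩
          add_mem' := by
            rintro a b ⟨s, hs, hs', hs''⟩ ⟨s₀, hs₀, hs₀', hs₀''⟩
            exact ⟨s + s₀, by rw [map_add, hs, hs₀], by rw [map_add, hs', hs₀', add_zero],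
              add_mem hs'' hs₀''⟩
          smul_mem' := by
            rintro c a ⟨s, hs, hs', hs''⟩
            exact ⟨j₂ c * s, by rw [map_mul, hs]; rfl, by rw [map_mul, hs', mul_zero],
              Ideal.mul_mem_left _ _ hs''⟩ }
      have hN₁ : frobPow M₁ q ≤ N₁ := by
        conv_lhs => rw [frobPow]
        rw [Ideal.span_le]
        rintro y ⟨x, hx, rfl⟩
        have hx0 : ρ₁ x = 0 := (hρ₁ x).2 hx
        have h2 : f₂ (j₁ x) = 0 := by
          show algebraMap K S₂ (ρ₁ x) = 0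
          rw [hx0, map_zero]
        refine ⟨j₁ x ^ q, by rw [map_pow]; rfl, by rw [map_pow, h2, zero_pow hq], ?_⟩
        exact Ideal.subset_span ⟨j₁ x, (hM₁ _).2 hx, rfl⟩
      have hN₂ : frobPow M₂ q ≤ N₂ := by
        conv_lhs => rw [frobPow]
        rw [Ideal.span_le]
        rintro y ⟨x, hx, rfl⟩
        have hx0 : ρ₂ x = 0 := (hρ₂ x).2 hx
        have h2 : f₁ (j₂ x) = 0 := by
          show algebraMap K S₁ (ρ₂ x) = 0
          rw [hx0, map_zero]
        refine ⟨j₂ x ^ q, by rw [map_pow]; rfl, by rw [map_pow, h2, zero_pow hq], ?_⟩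
        exact Ideal.subset_span ⟨j₂ x, (hM₂ _).2 hx, rfl⟩
      obtain ⟨s₁, hs₁1, hs₁2, hs₁3⟩ := hN₁ ht₁
      obtain ⟨s₂, hs₂1, hs₂2, hs₂3⟩ := hN₂ ht₂
      have : t = s₁ + s₂ := hext _ _ (by rw [map_add, hs₁1, hs₂2, add_zero])
        (by rw [map_add, hs₁2, hs₂1, zero_add])
      rw [this]
      exact add_mem hs₁3 hs₂3
  -- the dimension
  have hle : ∀ {S : Type u} [CommRing S] (N : Ideal S) (q : ℕ), q ≠ 0 → frobPow N q ≤ N := by
    intro S _ N q hq
    rw [frobPow, Ideal.span_le]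
    rintro y ⟨x, hx, rfl⟩
    exact Ideal.pow_mem_of_mem _ hx _ (Nat.pos_of_ne_zero hq)
  have hdim : ∀ e, Module.Finite K (T ⧸ frobPow M (p ^ e)) ∧
      finrank K (T ⧸ frobPow M (p ^ e)) + 1 = lam₁ e + lam₂ e := by
    intro e
    have hq : p ^ e ≠ 0 := (pow_pos (Fact.out : p.Prime).pos e).ne'
    set q := p ^ e with hqdef
    have hfin₁ := h₁.fin e
    have hfin₂ := h₂.fin e
    have hlen₁ := h₁.len e
    have hlen₂ := h₂.len e
    rw [← hqdef] at hfin₁ hfin₂ hlen₁ hlen₂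
    let ψ : T →ₗ[K] (S₁ ⧸ frobPow M₁ q) × (S₂ ⧸ frobPow M₂ q) :=
      ((Ideal.Quotient.mkₐ K (frobPow M₁ q)).toLinearMap.comp f₁.toLinearMap).prod
        ((Ideal.Quotient.mkₐ K (frobPow M₂ q)).toLinearMap.comp f₂.toLinearMap)
    have hψ : ∀ t, ψ t = (Ideal.Quotient.mk _ (f₁ t), Ideal.Quotient.mk _ (f₂ t)) := fun _ => rfl
    have hk : LinearMap.ker ψ = (frobPow M q).restrictScalars K := by
      ext t
      rw [LinearMap.mem_ker, Submodule.restrictScalars_mem, hfrob q hq, hψ, Prod.mk_eq_zero,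
        Ideal.Quotient.eq_zero_iff_mem, Ideal.Quotient.eq_zero_iff_mem]
    let r₁ : (S₁ ⧸ frobPow M₁ q) →ₐ[K] K := Ideal.Quotient.liftₐ (frobPow M₁ q) ρ₁
      (fun a ha => (hρ₁ a).2 (hle _ q hq ha))
    let r₂ : (S₂ ⧸ frobPow M₂ q) →ₐ[K] K := Ideal.Quotient.liftₐ (frobPow M₂ q) ρ₂
      (fun a ha => (hρ₂ a).2 (hle _ q hq ha))
    have hr₁ : ∀ a, r₁ (Ideal.Quotient.mk _ a) = ρ₁ a := fun _ => rfl
    have hr₂ : ∀ a, r₂ (Ideal.Quotient.mk _ a) = ρ₂ a := fun _ => rfl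
    let δ : (S₁ ⧸ frobPow M₁ q) × (S₂ ⧸ frobPow M₂ q) →ₗ[K] K :=
      r₁.toLinearMap.comp (LinearMap.fst K _ _) - r₂.toLinearMap.comp (LinearMap.snd K _ _)
    have hδ : ∀ x, δ x = r₁ x.1 - r₂ x.2 := fun _ => rfl
    have hδs : Function.Surjective δ := by
      intro k
      refine ⟨(algebraMap K _ k, 0), ?_⟩
      rw [hδ, map_zero, sub_zero, AlgHom.commutes]
      rfl
    have hrange : LinearMap.range ψ = LinearMap.ker δ := by
      ext x
      rw [LinearMap.mem_range, LinearMap.mem_ker, hδ]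
      constructor
      · rintro ⟨t, rfl⟩
        rw [hψ, hr₁, hr₂, hff, sub_self]
      · intro hx
        obtain ⟨x, y⟩ := x
        obtain ⟨a, rfl⟩ := Ideal.Quotient.mk_surjective x
        obtain ⟨b, rfl⟩ := Ideal.Quotient.mk_surjective y
        rw [hr₁, hr₂, sub_eq_zero] at hx
        exact ⟨⟨(a, b), hx⟩, rfl⟩
    let E : (T ⧸ frobPow M q) ≃ₗ[K] LinearMap.range ψ :=
      ((Submodule.Quotient.restrictScalarsEquiv K (frobPow M q)).symm.trans
        (Submodule.quotEquivOfEq _ _ hk.symm)).trans ψ.quotKerEquivRange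
    refine ⟨Module.Finite.equiv E.symm, ?_⟩
    rw [E.finrank_eq, hrange]
    have h3 := LinearMap.finrank_range_add_finrank_ker δ
    rw [LinearMap.range_eq_top.2 hδs, finrank_top, finrank_self, Module.finrank_prod, hlen₁,
      hlen₂] at h3
    omega
  have hpre : Pre K p d (fun e => lam₁ e + lam₂ e - 1) T M := by
    refine ⟨⟨?_⟩, hmax, ?_, ?_, fun e => (hdim e).1, fun e => ?_⟩
    · refine fg_of_fg_of_fg K T (S₁ × S₂) (inferInstance : Algebra.FiniteType K (S₁ × S₂)).out ?_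
        Subtype.val_injective
      refine Submodule.fg_def.2 ⟨{(1, 0), (0, 1)}, Set.toFinite _, ?_⟩
      rw [eq_top_iff]
      rintro ⟨a, b⟩ -
      have h1 : ((a, b) : S₁ × S₂) = j₁ a • ((1, 0) : S₁ × S₂) + j₂ b • ((0, 1) : S₁ × S₂) := by
        have e1 : j₁ a • ((1, 0) : S₁ × S₂) = (a, 0) := by
          show ((a, algebraMap K S₂ (ρ₁ a)) : S₁ × S₂) * (1, 0) = (a, 0)
          simp
        have e2 : j₂ b • ((0, 1) : S₁ × S₂) = (0, b) := by
          show ((algebraMap K S₁ (ρ₂ b), b) : S₁ × S₂) * (0, 1) = (0, b)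
          simp
        rw [e1, e2]
        simp
      rw [h1]
      exact add_mem (Submodule.smul_mem _ _ (Submodule.subset_span (by simp)))
        (Submodule.smul_mem _ _ (Submodule.subset_span (by simp)))
    · intro t
      obtain ⟨k, hk⟩ := h₁.res (f₁ t)
      refine ⟨k, ?_⟩
      rw [hM₁, map_sub, AlgHom.commutes]
      exact hk
    · refine height_glue (f₁ : T →+* S₁) (f₂ : T →+* S₂) hs₁ hs₂ ?_ M₁ M₂ hMM d h₁.ht h₂.ht
      intro x y hx hy
      refine hext _ _ ?_ ?_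
      · rw [map_mul, map_zero]
        have : f₁ x = 0 := hx
        rw [this, zero_mul]
      · rw [map_mul, map_zero]
        have : f₂ y = 0 := hy
        rw [this, mul_zero]
    · have := (hdim e).2
      omega
  refine ⟨T, inferInstance, inferInstance, M, hpre, ?_⟩
  have hfin := hpre.fin_sq
  have hle2 : M ^ 2 ≤ (M₁ ^ 2).comap (f₁ : T →+* S₁) := by
    rw [← Ideal.map_le_iff_le_comap, Ideal.map_pow]
    exact Ideal.pow_right_mono Ideal.map_comap_le 2
  have hsurj : Function.Surjective (Ideal.quotientMapₐ (M₁ ^ 2) f₁ hle2) := by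
    intro y
    obtain ⟨a, rfl⟩ := Ideal.Quotient.mk_surjective y
    exact ⟨Ideal.Quotient.mk _ (j₁ a), rfl⟩
  exact LinearMap.finrank_le_finrank_of_surjective (f := (Ideal.quotientMapₐ (M₁ ^ 2) f₁ hle2).toLinearMap) hsurj

end Pool.Agent.Y241.HK
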