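import Pool.Agent.Y241.HK.Seq

set_option autoImplicit false

/-!
# Hilbert–Kunz multiplicities: all dimensions
-/

namespace Pool.Agent.Y241.HK

open MvPolynomial Module Filter Topology

universe u

theorem good_SS {K : Type u} [Field K] {p : ℕ} [Fact p.Prime] [CharP K p] (A : K) :
    Good K p 2 (lamS p (p + 1) A) (SS (p + 1) A) (MS (p + 1) A) where
  ft := Algebra.FiniteType.trans (S := P2 K) inferInstance inferInstance
  max := MS_max (by omega) A
  res := fun s => ⟨_, sub_pt_mem (by omega) A s⟩
  ht := height_SS (by omega) A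
  emb := emb_SS (by have := (Fact.out : p.Prime).one_le; omega) A
  fin := finite_frobPow (by omega) A
  len := fun _ => rfl

theorem good_iter {K : Type u} [Field K] {p : ℕ} [Fact p.Prime] [CharP K p] (A : K) (k : ℕ) :
    ∃ (S : Type u) (_ : CommRing S) (_ : Algebra K S) (M : Ideal S),
      Good K p (2 + k) (fun e => (p ^ e) ^ k * lamS p (p + 1) A e) S M := by
  induction k with
  | zero =>
    refine ⟨SS (p + 1) A, inferInstance, inferInstance, MS (p + 1) A, ?_⟩
    simpa using good_SS A
  | succ k ih =>
    obtain ⟨S, _, _, M, h⟩ := ih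
    refine ⟨Polynomial S, inferInstance, inferInstance, up M, ?_⟩
    have h1 := h.succ
    have h2 : (fun e => (p ^ e) ^ (k + 1) * lamS p (p + 1) A e) =
        fun e => p ^ e * ((p ^ e) ^ k * lamS p (p + 1) A e) := by
      funext e
      ring
    rw [h2]
    exact h1

theorem kap_eq {p : ℕ} : ((p : ℝ) + 1) * kap p = 4 * p / (p + 1) := by
  have : (0 : ℝ) < (p : ℝ) + 1 := by positivity
  rw [kap]
  field_simp
  ring

/-- The main theorem, in terms of the definitions of this folder. -/
theorem main (p : ℕ) [Fact p.Prime] (F : Type u) [Field F] [Finite F] [CharP F p] (d : ℕ)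
    (hd : 2 ≤ d) : ∃ a : ℕ → ℝ, StrictAnti a ∧ Tendsto a atTop (𝓝 (4 * p / (p + 1))) ∧
      ∀ n, ∃ (S : Type u) (_ : CommRing S) (_ : Algebra F S) (M : Ideal S) (_ : M.IsMaximal),
        Algebra.FiniteType F S ∧ ringKrullDim (Localization.AtPrime M) = d ∧
        ¬ IsRegularLocalRing (Localization.AtPrime M) ∧
        (∀ e, Module.length (Localization.AtPrime M) (Localization.AtPrime M ⧸
          frobPow (IsLocalRing.maximalIdeal (Localization.AtPrime M)) (p ^ e)) ≠ ⊤) ∧
        Tendsto (fun e => ((Module.length (Localization.AtPrime M) (Localization.AtPrime M ⧸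
          frobPow (IsLocalRing.maximalIdeal (Localization.AtPrime M)) (p ^ e))).toNat : ℝ) /
          ((p : ℝ) ^ e) ^ d) atTop (𝓝 (a n)) := by
  have hcharL : CharP (AlgebraicClosure F) p :=
    charP_of_injective_algebraMap (algebraMap F _).injective p
  obtain ⟨A, hA, hlim⟩ := exists_seq p F (AlgebraicClosure F)
  have hp : 0 < p := (Fact.out : p.Prime).pos
  have hp' : (0 : ℝ) < (p : ℝ) := by exact_mod_cast hp
  refine ⟨fun n => ((p : ℝ) + 1) * val p F (A n), ?_, ?_, ?_⟩
  · intro m n hmn
    have := hA hmn
    simp only at this ⊢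
    gcongr
  · have := hlim.const_mul ((p : ℝ) + 1)
    rwa [kap_eq] at this
  · intro n
    have hint : IsIntegral F (A n) := Algebra.IsIntegral.isIntegral (A n)
    have hfd : FiniteDimensional F (IntermediateField.adjoin F {A n}) :=
      IntermediateField.adjoin.finiteDimensional hint
    have hchar : CharP (IntermediateField.adjoin F {A n}) p :=
      charP_of_injective_algebraMap (algebraMap F _).injective p
    obtain ⟨k, rfl⟩ := Nat.exists_eq_add_of_le hd
    obtain ⟨S, _, _, M, h⟩ := good_iter (K := IntermediateField.adjoin F {A n}) (p := p)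
      (IntermediateField.AdjoinSimple.gen F (A n)) k
    let _ : Algebra F S := Algebra.compHom S (algebraMap F (IntermediateField.adjoin F {A n}))
    have htower : IsScalarTower F (IntermediateField.adjoin F {A n}) S :=
      IsScalarTower.of_algebraMap_eq fun _ => rfl
    have hft := h.ft
    have hmax := h.max
    refine ⟨S, inferInstance, inferInstance, M, hmax, ?_, ?_, h.not_regular, ?_, ?_⟩
    · exact Algebra.FiniteType.trans (S := IntermediateField.adjoin F {A n}) inferInstance
        inferInstance
    · exact_mod_cast h.dim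
    · intro e
      rw [h.length e]
      exact ENat.natCast_ne_top _
    · have h1 := tendsto_lamS (p := p) (IntermediateField.AdjoinSimple.gen F (A n))
      refine h1.congr fun e => ?_
      rw [h.length e, ENat.toNat_natCast]
      have hq : (0 : ℝ) < (p : ℝ) ^ e := pow_pos hp' _
      push_cast
      rw [pow_add ((p : ℝ) ^ e) 2 k]
      field_simp

end Pool.Agent.Y241.HK
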