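import Pool.Agent.Y241.HK.Len

set_option autoImplicit false

/-!
# Hilbert–Kunz multiplicities: the Frobenius inequality
-/

namespace Pool.Agent.Y241.HK

open MvPolynomial Module

variable {K : Type*} [Field K]

theorem pow_mem_sup {p : ℕ} [Fact p.Prime] [CharP K p] {q : ℕ} {g w : P2 K}
    (h : w ∈ JJ K q ⊔ Ideal.span {g}) : w ^ p ∈ JJ K (p * q) ⊔ Ideal.span {g ^ p} := by
  obtain ⟨j, hj, w, hw, rfl⟩ := Submodule.mem_sup.1 h
  obtain ⟨v, rfl⟩ := Ideal.mem_span_singleton'.1 hw
  rw [add_pow_char, mul_pow]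
  exact Submodule.add_mem_sup (pow_mem_JJ hj)
    (Ideal.mul_mem_left _ _ (Ideal.mem_span_singleton_self _))

theorem Lq_frob {p : ℕ} [Fact p.Prime] [CharP K p] (q : ℕ) (g : P2 K) :
    Lq (p * q) (g ^ p) ≤ p ^ 2 * Lq q g := by
  have hp : 0 < p := (Fact.out : p.Prime).pos
  set b := finBasis K (P2 K ⧸ (JJ K q ⊔ Ideal.span {g})) with hb
  choose β hβ using fun i => Ideal.Quotient.mk_surjective (b i)
  set I := JJ K (p * q) ⊔ Ideal.span {g ^ p} with hI
  let ι := Fin p × Fin p × Fin (finrank K (P2 K ⧸ (JJ K q ⊔ Ideal.span {g})))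
  let β' : ι → P2 K ⧸ I := fun j => Ideal.Quotient.mk I (X 0 ^ (j.1 : ℕ) * X 1 ^ (j.2.1 : ℕ) *
    β j.2.2 ^ p)
  have hspan : Submodule.span K (Set.range β') = ⊤ := by
    rw [eq_top_iff]
    rintro u -
    obtain ⟨u, rfl⟩ := Ideal.Quotient.mk_surjective u
    induction u using MvPolynomial.induction_on' with
    | add p q hp hq => rw [map_add]; exact add_mem hp hq
    | monomial m k =>
      rw [← ex_eta m, monomial_ex]
      set a := m 0
      set c := m 1
      -- the monomial with exponents divided by `p`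
      obtain ⟨t, ht⟩ : ∃ t : Fin (finrank K (P2 K ⧸ (JJ K q ⊔ Ideal.span {g}))) → K,
          (X 0 ^ (a / p) * X 1 ^ (c / p) - ∑ i, C (t i) * β i : P2 K) ∈
            JJ K q ⊔ Ideal.span {g} := by
        refine ⟨fun i => b.repr (Ideal.Quotient.mk _ (X 0 ^ (a / p) * X 1 ^ (c / p))) i, ?_⟩
        rw [← Ideal.Quotient.mk_eq_mk_iff_sub_mem, map_sum]
        conv_lhs => rw [← b.sum_repr (Ideal.Quotient.mk _ (X 0 ^ (a / p) * X 1 ^ (c / p)))]
        refine Finset.sum_congr rfl fun i _ => ?_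
        rw [map_mul (Ideal.Quotient.mk (JJ K q ⊔ Ideal.span {g})) (C _) (β i), hβ,
          Algebra.smul_def]
        rfl
      have h2 := pow_mem_sup (p := p) ht
      rw [sub_pow_char, sum_pow_char, mul_pow, ← pow_mul, ← pow_mul] at h2
      have h3 : C k * (X 0 ^ a * X 1 ^ c) - ∑ i, C (k * t i ^ p) * (X 0 ^ (a % p) * X 1 ^ (c % p) *
          β i ^ p) ∈ I := by
        have e1 : (X 0 ^ a : P2 K) = X 0 ^ (a % p) * X 0 ^ (a / p * p) := by
          rw [← pow_add, mul_comm (a / p) p, Nat.mod_add_div]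
        have e2 : (X 1 ^ c : P2 K) = X 1 ^ (c % p) * X 1 ^ (c / p * p) := by
          rw [← pow_add, mul_comm (c / p) p, Nat.mod_add_div]
        have e3 : C k * (X 0 ^ a * X 1 ^ c) - ∑ i, C (k * t i ^ p) * (X 0 ^ (a % p) *
            X 1 ^ (c % p) * β i ^ p) = C k * (X 0 ^ (a % p) * X 1 ^ (c % p)) *
            (X 0 ^ (a / p * p) * X 1 ^ (c / p * p) - ∑ i, (C (t i) * β i) ^ p) := by
          rw [e1, e2, mul_sub, Finset.mul_sum]
          congr 1
          · ring
          · refine Finset.sum_congr rfl fun i _ => ?_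
            rw [map_mul, map_pow]
            ring
        rw [e3]
        exact Ideal.mul_mem_left _ _ h2
      rw [← Ideal.Quotient.mk_eq_mk_iff_sub_mem, map_sum] at h3
      rw [h3]
      refine Submodule.sum_mem _ fun i _ => ?_
      have h4 : Ideal.Quotient.mk I (C (k * t i ^ p) * (X 0 ^ (a % p) * X 1 ^ (c % p) *
          β i ^ p)) = (k * t i ^ p) • β' (⟨a % p, Nat.mod_lt _ hp⟩, ⟨c % p, Nat.mod_lt _ hp⟩, i)
          := by
        rw [map_mul, Algebra.smul_def]
        rfl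
      rw [h4]
      exact Submodule.smul_mem _ _ (Submodule.subset_span ⟨_, rfl⟩)
  have h5 := finrank_range_le_card (R := K) β'
  rw [Set.finrank, hspan, finrank_top] at h5
  simp only [ι, Fintype.card_prod, Fintype.card_fin] at h5
  rw [Lq, Lq, pow_two, mul_assoc]
  exact h5

end Pool.Agent.Y241.HK
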