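import Pool.Agent.Y241.HK.Phi

set_option autoImplicit false

/-!
# Hilbert–Kunz multiplicities: Frobenius powers, and adding a variable
-/

namespace Pool.Agent.Y241.HK

open Module

universe u

/-- The ideal generated by the `q`-th powers of the elements of `I`. -/
def frobPow {R : Type*} [CommRing R] (I : Ideal R) (q : ℕ) : Ideal R :=
  Ideal.span {y | ∃ x ∈ I, y = x ^ q}

theorem frobPow_eq_map {R : Type*} [CommRing R] (p : ℕ) [Fact p.Prime] [CharP R p] (I : Ideal R)
    (e : ℕ) : frobPow I (p ^ e) = I.map (iterateFrobenius R p e) := by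
  rw [frobPow, Ideal.map]
  congr 1
  ext y
  constructor
  · rintro ⟨x, hx, rfl⟩
    exact ⟨x, hx, rfl⟩
  · rintro ⟨x, hx, rfl⟩
    exact ⟨x, hx, rfl⟩

theorem frobPow_span {R : Type*} [CommRing R] (p : ℕ) [Fact p.Prime] [CharP R p] (s : Set R)
    (e : ℕ) : frobPow (Ideal.span s) (p ^ e) = Ideal.span ((fun x => x ^ p ^ e) '' s) := by
  rw [frobPow_eq_map, Ideal.map_span]
  rfl

theorem frobPow_map {R R' : Type*} [CommRing R] [CommRing R'] (p : ℕ) [Fact p.Prime] [CharP R p]
    [CharP R' p] (φ : R →+* R') (I : Ideal R) (e : ℕ) :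
    frobPow (I.map φ) (p ^ e) = (frobPow I (p ^ e)).map φ := by
  rw [frobPow_eq_map, frobPow_eq_map, Ideal.map_map, Ideal.map_map]
  congr 1
  ext x
  simp [iterateFrobenius_def]

/-- The ideal of the point over `M` in `S[X]`. -/
noncomputable def up {S : Type*} [CommRing S] (M : Ideal S) : Ideal (Polynomial S) :=
  M.comap (Polynomial.constantCoeff)

theorem mem_up {S : Type*} [CommRing S] {M : Ideal S} {g : Polynomial S} :
    g ∈ up M ↔ g.coeff 0 ∈ M := Iff.rfl

theorem up_eq {S : Type*} [CommRing S] (M : Ideal S) :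
    up M = M.map Polynomial.C ⊔ Ideal.span {Polynomial.X} := by
  apply le_antisymm
  · intro g hg
    rw [mem_up] at hg
    have h : g = Polynomial.C (g.coeff 0) + Polynomial.X * g.divX := by
      rw [add_comm, Polynomial.X_mul_divX_add]
    rw [h]
    exact Submodule.add_mem_sup (Ideal.mem_map_of_mem _ hg)
      (Ideal.mul_mem_right _ _ (Ideal.mem_span_singleton_self _))
  · rw [sup_le_iff, Ideal.map_le_iff_le_comap, Ideal.span_singleton_le_iff_mem, mem_up]
    refine ⟨fun x hx => ?_, by simp⟩
    rw [Ideal.mem_comap, mem_up]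
    simpa using hx

theorem frobPow_up {S : Type*} [CommRing S] (p : ℕ) [Fact p.Prime] [CharP S p] (M : Ideal S)
    (e : ℕ) : frobPow (up M) (p ^ e) =
      (frobPow M (p ^ e)).map Polynomial.C ⊔ Ideal.span {Polynomial.X ^ p ^ e} := by
  rw [up_eq, frobPow_eq_map, Ideal.map_sup, ← frobPow_eq_map, frobPow_map, Ideal.map_span,
    Set.image_singleton]
  rfl

theorem mem_map_C_sup {S : Type*} [CommRing S] {I : Ideal S} {q : ℕ} {g : Polynomial S} :
    g ∈ I.map Polynomial.C ⊔ Ideal.span {Polynomial.X ^ q} ↔ ∀ i < q, g.coeff i ∈ I := by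
  constructor
  · intro h i hi
    obtain ⟨a, ha, b, hb, rfl⟩ := Submodule.mem_sup.1 h
    obtain ⟨c, rfl⟩ := Ideal.mem_span_singleton.1 hb
    rw [Polynomial.coeff_add, Polynomial.coeff_X_pow_mul', if_neg (by omega), add_zero]
    exact Ideal.mem_map_C_iff.1 ha i
  · intro h
    set g1 : Polynomial S := ∑ i ∈ Finset.range q, Polynomial.C (g.coeff i) * Polynomial.X ^ i
      with hg1
    have h1 : g1 ∈ I.map Polynomial.C := by
      refine Ideal.sum_mem _ fun i hi => Ideal.mul_mem_right _ _ (Ideal.mem_map_of_mem _ ?_)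
      exact h i (Finset.mem_range.1 hi)
    have h2 : g - g1 ∈ Ideal.span {(Polynomial.X : Polynomial S) ^ q} := by
      rw [Ideal.mem_span_singleton, Polynomial.X_pow_dvd_iff]
      intro i hi
      rw [Polynomial.coeff_sub, hg1, Polynomial.finsetSum_coeff, Finset.sum_eq_single i]
      · simp
      · intro j _ hj
        rw [Polynomial.coeff_C_mul_X_pow, if_neg (Ne.symm hj)]
      · intro hh
        exact absurd (Finset.mem_range.2 hi) hh
    have h3 : g = g1 + (g - g1) := by ring
    rw [h3]
    exact Submodule.add_mem_sup h1 h2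

theorem equiv_up {K S : Type*} [Field K] [CommRing S] [Algebra K S] (I : Ideal S) (q : ℕ) :
    Nonempty ((Polynomial S ⧸ (I.map Polynomial.C ⊔ Ideal.span {Polynomial.X ^ q})) ≃ₗ[K]
      (Fin q → S ⧸ I)) := by
  let φ : Polynomial S →ₗ[K] (Fin q → S ⧸ I) :=
    LinearMap.pi fun i => (Ideal.Quotient.mkₐ K I).toLinearMap.comp
      ((Polynomial.lcoeff S (i : ℕ)).restrictScalars K)
  have hφ : ∀ g i, φ g i = Ideal.Quotient.mk I (g.coeff (i : ℕ)) := fun g i => rfl
  have hs : Function.Surjective φ := by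
    intro v
    choose w hw using fun i => Ideal.Quotient.mk_surjective (v i)
    refine ⟨∑ i : Fin q, Polynomial.C (w i) * Polynomial.X ^ (i : ℕ), ?_⟩
    funext i
    rw [hφ, Polynomial.finsetSum_coeff, Finset.sum_eq_single i]
    · simp [hw]
    · intro j _ hj
      rw [Polynomial.coeff_C_mul_X_pow, if_neg]
      intro h
      exact hj (Fin.ext h.symm)
    · intro hh
      exact absurd (Finset.mem_univ _) hh
  have hk : LinearMap.ker φ =
      (I.map Polynomial.C ⊔ Ideal.span {Polynomial.X ^ q}).restrictScalars K := by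
    ext g
    rw [LinearMap.mem_ker, Submodule.restrictScalars_mem, mem_map_C_sup]
    constructor
    · intro h i hi
      have := congrFun h ⟨i, hi⟩
      rwa [hφ, Pi.zero_apply, Ideal.Quotient.eq_zero_iff_mem] at this
    · intro h
      funext i
      rw [hφ, Pi.zero_apply, Ideal.Quotient.eq_zero_iff_mem]
      exact h i i.2
  exact ⟨((Submodule.Quotient.restrictScalarsEquiv K
    (I.map Polynomial.C ⊔ Ideal.span {Polynomial.X ^ q})).symm.trans
    (Submodule.quotEquivOfEq _ _ hk.symm)).trans (φ.quotKerEquivOfSurjective hs)⟩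

theorem finrank_up {K S : Type*} [Field K] [CommRing S] [Algebra K S] (I : Ideal S) (q : ℕ)
    [Module.Finite K (S ⧸ I)] :
    finrank K (Polynomial S ⧸ (I.map Polynomial.C ⊔ Ideal.span {Polynomial.X ^ q})) =
      q * finrank K (S ⧸ I) := by
  obtain ⟨e⟩ := equiv_up (K := K) I q
  rw [e.finrank_eq, finrank_pi_fintype]
  simp

theorem finite_up {K S : Type*} [Field K] [CommRing S] [Algebra K S] (I : Ideal S) (q : ℕ)
    [Module.Finite K (S ⧸ I)] :
    Module.Finite K (Polynomial S ⧸ (I.map Polynomial.C ⊔ Ideal.span {Polynomial.X ^ q})) := by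
  obtain ⟨e⟩ := equiv_up (K := K) I q
  exact Module.Finite.equiv e.symm

/-- The data carried by the construction. -/
structure Good (K : Type u) [Field K] (p d : ℕ) (lam : ℕ → ℕ) (S : Type u) [CommRing S]
    [Algebra K S] (M : Ideal S) : Prop where
  ft : Algebra.FiniteType K S
  max : M.IsMaximal
  res : ∀ s : S, ∃ k : K, s - algebraMap K S k ∈ M
  ht : M.height = d
  emb : d + 2 ≤ finrank K (S ⧸ M ^ 2)
  fin : ∀ e, Module.Finite K (S ⧸ frobPow M (p ^ e))
  len : ∀ e, finrank K (S ⧸ frobPow M (p ^ e)) = lam e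

theorem Good.finite_res {K : Type u} [Field K] {p d : ℕ} {lam : ℕ → ℕ} {S : Type u} [CommRing S]
    [Algebra K S] {M : Ideal S} (h : Good K p d lam S M) : finrank K (S ⧸ M) = 1 := by
  have := h.max
  have hne : (1 : S ⧸ M) ≠ 0 := one_ne_zero
  refine finrank_eq_one (1 : S ⧸ M) hne fun w => ?_
  obtain ⟨s, rfl⟩ := Ideal.Quotient.mk_surjective w
  obtain ⟨k, hk⟩ := h.res s
  refine ⟨k, ?_⟩
  rw [← Ideal.Quotient.mk_eq_mk_iff_sub_mem] at hk
  rw [hk, Algebra.smul_def, mul_one]
  rfl

theorem Good.noeth {K : Type u} [Field K] {p d : ℕ} {lam : ℕ → ℕ} {S : Type u} [CommRing S]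
    [Algebra K S] {M : Ideal S} (h : Good K p d lam S M) : IsNoetherianRing S :=
  have := h.ft
  Algebra.FiniteType.isNoetherianRing K S

/-- Adding a variable. -/
theorem Good.succ {K : Type u} [Field K] {p d : ℕ} [Fact p.Prime] [CharP K p] {lam : ℕ → ℕ}
    {S : Type u} [CommRing S] [Algebra K S] {M : Ideal S} (h : Good K p d lam S M) :
    Good K p (d + 1) (fun e => p ^ e * lam e) (Polynomial S) (up M) := by
  have hmax := h.max
  have hft := h.ft
  have hnoeth := h.noeth
  have hnt : Nontrivial S := ⟨⟨0, 1, fun h01 => hmax.ne_top (by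
    rw [Ideal.eq_top_iff_one, ← h01]; exact zero_mem _)⟩⟩
  have hchar : CharP S p := charP_of_injective_algebraMap (algebraMap K S).injective p
  have hmax' : (up M).IsMaximal :=
    Ideal.comap_isMaximal_of_surjective _ Polynomial.constantCoeff_surjective
  refine ⟨?_, hmax', ?_, ?_, ?_, ?_, ?_⟩
  · exact Algebra.FiniteType.trans (S := S) inferInstance inferInstance
  · intro g
    obtain ⟨k, hk⟩ := h.res (g.coeff 0)
    refine ⟨k, ?_⟩
    rw [mem_up, Polynomial.coeff_sub, Polynomial.algebraMap_apply, Polynomial.coeff_C_zero]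
    exact hk
  · have hover : (up M).LiesOver M := ⟨by
      ext x
      rw [Ideal.mem_comap, mem_up, Polynomial.algebraMap_apply, Algebra.algebraMap_self,
        RingHom.id_apply, Polynomial.coeff_C_zero]⟩
    rw [Polynomial.height_eq_height_add_one M (up M), h.ht]
    push_cast
    rfl
  · -- the embedding dimension
    have hf : Module.Finite K (S ⧸ M ^ 2) := Module.finite_of_finrank_pos (by
      have := h.emb; omega)
    have hf1 : Module.Finite K (S ⧸ M) := Module.finite_of_finrank_pos (by
      rw [h.finite_res]; omega)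
    let φ : Polynomial S →ₗ[K] (S ⧸ M ^ 2) × (S ⧸ M) :=
      ((Ideal.Quotient.mkₐ K (M ^ 2)).toLinearMap.comp
        ((Polynomial.lcoeff S 0).restrictScalars K)).prod
      ((Ideal.Quotient.mkₐ K M).toLinearMap.comp ((Polynomial.lcoeff S 1).restrictScalars K))
    have hφ : ∀ g, φ g = (Ideal.Quotient.mk _ (g.coeff 0), Ideal.Quotient.mk _ (g.coeff 1)) :=
      fun g => rfl
    have hs : Function.Surjective φ := by
      rintro ⟨a, b⟩
      obtain ⟨a, rfl⟩ := Ideal.Quotient.mk_surjective a
      obtain ⟨b, rfl⟩ := Ideal.Quotient.mk_surjective b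
      refine ⟨Polynomial.C a + Polynomial.C b * Polynomial.X, ?_⟩
      rw [hφ]
      simp
    have hk : ((up M) ^ 2).restrictScalars K ≤ LinearMap.ker φ := by
      intro g hg
      rw [Submodule.restrictScalars_mem, pow_two] at hg
      refine Submodule.mul_induction_on hg ?_ ?_
      · intro a ha b hb
        rw [mem_up] at ha hb
        rw [LinearMap.mem_ker, hφ, Polynomial.mul_coeff_zero, Polynomial.mul_coeff_one]
        refine Prod.ext ?_ ?_
        · rw [Prod.fst_zero, Ideal.Quotient.eq_zero_iff_mem, pow_two]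
          exact Ideal.mul_mem_mul ha hb
        · rw [Prod.snd_zero, Ideal.Quotient.eq_zero_iff_mem]
          exact add_mem (Ideal.mul_mem_right _ _ ha) (Ideal.mul_mem_left _ _ hb)
      · intro a b ha hb
        exact add_mem ha hb
    -- the quotient is finite dimensional
    have hfin : Module.Finite K (Polynomial S ⧸ (up M) ^ 2) := by
      have hle : (M ^ 2).map Polynomial.C ⊔ Ideal.span {Polynomial.X ^ 2} ≤ (up M) ^ 2 := by
        rw [sup_le_iff, Ideal.span_singleton_le_iff_mem, Ideal.map_pow]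
        refine ⟨Ideal.pow_right_mono ?_ 2, Ideal.pow_mem_pow ?_ 2⟩
        · rw [up_eq]; exact le_sup_left
        · rw [mem_up]; simp
      have := finite_up (K := K) (M ^ 2) 2
      exact Module.Finite.of_surjective (Ideal.Quotient.factorₐ K hle).toLinearMap
        (Ideal.Quotient.factor_surjective hle)
    let ψ : (Polynomial S ⧸ (up M) ^ 2) →ₗ[K] (S ⧸ M ^ 2) × (S ⧸ M) :=
      (Submodule.liftQ _ φ hk).comp
        (Submodule.Quotient.restrictScalarsEquiv K ((up M) ^ 2)).symm.toLinearMap
    have hψ : Function.Surjective ψ := by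
      intro v
      obtain ⟨g, hg⟩ := hs v
      exact ⟨Ideal.Quotient.mk _ g, hg⟩
    have h1 := LinearMap.finrank_le_finrank_of_surjective hψ
    rw [Module.finrank_prod, h.finite_res] at h1
    have := h.emb
    omega
  · intro e
    have := h.fin e
    rw [frobPow_up]
    exact finite_up _ _
  · intro e
    have := h.fin e
    rw [frobPow_up, finrank_up, h.len]

end Pool.Agent.Y241.HK
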