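import Mathlib

set_option autoImplicit false

/-!
# Hilbert–Kunz multiplicities: the kernel elements

`P = K[x, y]` in characteristic `p`, `f = x y (x - y) (x - A y)`. If `A` has even degree `m` over
the prime field, then there is a polynomial `c` of degree at most `q - 1 - 2 s`, `q = p ^ m`,
`s = (q - 1) / (p + 1)`, not zero, with `c f ^ s ∈ (x ^ q, y ^ q)`.
-/

namespace Pool.Agent.Y241.HK

open MvPolynomial

variable {K : Type*} [Field K]

/-- The polynomial ring in two variables. -/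
abbrev P2 (K : Type*) [Field K] := MvPolynomial (Fin 2) K

/-- The four linear forms. -/
noncomputable def ff (A : K) : P2 K :=
  X 0 * (X 1 * ((X 0 - X 1) * (X 0 - C A * X 1)))

/-- The restriction to the line `x = c y`. -/
noncomputable def ev (c : K) : P2 K →ₐ[K] Polynomial K :=
  aeval ![Polynomial.C c * Polynomial.X, Polynomial.X]

/-- The restriction to the line `y = 0`. -/
noncomputable def evi : P2 K →ₐ[K] Polynomial K := aeval ![Polynomial.X, 0]

@[simp] theorem ev_X0 (c : K) : ev c (X 0) = Polynomial.C c * Polynomial.X := by simp [ev]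
@[simp] theorem ev_X1 (c : K) : ev c (X 1) = Polynomial.X := by simp [ev]
@[simp] theorem ev_C (c a : K) : ev c (C a) = Polynomial.C a := by
  simp [ev]
@[simp] theorem evi_X0 : evi (X 0 : P2 K) = Polynomial.X := by simp [evi]
@[simp] theorem evi_X1 : evi (X 1 : P2 K) = 0 := by simp [evi]
@[simp] theorem evi_C (a : K) : evi (C a : P2 K) = Polynomial.C a := by
  simp [evi]

theorem dvd_of_ev {c : K} {g : P2 K} (h : ev c g = 0) : (X 0 - C c * X 1) ∣ g := by
  rw [← Ideal.mem_span_singleton, ← Ideal.Quotient.eq_zero_iff_mem]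
  have key : ((Ideal.Quotient.mkₐ K (Ideal.span {X 0 - C c * X 1})).comp
      (Polynomial.aeval (X 1 : P2 K))).comp (ev c) =
      Ideal.Quotient.mkₐ K (Ideal.span {X 0 - C c * X 1}) := by
    refine algHom_ext fun i => ?_
    fin_cases i
    · simp only [Fin.zero_eta, AlgHom.comp_apply, ev_X0, map_mul, Polynomial.aeval_X,
        Polynomial.aeval_C, algebraMap_eq]
      rw [← map_mul]
      symm
      simp only [Ideal.Quotient.mkₐ_eq_mk]
      rw [Ideal.Quotient.mk_eq_mk_iff_sub_mem]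
      exact Ideal.mem_span_singleton_self _
    · simp
  have := congrArg (fun φ => φ g) key
  simp only [AlgHom.comp_apply, h, map_zero] at this
  exact this.symm

theorem dvd_of_evi {g : P2 K} (h : evi g = 0) : X 1 ∣ g := by
  rw [← Ideal.mem_span_singleton, ← Ideal.Quotient.eq_zero_iff_mem]
  have key : ((Ideal.Quotient.mkₐ K (Ideal.span {(X 1 : P2 K)})).comp
      (Polynomial.aeval (X 0 : P2 K))).comp evi =
      Ideal.Quotient.mkₐ K (Ideal.span {X 1}) := by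
    refine algHom_ext fun i => ?_
    fin_cases i
    · simp
    · simp only [Fin.mk_one, AlgHom.comp_apply, evi_X1, map_zero]
      symm
      simp only [Ideal.Quotient.mkₐ_eq_mk]
      rw [Ideal.Quotient.eq_zero_iff_mem]
      exact Ideal.mem_span_singleton_self _
  have := congrArg (fun φ => φ g) key
  simp only [AlgHom.comp_apply, h, map_zero] at this
  exact this.symm

theorem ff_dvd {A : K} (h0 : A ≠ 0) (h1 : A ≠ 1) {g : P2 K} (g0 : ev 0 g = 0) (gi : evi g = 0)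
    (g1 : ev 1 g = 0) (gA : ev A g = 0) : ff A ∣ g := by
  obtain ⟨a, rfl⟩ : (X 0 : P2 K) ∣ g := by simpa using dvd_of_ev g0
  rw [map_mul, evi_X0] at gi
  obtain ⟨b, rfl⟩ := dvd_of_evi ((mul_eq_zero.1 gi).resolve_left Polynomial.X_ne_zero)
  rw [map_mul, map_mul, ev_X0, ev_X1] at g1 gA
  have g1' : ev 1 b = 0 := by
    rcases mul_eq_zero.1 g1 with h | h
    · simp at h
    · exact (mul_eq_zero.1 h).resolve_left Polynomial.X_ne_zero
  have gA' : ev A b = 0 := by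
    rcases mul_eq_zero.1 gA with h | h
    · simp [h0] at h
    · exact (mul_eq_zero.1 h).resolve_left Polynomial.X_ne_zero
  obtain ⟨c, rfl⟩ := dvd_of_ev g1'
  rw [map_mul] at gA'
  have gA'' : ev A c = 0 := by
    refine (mul_eq_zero.1 gA').resolve_left ?_
    have : ev A (X 0 - C 1 * X 1) = Polynomial.C (A - 1) * Polynomial.X := by
      simp only [map_sub, map_mul, ev_X0, ev_X1, map_one]
      ring
    rw [this]
    exact mul_ne_zero (Polynomial.C_ne_zero.2 (sub_ne_zero.2 h1)) Polynomial.X_ne_zero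
  obtain ⟨d, rfl⟩ := dvd_of_ev gA''
  refine ⟨d, ?_⟩
  unfold ff
  simp only [map_one, one_mul]
  ring

theorem ff_ne_zero (A : K) : ff A ≠ 0 := by
  intro h
  have h0 : ∀ c : K, (X 0 - C c * X 1 : P2 K) ≠ 0 := fun c hc => by
    have := congrArg evi hc
    simp at this
  have h1 := h0 1
  simp only [map_one, one_mul] at h1
  rcases mul_eq_zero.1 h with h | h
  · exact X_ne_zero 0 h
  rcases mul_eq_zero.1 h with h | h
  · exact X_ne_zero 1 h
  rcases mul_eq_zero.1 h with h | h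
  · exact h1 h
  · exact h0 A h

/-! ### The quadratic forms -/

/-- `S₁₁`. -/
noncomputable def s11 (A B : K) : P2 K :=
  X 0 * (C (B * (A - B)) * X 1 + C (B * (B - 1)) * X 0)

/-- `S₁₂`. -/
noncomputable def s12 (A B : K) : P2 K := X 0 * (C (B * (A - 1)) * X 1)

/-- `S₂₂`. -/
noncomputable def s22 (A B : K) : P2 K :=
  X 1 * (C (A * (B - 1)) * X 1 + C (A - B) * X 0)

theorem ev0_s (A B : K) : ev 0 (s11 A B) = 0 ∧ ev 0 (s12 A B) = 0 ∧
    ev 0 (s22 A B) = Polynomial.C (A * (B - 1)) * Polynomial.X ^ 2 := by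
  refine ⟨by simp [s11], by simp [s12], ?_⟩
  simp only [s22, map_mul, map_add, ev_X1, ev_X0, ev_C, map_zero, zero_mul, mul_zero, add_zero]
  ring

theorem evi_s (A B : K) : evi (s12 A B) = 0 ∧ evi (s22 A B) = 0 := by
  refine ⟨by simp [s12], by simp [s22]⟩

theorem ev1_s (A B : K) : ev 1 (s11 A B) = ev 1 (s12 A B) ∧ ev 1 (s22 A B) = ev 1 (s12 A B) := by
  constructor
  · simp only [s11, s12, map_mul, map_add, ev_X1, ev_X0, ev_C, map_one, one_mul, map_sub]
    ring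
  · simp only [s22, s12, map_mul, map_add, ev_X1, ev_X0, ev_C, map_one, one_mul, map_sub]
    ring

theorem evA_s (A B : K) : ev A (s11 A B) = Polynomial.C B * ev A (s12 A B) ∧
    ev A (s12 A B) = Polynomial.C B * ev A (s22 A B) := by
  constructor
  · simp only [s11, s12, map_mul, map_add, ev_X1, ev_X0, ev_C, map_one, map_sub]
    ring
  · simp only [s22, s12, map_mul, map_add, ev_X1, ev_X0, ev_C, map_one, map_sub]
    ring

/-! ### Degrees -/

theorem hom_ff (A : K) : (ff A).IsHomogeneous 4 := by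
  have h0 : (X 0 : P2 K).IsHomogeneous 1 := isHomogeneous_X _ _
  have h1 : (X 1 : P2 K).IsHomogeneous 1 := isHomogeneous_X _ _
  have h2 : (C A * X 1 : P2 K).IsHomogeneous 1 := by
    simpa using (isHomogeneous_C (Fin 2) A).mul h1
  unfold ff
  simpa using h0.mul (h1.mul ((h0.sub h1).mul (h0.sub h2)))

theorem deg_ff (A : K) : (ff A).totalDegree = 4 := (hom_ff A).totalDegree (ff_ne_zero A)

theorem hom_lin (a b : K) : (C a * X 1 + C b * X 0 : P2 K).IsHomogeneous 1 := by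
  have h0 : (C b * X 0 : P2 K).IsHomogeneous 1 := by
    simpa using (isHomogeneous_C (Fin 2) b).mul (isHomogeneous_X K 0)
  have h1 : (C a * X 1 : P2 K).IsHomogeneous 1 := by
    simpa using (isHomogeneous_C (Fin 2) a).mul (isHomogeneous_X K 1)
  exact h1.add h0

theorem deg_s (A B : K) : (s11 A B).totalDegree ≤ 2 ∧ (s12 A B).totalDegree ≤ 2 ∧
    (s22 A B).totalDegree ≤ 2 := by
  refine ⟨?_, ?_, ?_⟩
  · exact ((isHomogeneous_X K 0).mul (hom_lin _ _)).totalDegree_le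
  · have h1 : (C (B * (A - 1)) * X 1 : P2 K).IsHomogeneous 1 := by
      simpa using (isHomogeneous_C (Fin 2) (B * (A - 1))).mul (isHomogeneous_X K 1)
    exact ((isHomogeneous_X K 0).mul h1).totalDegree_le
  · exact ((isHomogeneous_X K 1).mul (hom_lin _ _)).totalDegree_le

theorem deg_comb {a b s t : P2 K} {p D : ℕ} (ha : a.totalDegree ≤ D) (hb : b.totalDegree ≤ D)
    (hs : s.totalDegree ≤ 2) (ht : t.totalDegree ≤ 2) :
    (-(a ^ p * s) + b ^ p * t).totalDegree ≤ p * D + 2 := by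
  refine (totalDegree_add _ _).trans (max_le ?_ ?_)
  · rw [totalDegree_neg]
    refine (totalDegree_mul _ _).trans (add_le_add ((totalDegree_pow _ _).trans ?_) hs)
    exact Nat.mul_le_mul_left _ ha
  · refine (totalDegree_mul _ _).trans (add_le_add ((totalDegree_pow _ _).trans ?_) ht)
    exact Nat.mul_le_mul_left _ hb

theorem deg_of_ff_mul {A : K} {σ g : P2 K} {E : ℕ} (h : ff A * σ = g)
    (hg : g.totalDegree ≤ E + 2) (hE : 2 ≤ E) : σ.totalDegree + 2 ≤ E := by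
  by_cases hσ : σ = 0
  · rw [hσ]
    simpa using hE
  · have := totalDegree_mul_of_isDomain (ff_ne_zero A) hσ
    rw [h, deg_ff] at this
    omega

/-! ### One step -/

/-- The ideal `(x ^ Q, y ^ Q)`. -/
noncomputable def JJ (K : Type*) [Field K] (Q : ℕ) : Ideal (P2 K) :=
  Ideal.span {X 0 ^ Q, X 1 ^ Q}

theorem pow_mem_JJ {p : ℕ} [Fact p.Prime] [CharP K p] {Q : ℕ} {g : P2 K} (h : g ∈ JJ K Q) :
    g ^ p ∈ JJ K (p * Q) := by
  obtain ⟨a, b, rfl⟩ := Ideal.mem_span_pair.1 h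
  rw [add_pow_char, mul_pow, mul_pow, ← pow_mul, ← pow_mul, mul_comm Q p]
  exact Ideal.mem_span_pair.2 ⟨a ^ p, b ^ p, rfl⟩

theorem step1 {p : ℕ} [Fact p.Prime] [CharP K p] {A b : K} (h0 : A ≠ 0) (h1 : A ≠ 1)
    (hbA : b ^ p ≠ A) (hb0 : b ≠ 0) {r1 r2 : P2 K} {D : ℕ} (hD : 1 ≤ D)
    (d1 : r1.totalDegree ≤ D) (d2 : r2.totalDegree ≤ D) (e0 : ev 0 r1 = 0) (ei : evi r2 = 0)
    (e1 : ev 1 r1 = ev 1 r2) (eA : ev A r1 = Polynomial.C b * ev A r2) (en : ev 0 r2 ≠ 0) :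
    ∃ σ1 σ2 : P2 K, ff A * σ1 = -(r1 ^ p * s12 A (b ^ p)) + r2 ^ p * s11 A (b ^ p) ∧
      ff A * σ2 = -(r1 ^ p * s22 A (b ^ p)) + r2 ^ p * s12 A (b ^ p) ∧
      σ1.totalDegree + 2 ≤ p * D ∧ σ2.totalDegree + 2 ≤ p * D ∧ ev 0 σ1 ≠ 0 := by
  have hp : p ≠ 0 := (Fact.out : p.Prime).ne_zero
  have hp2 : 2 ≤ p := (Fact.out : p.Prime).two_le
  obtain ⟨a1, a2, a3⟩ := ev0_s A (b ^ p)
  obtain ⟨b1, b2⟩ := evi_s A (b ^ p)
  obtain ⟨c1, c2⟩ := ev1_s A (b ^ p)
  obtain ⟨f1, f2⟩ := evA_s A (b ^ p)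
  obtain ⟨t1, t2, t3⟩ := deg_s A (b ^ p)
  have hE : 2 ≤ p * D := le_trans (by omega) (Nat.mul_le_mul hp2 hD)
  obtain ⟨σ1, hσ1⟩ : ff A ∣ -(r1 ^ p * s12 A (b ^ p)) + r2 ^ p * s11 A (b ^ p) := by
    refine ff_dvd h0 h1 ?_ ?_ ?_ ?_
    · simp only [map_add, map_neg, map_mul, map_pow, a1, a2, mul_zero, neg_zero, add_zero]
    · simp only [map_add, map_neg, map_mul, map_pow, b1, ei, mul_zero, neg_zero, zero_add,
        zero_pow hp, zero_mul]
    · rw [map_add, map_neg, map_mul, map_mul, map_pow, map_pow, c1, e1]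
      exact neg_add_cancel _
    · simp only [map_add, map_neg, map_mul, map_pow, f1, eA, mul_pow]
      ring
  obtain ⟨σ2, hσ2⟩ : ff A ∣ -(r1 ^ p * s22 A (b ^ p)) + r2 ^ p * s12 A (b ^ p) := by
    refine ff_dvd h0 h1 ?_ ?_ ?_ ?_
    · simp only [map_add, map_neg, map_mul, map_pow, a2, e0, mul_zero, neg_zero, add_zero,
        zero_pow hp, zero_mul]
    · simp only [map_add, map_neg, map_mul, map_pow, b1, b2, mul_zero, neg_zero, zero_add]
    · rw [map_add, map_neg, map_mul, map_mul, map_pow, map_pow, c2, e1]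
      exact neg_add_cancel _
    · simp only [map_add, map_neg, map_mul, map_pow, f2, eA, mul_pow]
      ring
  refine ⟨σ1, σ2, hσ1.symm, hσ2.symm, deg_of_ff_mul hσ1.symm (deg_comb d1 d2 t2 t1) hE,
    deg_of_ff_mul hσ2.symm (deg_comb d1 d2 t3 t2) hE, ?_⟩
  -- cancel `x`
  have hx : (X 0 : P2 K) * ((X 1 * ((X 0 - X 1) * (X 0 - C A * X 1))) * σ1) =
      X 0 * (-(r1 ^ p * (C (b ^ p * (A - 1)) * X 1)) + r2 ^ p *
        (C (b ^ p * (A - b ^ p)) * X 1 + C (b ^ p * (b ^ p - 1)) * X 0)) := by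
    have := hσ1.symm
    unfold ff s11 s12 at this
    linear_combination this
  have hx' := congrArg (ev 0) (mul_left_cancel₀ (X_ne_zero 0) hx)
  intro hz
  simp only [map_add, map_neg, map_mul, map_pow, map_sub, ev_X0, ev_X1, ev_C, hz, e0,
    map_zero, zero_mul, mul_zero, zero_pow hp, neg_zero, zero_add, add_zero] at hx'
  have h2 : (ev 0 r2) ^ p * (Polynomial.C (b ^ p * (A - b ^ p)) * Polynomial.X) ≠ 0 := by
    refine mul_ne_zero (pow_ne_zero _ en) (mul_ne_zero ?_ Polynomial.X_ne_zero)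
    exact Polynomial.C_ne_zero.2 (mul_ne_zero (pow_ne_zero _ hb0) (sub_ne_zero.2 (Ne.symm hbA)))
  apply h2
  rw [hx']
  simp only [map_mul, map_sub, map_pow]

/-- The products which are divisible by `f`. -/
theorem dvd_U {p : ℕ} [Fact p.Prime] {A B : K} (h0 : A ≠ 0) (h1 : A ≠ 1) :
    ff A ∣ s12 A B ^ p * s12 A (B ^ p) - s22 A B ^ p * s11 A (B ^ p) ∧
    ff A ∣ s12 A B ^ p * s11 A (B ^ p) - s11 A B ^ p * s12 A (B ^ p) ∧
    ff A ∣ s12 A B ^ p * s22 A (B ^ p) - s22 A B ^ p * s12 A (B ^ p) ∧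
    ff A ∣ s12 A B ^ p * s12 A (B ^ p) - s11 A B ^ p * s22 A (B ^ p) := by
  have hp : p ≠ 0 := (Fact.out : p.Prime).ne_zero
  obtain ⟨a1, a2, a3⟩ := ev0_s A B
  obtain ⟨b1, b2⟩ := evi_s A B
  obtain ⟨c1, c2⟩ := ev1_s A B
  obtain ⟨f1, f2⟩ := evA_s A B
  obtain ⟨a1', a2', a3'⟩ := ev0_s A (B ^ p)
  obtain ⟨b1', b2'⟩ := evi_s A (B ^ p)
  obtain ⟨c1', c2'⟩ := ev1_s A (B ^ p)
  obtain ⟨f1', f2'⟩ := evA_s A (B ^ p)
  refine ⟨?_, ?_, ?_, ?_⟩
  · refine ff_dvd h0 h1 ?_ ?_ ?_ ?_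
    · rw [map_sub, map_mul, map_mul, a1', a2', mul_zero, mul_zero, sub_zero]
    · rw [map_sub, map_mul, map_mul, map_pow, map_pow, b1, b2, zero_pow hp, zero_mul, zero_mul,
        sub_zero]
    · rw [map_sub, map_mul, map_mul, map_pow, map_pow, c2, c1', sub_self]
    · rw [map_sub, map_mul, map_mul, map_pow, map_pow, f1', f2, mul_pow, ← Polynomial.C_pow]
      ring
  · refine ff_dvd h0 h1 ?_ ?_ ?_ ?_
    · rw [map_sub, map_mul, map_mul, a1', a2', mul_zero, mul_zero, sub_zero]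
    · rw [map_sub, map_mul, map_mul, map_pow, map_pow, b1, b1', zero_pow hp, zero_mul, mul_zero,
        sub_zero]
    · rw [map_sub, map_mul, map_mul, map_pow, map_pow, c1, c1', sub_self]
    · rw [map_sub, map_mul, map_mul, map_pow, map_pow, f1', f1, mul_pow, ← Polynomial.C_pow]
      ring
  · refine ff_dvd h0 h1 ?_ ?_ ?_ ?_
    · rw [map_sub, map_mul, map_mul, map_pow, map_pow, a2, a2', zero_pow hp, zero_mul, mul_zero,
        sub_zero]
    · rw [map_sub, map_mul, map_mul, map_pow, map_pow, b1, b2, zero_pow hp, zero_mul, zero_mul,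
        sub_zero]
    · rw [map_sub, map_mul, map_mul, map_pow, map_pow, c2, c2', sub_self]
    · rw [map_sub, map_mul, map_mul, map_pow, map_pow, f2', f2, mul_pow, ← Polynomial.C_pow]
      ring
  · refine ff_dvd h0 h1 ?_ ?_ ?_ ?_
    · rw [map_sub, map_mul, map_mul, map_pow, map_pow, a2, a1, zero_pow hp, zero_mul, zero_mul,
        sub_zero]
    · rw [map_sub, map_mul, map_mul, map_pow, map_pow, b1', b2', mul_zero, mul_zero, sub_zero]
    · rw [map_sub, map_mul, map_mul, map_pow, map_pow, c1, c2', sub_self]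
    · rw [map_sub, map_mul, map_mul, map_pow, map_pow, f2', f1, mul_pow, ← Polynomial.C_pow]
      ring

/-- The products which are divisible by `f`, last step. -/
theorem dvd_V {p : ℕ} [Fact p.Prime] {A B : K} (h0 : A ≠ 0) (h1 : A ≠ 1) (hB : B ^ p = A) :
    ff A ∣ s22 A B ^ p * X 0 - s12 A B ^ p * X 1 ∧
    ff A ∣ s11 A B ^ p * X 1 - s12 A B ^ p * X 0 := by
  have hp : p ≠ 0 := (Fact.out : p.Prime).ne_zero
  obtain ⟨a1, a2, a3⟩ := ev0_s A B
  obtain ⟨b1, b2⟩ := evi_s A B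
  obtain ⟨c1, c2⟩ := ev1_s A B
  obtain ⟨f1, f2⟩ := evA_s A B
  refine ⟨?_, ?_⟩
  · refine ff_dvd h0 h1 ?_ ?_ ?_ ?_
    · rw [map_sub, map_mul, map_mul, map_pow, map_pow, a2, ev_X0, map_zero, zero_pow hp,
        zero_mul, zero_mul, mul_zero, sub_zero]
    · rw [map_sub, map_mul, map_mul, map_pow, map_pow, b1, b2, zero_pow hp, zero_mul, zero_mul,
        sub_zero]
    · rw [map_sub, map_mul, map_mul, map_pow, map_pow, c2, ev_X0, ev_X1, map_one, one_mul,
        sub_self]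
    · rw [map_sub, map_mul, map_mul, map_pow, map_pow, f2, mul_pow, ← Polynomial.C_pow, hB,
        ev_X0, ev_X1]
      ring
  · refine ff_dvd h0 h1 ?_ ?_ ?_ ?_
    · rw [map_sub, map_mul, map_mul, map_pow, map_pow, a1, a2, zero_pow hp,
        zero_mul, zero_mul, sub_zero]
    · rw [map_sub, map_mul, map_mul, map_pow, map_pow, b1, evi_X1, zero_pow hp, zero_mul,
        mul_zero, sub_zero]
    · rw [map_sub, map_mul, map_mul, map_pow, map_pow, c1, ev_X0, ev_X1, map_one, one_mul,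
        sub_self]
    · rw [map_sub, map_mul, map_mul, map_pow, map_pow, f1, mul_pow, ← Polynomial.C_pow, hB,
        ev_X0, ev_X1]
      ring

/-- The exponents: `(p + 1) * sE p i + 1 = p ^ (2 * i)`. -/
def sE (p : ℕ) : ℕ → ℕ
  | 0 => 0
  | i + 1 => p ^ 2 * sE p i + (p - 1)

theorem sE_spec {p : ℕ} (hp : 1 ≤ p) (i : ℕ) : (p + 1) * sE p i + 1 = p ^ (2 * i) := by
  induction i with
  | zero => simp [sE]
  | succ i ih =>
    rw [sE, show 2 * (i + 1) = 2 * i + 2 by ring, pow_add, ← ih]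
    obtain ⟨r, rfl⟩ := Nat.exists_eq_add_of_le' hp
    simp only [Nat.add_sub_cancel]
    ring

/-- The invariant of the recursion. -/
structure Inv (p : ℕ) (A : K) (i : ℕ) (r1 r2 : P2 K) : Prop where
  m1 : r1 * ff A ^ sE p i ∈ JJ K (p ^ (2 * i))
  m2 : r2 * ff A ^ sE p i ∈ JJ K (p ^ (2 * i))
  d1 : r1.totalDegree + 2 * sE p i ≤ p ^ (2 * i)
  d2 : r2.totalDegree + 2 * sE p i ≤ p ^ (2 * i)
  e0 : ev 0 r1 = 0
  ei : evi r2 = 0
  e1 : ev 1 r1 = ev 1 r2
  eA : ev A r1 = Polynomial.C (A ^ p ^ (2 * i)) * ev A r2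
  en : ev 0 r2 ≠ 0

theorem inv_zero {p : ℕ} (A : K) : Inv p A 0 (X 0) (X 1) where
  m1 := by
    simp only [sE, pow_zero, mul_one, JJ, mul_zero, pow_one]
    exact Ideal.subset_span (by simp)
  m2 := by
    simp only [sE, pow_zero, mul_one, JJ, mul_zero, pow_one]
    exact Ideal.subset_span (by simp)
  d1 := by simp [sE]
  d2 := by simp [sE]
  e0 := by simp
  ei := by simp
  e1 := by simp
  eA := by simp
  en := by simp

theorem step2 {p : ℕ} [Fact p.Prime] [CharP K p] {A : K} (h0 : A ≠ 0) (h1 : A ≠ 1) {i : ℕ}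
    (hA : A ^ p ^ (2 * i + 1) ≠ A) {r1 r2 : P2 K} (h : Inv p A i r1 r2) :
    ∃ (σ1 σ2 : P2 K), 
      ff A * σ1 = -(r1 ^ p * s12 A (A ^ p ^ (2 * i + 1))) +
        r2 ^ p * s11 A (A ^ p ^ (2 * i + 1)) ∧
      ff A * σ2 = -(r1 ^ p * s22 A (A ^ p ^ (2 * i + 1))) +
        r2 ^ p * s12 A (A ^ p ^ (2 * i + 1)) ∧
      σ1.totalDegree + 2 ≤ p * (p ^ (2 * i) - 2 * sE p i) ∧
      σ2.totalDegree + 2 ≤ p * (p ^ (2 * i) - 2 * sE p i) ∧ ev 0 σ1 ≠ 0 := by
  have hp2 : 2 ≤ p := (Fact.out : p.Prime).two_le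
  have hs := sE_spec (p := p) (by omega) i
  have hb : (A ^ p ^ (2 * i)) ^ p = A ^ p ^ (2 * i + 1) := by
    rw [← pow_mul, pow_succ]
  have hle : 2 * sE p i + 1 ≤ p ^ (2 * i) := by
    rw [← hs]
    have : 2 * sE p i ≤ (p + 1) * sE p i := Nat.mul_le_mul_right _ (by omega)
    omega
  have := step1 (p := p) (b := A ^ p ^ (2 * i)) (D := p ^ (2 * i) - 2 * sE p i) h0 h1
    (by rw [hb]; exact hA) (pow_ne_zero _ h0) (by omega)
    (by have := h.d1; omega) (by have := h.d2; omega) h.e0 h.ei h.e1 h.eA h.en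
  rw [hb] at this
  exact this

end Pool.Agent.Y241.HK
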