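import Pool.Agent.Y241.HK.Ker

set_option autoImplicit false

/-!
# Hilbert–Kunz multiplicities: the recursion
-/

namespace Pool.Agent.Y241.HK

open MvPolynomial

variable {K : Type*} [Field K]

theorem pow2_mem_JJ {p : ℕ} [Fact p.Prime] [CharP K p] {Q : ℕ} {g : P2 K} (h : g ∈ JJ K Q) :
    g ^ p ^ 2 ∈ JJ K (p ^ 2 * Q) := by
  have := pow_mem_JJ (p := p) (pow_mem_JJ (p := p) h)
  rw [← pow_mul, ← pow_two, ← mul_assoc, ← pow_two] at this
  exact this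

theorem frob_comb {p : ℕ} [Fact p.Prime] [CharP K p] {f σ r1 r2 s t : P2 K}
    (h : f * σ = -(r1 ^ p * s) + r2 ^ p * t) :
    f ^ p * σ ^ p = -(r1 ^ p ^ 2 * s ^ p) + r2 ^ p ^ 2 * t ^ p := by
  rw [← mul_pow, h, neg_add_eq_sub, sub_pow_char, mul_pow, mul_pow, ← pow_mul, ← pow_mul,
    ← pow_two]
  ring

theorem cancel_ff {p : ℕ} [Fact p.Prime] {A : K} {w r1 r2 u1 u2 U1 U2 : P2 K}
    (hw : ff A ^ p * w = r1 * u1 + r2 * u2) (h1 : u1 = ff A * U1) (h2 : u2 = ff A * U2) :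
    w * ff A ^ (p - 1) = r1 * U1 + r2 * U2 := by
  have hp1 : 1 ≤ p := (Fact.out : p.Prime).one_le
  apply mul_left_cancel₀ (ff_ne_zero A)
  have : ff A ^ p = ff A * ff A ^ (p - 1) := by
    rw [← pow_succ', Nat.sub_add_cancel hp1]
  rw [this, h1, h2] at hw
  linear_combination hw

theorem mem_next {p : ℕ} [Fact p.Prime] [CharP K p] {A : K} {i : ℕ} {r1 r2 w U1 U2 : P2 K}
    (m1 : r1 * ff A ^ sE p i ∈ JJ K (p ^ (2 * i))) (m2 : r2 * ff A ^ sE p i ∈ JJ K (p ^ (2 * i)))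
    (hw : w * ff A ^ (p - 1) = r1 ^ p ^ 2 * U1 + r2 ^ p ^ 2 * U2) :
    w * ff A ^ sE p (i + 1) ∈ JJ K (p ^ (2 * (i + 1))) := by
  have e1 : p ^ (2 * (i + 1)) = p ^ 2 * p ^ (2 * i) := by ring
  have e2 : w * ff A ^ sE p (i + 1) =
      (r1 * ff A ^ sE p i) ^ p ^ 2 * U1 + (r2 * ff A ^ sE p i) ^ p ^ 2 * U2 := by
    rw [sE, pow_add, mul_comm (p ^ 2) (sE p i), pow_mul, mul_pow, mul_pow]
    linear_combination (ff A ^ sE p i) ^ p ^ 2 * hw
  rw [e1, e2]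
  exact Ideal.add_mem _ (Ideal.mul_mem_right _ _ (pow2_mem_JJ m1))
    (Ideal.mul_mem_right _ _ (pow2_mem_JJ m2))

theorem pow_ne_one {p : ℕ} [Fact p.Prime] [CharP K p] {A : K} (h1 : A ≠ 1) (j : ℕ) :
    A ^ p ^ j ≠ 1 := by
  intro h
  apply h1
  have := sub_pow_char_pow (p := p) A (1 : K) j
  rw [one_pow, h, sub_self] at this
  exact sub_eq_zero.1 (pow_eq_zero_iff (pow_ne_zero _ (Fact.out : p.Prime).ne_zero) |>.1 this)

theorem inv_succ {p : ℕ} [Fact p.Prime] [CharP K p] {A : K} (h0 : A ≠ 0) (h1 : A ≠ 1) {i : ℕ}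
    (hA : A ^ p ^ (2 * i + 1) ≠ A) {r1 r2 : P2 K} (h : Inv p A i r1 r2) :
    ∃ r1' r2' : P2 K, Inv p A (i + 1) r1' r2' := by
  have hp2 : 2 ≤ p := (Fact.out : p.Prime).two_le
  have hp0 : p ≠ 0 := (Fact.out : p.Prime).ne_zero
  obtain ⟨σ1, σ2, hσ1, hσ2, g1, g2, gn⟩ := step2 h0 h1 hA h
  have hs := sE_spec (p := p) (by omega) i
  have hs' := sE_spec (p := p) (by omega) (i + 1)
  set B := A ^ p ^ (2 * i + 1) with hB
  have hB' : B ^ p = A ^ p ^ (2 * (i + 1)) := by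
    rw [hB, ← pow_mul, ← pow_succ]
    rfl
  obtain ⟨k1, k2⟩ := ev1_s A (B ^ p)
  obtain ⟨l1, l2⟩ := evA_s A (B ^ p)
  obtain ⟨a1, a2, a3⟩ := ev0_s A (B ^ p)
  obtain ⟨b1, b2⟩ := evi_s A (B ^ p)
  obtain ⟨t1, t2, t3⟩ := deg_s A (B ^ p)
  obtain ⟨⟨U1, hU1⟩, ⟨U2, hU2⟩, ⟨U3, hU3⟩, ⟨U4, hU4⟩⟩ := dvd_U (p := p) (A := A) (B := B) h0 h1
  have F1 := frob_comb hσ1
  have F2 := frob_comb hσ2
  set D := p ^ (2 * i) - 2 * sE p i with hD
  have hle : 2 * sE p i + 1 ≤ p ^ (2 * i) := by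
    rw [← hs]
    have : 2 * sE p i ≤ (p + 1) * sE p i := Nat.mul_le_mul_right _ (by omega)
    omega
  have hDD : p * (p * D - 2) + 2 + 2 * sE p (i + 1) = p ^ (2 * (i + 1)) := by
    obtain ⟨E, hE⟩ : ∃ E, p * D = E + 2 := ⟨p * D - 2, by
      have : 2 * 1 ≤ p * D := Nat.mul_le_mul hp2 (by omega)
      omega⟩
    have h3 : p ^ (2 * i) = D + 2 * sE p i := by omega
    have h4 : p ^ (2 * (i + 1)) = p ^ 2 * p ^ (2 * i) := by ring
    have h5 : p ^ 2 * D = p * E + 2 * p := by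
      rw [pow_two, mul_assoc, hE]; ring
    rw [hE, Nat.add_sub_cancel, h4, h3, sE, mul_add (p ^ 2), h5]
    obtain ⟨r, rfl⟩ := Nat.exists_eq_add_of_le' (show 1 ≤ p by omega)
    simp only [Nat.add_sub_cancel]
    ring
  refine ⟨-(σ1 ^ p * s12 A (B ^ p)) + σ2 ^ p * s11 A (B ^ p),
    -(σ1 ^ p * s22 A (B ^ p)) + σ2 ^ p * s12 A (B ^ p), ?_, ?_, ?_, ?_, ?_, ?_, ?_, ?_, ?_⟩
  · refine mem_next h.m1 h.m2 (cancel_ff ?_ hU1 hU2)
    linear_combination (-(s12 A (B ^ p))) * F1 + s11 A (B ^ p) * F2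
  · refine mem_next h.m1 h.m2 (cancel_ff ?_ hU3 hU4)
    linear_combination (-(s22 A (B ^ p))) * F1 + s12 A (B ^ p) * F2
  · have := deg_comb (p := p) (a := σ1) (b := σ2) (D := p * D - 2) (by omega) (by omega) t2 t1
    omega
  · have := deg_comb (p := p) (a := σ1) (b := σ2) (D := p * D - 2) (by omega) (by omega) t3 t2
    omega
  · rw [map_add, map_neg, map_mul, map_mul, a1, a2, mul_zero, mul_zero, neg_zero, add_zero]
  · rw [map_add, map_neg, map_mul, map_mul, b1, b2, mul_zero, mul_zero, neg_zero, add_zero]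
  · rw [map_add, map_neg, map_mul, map_mul, map_pow, map_pow, map_add, map_neg, map_mul,
      map_mul, map_pow, map_pow, k1, k2]
  · rw [← hB', map_add, map_neg, map_mul, map_mul, map_pow, map_pow, map_add, map_neg, map_mul,
      map_mul, l1, l2, map_pow (ev A) σ1, map_pow (ev A) σ2]
    ring
  · rw [map_add, map_neg, map_mul, map_mul, map_pow, map_pow, a2, a3, mul_zero, add_zero]
    refine neg_ne_zero.2 (mul_ne_zero (pow_ne_zero _ gn) (mul_ne_zero ?_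
      (pow_ne_zero _ Polynomial.X_ne_zero)))
    refine Polynomial.C_ne_zero.2 (mul_ne_zero h0 (sub_ne_zero.2 ?_))
    rw [hB']
    exact pow_ne_one h1 _

/-- The kernel element. -/
theorem exists_c {p : ℕ} [Fact p.Prime] [CharP K p] {A : K} (h0 : A ≠ 0) (h1 : A ≠ 1) {i : ℕ}
    (hA : ∀ j ≤ i, A ^ p ^ (2 * j + 1) ≠ A) (hm : A ^ p ^ (2 * (i + 1)) = A) :
    ∃ c : P2 K, c ≠ 0 ∧ c.totalDegree + 2 * sE p (i + 1) + 1 ≤ p ^ (2 * (i + 1)) ∧
      c * ff A ^ sE p (i + 1) ∈ JJ K (p ^ (2 * (i + 1))) := by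
  have hinv : ∀ j ≤ i, ∃ r1 r2 : P2 K, Inv p A j r1 r2 := by
    intro j
    induction j with
    | zero => exact fun _ => ⟨_, _, inv_zero A⟩
    | succ j ih =>
      intro hj
      obtain ⟨r1, r2, h⟩ := ih (by omega)
      exact inv_succ h0 h1 (hA j (by omega)) h
  obtain ⟨r1, r2, h⟩ := hinv i le_rfl
  have hA := hA i le_rfl
  have hp2 : 2 ≤ p := (Fact.out : p.Prime).two_le
  have hp0 : p ≠ 0 := (Fact.out : p.Prime).ne_zero
  obtain ⟨σ1, σ2, hσ1, hσ2, g1, g2, gn⟩ := step2 h0 h1 hA h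
  have hs := sE_spec (p := p) (by omega) i
  set B := A ^ p ^ (2 * i + 1) with hB
  have hB' : B ^ p = A := by
    rw [hB, ← pow_mul, ← pow_succ]
    exact hm
  obtain ⟨⟨U1, hU1⟩, ⟨U2, hU2⟩⟩ := dvd_V (p := p) (A := A) (B := B) h0 h1 hB'
  have F1 := frob_comb hσ1
  have F2 := frob_comb hσ2
  set D := p ^ (2 * i) - 2 * sE p i with hD
  have hle : 2 * sE p i + 1 ≤ p ^ (2 * i) := by
    rw [← hs]
    have : 2 * sE p i ≤ (p + 1) * sE p i := Nat.mul_le_mul_right _ (by omega)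
    omega
  have hDD : p * (p * D - 2) + 2 + 2 * sE p (i + 1) = p ^ (2 * (i + 1)) := by
    obtain ⟨E, hE⟩ : ∃ E, p * D = E + 2 := ⟨p * D - 2, by
      have : 2 * 1 ≤ p * D := Nat.mul_le_mul hp2 (by omega)
      omega⟩
    have h3 : p ^ (2 * i) = D + 2 * sE p i := by omega
    have h4 : p ^ (2 * (i + 1)) = p ^ 2 * p ^ (2 * i) := by ring
    have h5 : p ^ 2 * D = p * E + 2 * p := by
      rw [pow_two, mul_assoc, hE]; ring
    rw [hE, Nat.add_sub_cancel, h4, h3, sE, mul_add (p ^ 2), h5]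
    obtain ⟨r, rfl⟩ := Nat.exists_eq_add_of_le' (show 1 ≤ p by omega)
    simp only [Nat.add_sub_cancel]
    ring
  refine ⟨σ1 ^ p * X 1 - σ2 ^ p * X 0, ?_, ?_, ?_⟩
  · intro hc
    have := congrArg (ev 0) hc
    rw [map_sub, map_mul, map_mul, map_pow, map_pow, ev_X0, ev_X1, map_zero, map_zero, zero_mul,
      mul_zero, sub_zero] at this
    exact mul_ne_zero (pow_ne_zero _ gn) Polynomial.X_ne_zero this
  · have : (σ1 ^ p * X 1 - σ2 ^ p * X 0 : P2 K).totalDegree ≤ p * (p * D - 2) + 1 := by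
      refine (totalDegree_sub _ _).trans (max_le ?_ ?_)
      · refine (totalDegree_mul _ _).trans (add_le_add ((totalDegree_pow _ _).trans ?_) ?_)
        · exact Nat.mul_le_mul_left _ (by omega)
        · rw [totalDegree_X]
      · refine (totalDegree_mul _ _).trans (add_le_add ((totalDegree_pow _ _).trans ?_) ?_)
        · exact Nat.mul_le_mul_left _ (by omega)
        · rw [totalDegree_X]
    omega
  · refine mem_next h.m1 h.m2 (cancel_ff ?_ hU1 hU2)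
    linear_combination (X 1) * F1 - (X 0) * F2

end Pool.Agent.Y241.HK
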