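import Pool.Agent.Y241.HK.Ker2

set_option autoImplicit false

/-!
# Hilbert–Kunz multiplicities: the lengths `L q g = dim K[x, y] / (x ^ q, y ^ q, g)`
-/

namespace Pool.Agent.Y241.HK

open MvPolynomial Module

variable {K : Type*} [Field K]

/-- The exponent `(a, b)`. -/
noncomputable def ex (a b : ℕ) : Fin 2 →₀ ℕ := Finsupp.single 0 a + Finsupp.single 1 b

@[simp] theorem ex_0 (a b : ℕ) : ex a b 0 = a := by simp [ex]
@[simp] theorem ex_1 (a b : ℕ) : ex a b 1 = b := by simp [ex]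

theorem ex_eta (m : Fin 2 →₀ ℕ) : ex (m 0) (m 1) = m := by
  ext i
  fin_cases i
  · simp
  · simp

theorem ex_inj {a b c d : ℕ} (h : ex a b = ex c d) : a = c ∧ b = d := by
  have h0 := DFunLike.congr_fun h 0
  have h1 := DFunLike.congr_fun h 1
  simp only [ex_0, ex_1] at h0 h1
  exact ⟨h0, h1⟩

theorem ex_degree (a b : ℕ) : ((ex a b).sum fun _ e => e) = a + b := by
  rw [Finsupp.sum_fintype _ _ (fun _ => rfl), Fin.sum_univ_two, ex_0, ex_1]

theorem monomial_ex (a b : ℕ) (r : K) :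
    (monomial (ex a b) r : P2 K) = C r * (X 0 ^ a * X 1 ^ b) := by
  rw [ex, X_pow_eq_monomial, X_pow_eq_monomial, monomial_mul, C_mul_monomial, one_mul, mul_one]

theorem mem_JJ_iff {q : ℕ} {h : P2 K} :
    h ∈ JJ K q ↔ ∀ m ∈ h.support, q ≤ m 0 ∨ q ≤ m 1 := by
  have : JJ K q = Ideal.span ((fun s => (monomial s) (1 : K)) ''
      {Finsupp.single (0 : Fin 2) q, Finsupp.single 1 q}) := by
    rw [JJ, Set.image_pair, X_pow_eq_monomial, X_pow_eq_monomial]
  rw [this, mem_ideal_span_monomial_image]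
  refine forall₂_congr fun m _ => ?_
  simp only [Set.mem_insert_iff, Set.mem_singleton_iff, exists_eq_or_imp, exists_eq_left,
    Finsupp.single_le_iff]

/-- The coefficients at the exponents less than `q`. -/
noncomputable def cf (q : ℕ) : P2 K →ₗ[K] (Fin q × Fin q → K) :=
  LinearMap.pi fun ab => lcoeff K (ex ab.1 ab.2)

@[simp] theorem cf_apply (q : ℕ) (h : P2 K) (ab : Fin q × Fin q) :
    cf q h ab = coeff (ex ab.1 ab.2) h := rfl

theorem cf_eq_zero_iff {q : ℕ} {h : P2 K} : cf q h = 0 ↔ h ∈ JJ K q := by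
  rw [mem_JJ_iff]
  constructor
  · intro hc m hm
    by_contra hcon
    push Not at hcon
    have := congrFun hc (⟨m 0, hcon.1⟩, ⟨m 1, hcon.2⟩)
    simp only [cf_apply, ex_eta, Pi.zero_apply] at this
    exact (mem_support_iff.1 hm) this
  · intro hc
    funext ab
    simp only [cf_apply, Pi.zero_apply]
    by_contra hcon
    have := hc _ (mem_support_iff.2 hcon)
    rw [ex_0, ex_1] at this
    have h1 := ab.1.2
    have h2 := ab.2.2
    omega

theorem cf_surjective (q : ℕ) : Function.Surjective (cf (K := K) q) := by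
  intro v
  refine ⟨∑ ab : Fin q × Fin q, monomial (ex ab.1 ab.2) (v ab), ?_⟩
  funext cd
  rw [cf_apply, coeff_sum, Finset.sum_eq_single cd]
  · rw [coeff_monomial, if_pos rfl]
  · intro ab _ hne
    rw [coeff_monomial, if_neg]
    intro h
    obtain ⟨h1, h2⟩ := ex_inj h
    exact hne (Prod.ext (Fin.ext h1) (Fin.ext h2))
  · intro h
    exact absurd (Finset.mem_univ _) h

/-- `L q g = dim K[x, y] / (x ^ q, y ^ q, g)`. -/
noncomputable def Lq (q : ℕ) (g : P2 K) : ℕ := finrank K (P2 K ⧸ (JJ K q ⊔ Ideal.span {g}))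

/-- Multiplication by `g`, followed by `cf`. -/
noncomputable def mu (q : ℕ) (g : P2 K) : P2 K →ₗ[K] (Fin q × Fin q → K) :=
  (cf q).comp (LinearMap.mulLeft K g)

@[simp] theorem mu_apply (q : ℕ) (g h : P2 K) : mu q g h = cf q (g * h) := rfl

theorem quot_equiv (q : ℕ) (g : P2 K) :
    Nonempty ((P2 K ⧸ (JJ K q ⊔ Ideal.span {g})) ≃ₗ[K]
      (Fin q × Fin q → K) ⧸ LinearMap.range (mu q g)) := by
  set φ : P2 K →ₗ[K] (Fin q × Fin q → K) ⧸ LinearMap.range (mu q g) :=
    (Submodule.mkQ _).comp (cf q) with hφ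
  have hs : Function.Surjective φ := (Submodule.mkQ_surjective _).comp (cf_surjective q)
  have hk : LinearMap.ker φ = (JJ K q ⊔ Ideal.span {g}).restrictScalars K := by
    ext h
    rw [LinearMap.mem_ker, hφ, LinearMap.comp_apply, Submodule.mkQ_apply,
      Submodule.Quotient.mk_eq_zero, Submodule.restrictScalars_mem, LinearMap.mem_range]
    constructor
    · rintro ⟨w, hw⟩
      rw [mu_apply] at hw
      have : h - g * w ∈ JJ K q := by
        rw [← cf_eq_zero_iff, map_sub, hw, sub_self]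
      have h2 : h = (h - g * w) + w * g := by ring
      rw [h2]
      exact Submodule.add_mem_sup this (Ideal.mul_mem_left _ _ (Ideal.mem_span_singleton_self g))
    · intro hh
      obtain ⟨j, hj, w, hw, rfl⟩ := Submodule.mem_sup.1 hh
      obtain ⟨v, rfl⟩ := Ideal.mem_span_singleton'.1 hw
      refine ⟨v, ?_⟩
      rw [mu_apply, map_add, cf_eq_zero_iff.2 hj, zero_add, mul_comm]
  exact ⟨((Submodule.Quotient.restrictScalarsEquiv K (JJ K q ⊔ Ideal.span {g})).symm.trans
    (Submodule.quotEquivOfEq _ _ hk.symm)).trans (φ.quotKerEquivOfSurjective hs)⟩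

theorem Lq_add_rank (q : ℕ) (g : P2 K) : Lq q g + finrank K (LinearMap.range (mu q g)) = q ^ 2 := by
  obtain ⟨e⟩ := quot_equiv q g
  rw [Lq, e.finrank_eq, Submodule.finrank_quotient_add_finrank, finrank_fintype_fun_eq_card,
    Fintype.card_prod, Fintype.card_fin, pow_two]

instance fin_quot (q : ℕ) (g : P2 K) : Module.Finite K (P2 K ⧸ (JJ K q ⊔ Ideal.span {g})) := by
  obtain ⟨e⟩ := quot_equiv q g
  exact Module.Finite.equiv e.symm

/-- A quotient by a larger ideal has smaller dimension. -/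
theorem finrank_quot_le {A : Type*} [CommRing A] [Algebra K A] {I J : Ideal A} (h : I ≤ J)
    [Module.Finite K (A ⧸ I)] : finrank K (A ⧸ J) ≤ finrank K (A ⧸ I) :=
  LinearMap.finrank_le_finrank_of_surjective (f := (Ideal.Quotient.factorₐ K h).toLinearMap)
    (Ideal.Quotient.factor_surjective h)

theorem Lq_dvd_le {q : ℕ} {g h : P2 K} (hd : g ∣ h) : Lq q g ≤ Lq q h :=
  finrank_quot_le (sup_le_sup_left (Ideal.span_singleton_le_span_singleton.2 hd) _)

/-- Subadditivity. -/
theorem Lq_mul_le (q : ℕ) (g h : P2 K) : Lq q (g * h) ≤ Lq q g + Lq q h := by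
  set I := JJ K q ⊔ Ideal.span {g * h} with hI
  have hle : I ≤ JJ K q ⊔ Ideal.span {g} :=
    sup_le_sup_left (Ideal.span_singleton_le_span_singleton.2 (Dvd.intro _ rfl)) _
  let ψ : (P2 K ⧸ I) →ₗ[K] (P2 K ⧸ (JJ K q ⊔ Ideal.span {g})) :=
    (Ideal.Quotient.factorₐ K hle).toLinearMap
  -- multiplication by `g`
  have hmul : (JJ K q ⊔ Ideal.span {h}).restrictScalars K ≤
      (I.restrictScalars K).comap (LinearMap.mulLeft K g) := by
    intro u hu
    rw [Submodule.restrictScalars_mem] at hu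
    rw [Submodule.mem_comap, Submodule.restrictScalars_mem, LinearMap.mulLeft_apply]
    obtain ⟨j, hj, w, hw, rfl⟩ := Submodule.mem_sup.1 hu
    obtain ⟨v, rfl⟩ := Ideal.mem_span_singleton'.1 hw
    have : g * (j + v * h) = g * j + v * (g * h) := by ring
    rw [this]
    exact Submodule.add_mem_sup (Ideal.mul_mem_left _ _ hj)
      (Ideal.mul_mem_left _ _ (Ideal.mem_span_singleton_self _))
  let φ : (P2 K ⧸ (JJ K q ⊔ Ideal.span {h})) →ₗ[K] (P2 K ⧸ I) :=
    (Submodule.Quotient.restrictScalarsEquiv K I).toLinearMap.comp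
      ((Submodule.mapQ _ _ (LinearMap.mulLeft K g) hmul).comp
        (Submodule.Quotient.restrictScalarsEquiv K _).symm.toLinearMap)
  have hφ : ∀ u : P2 K, φ (Ideal.Quotient.mk _ u) = Ideal.Quotient.mk _ (g * u) := fun u => rfl
  have hker : LinearMap.ker ψ ≤ LinearMap.range φ := by
    intro u hu
    obtain ⟨u, rfl⟩ := Ideal.Quotient.mk_surjective u
    have hu' : Ideal.Quotient.mk (JJ K q ⊔ Ideal.span {g}) u = 0 := hu
    rw [Ideal.Quotient.eq_zero_iff_mem] at hu'
    obtain ⟨j, hj, w, hw, rfl⟩ := Submodule.mem_sup.1 hu'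
    obtain ⟨v, rfl⟩ := Ideal.mem_span_singleton'.1 hw
    refine ⟨Ideal.Quotient.mk _ v, ?_⟩
    rw [hφ, Ideal.Quotient.mk_eq_mk_iff_sub_mem]
    have : g * v - (j + v * g) = -j := by ring
    rw [this]
    exact Ideal.neg_mem_iff _ |>.2 (Ideal.mem_sup_left hj)
  have h1 := LinearMap.finrank_range_add_finrank_ker ψ
  have h2 := Submodule.finrank_mono hker
  have h3 := LinearMap.finrank_range_le φ
  have h4 : finrank K (LinearMap.range ψ) ≤ Lq q g := by
    rw [Lq]
    exact Submodule.finrank_le _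
  have h5 : Lq q h = finrank K (P2 K ⧸ (JJ K q ⊔ Ideal.span {h})) := rfl
  have h6 : Lq q (g * h) = finrank K (P2 K ⧸ I) := rfl
  omega

theorem Lq_le_of_span {q : ℕ} {g : P2 K} (w : P2 K) (hw : w ^ q ∈ JJ K q)
    (hs : ∀ u : P2 K, ∃ r : Polynomial K, u - Polynomial.aeval w r ∈ Ideal.span {g}) :
    Lq q g ≤ q := by
  let φ : (Polynomial.degreeLT K q) →ₗ[K] (P2 K ⧸ (JJ K q ⊔ Ideal.span {g})) :=
    ((Ideal.Quotient.mkₐ K _).toLinearMap.comp
      (Polynomial.aeval w).toLinearMap).comp (Submodule.subtype _)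
  have hsurj : Function.Surjective φ := by
    intro u
    obtain ⟨u, rfl⟩ := Ideal.Quotient.mk_surjective u
    obtain ⟨r, hr⟩ := hs u
    have hX : (Polynomial.X ^ q : Polynomial K).Monic := Polynomial.monic_X_pow q
    refine ⟨⟨r %ₘ (Polynomial.X ^ q), ?_⟩, ?_⟩
    · rw [Polynomial.mem_degreeLT]
      have := Polynomial.degree_modByMonic_lt r hX
      rwa [Polynomial.degree_X_pow] at this
    · change Ideal.Quotient.mk _ (Polynomial.aeval w (r %ₘ (Polynomial.X ^ q))) = _
      rw [Ideal.Quotient.mk_eq_mk_iff_sub_mem]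
      have h1 := congrArg (Polynomial.aeval w) (Polynomial.modByMonic_add_div r
        (Polynomial.X ^ q))
      rw [map_add, map_mul, map_pow, Polynomial.aeval_X] at h1
      have h2 : Polynomial.aeval w (r %ₘ (Polynomial.X ^ q)) - u =
          -(w ^ q * Polynomial.aeval w (r /ₘ (Polynomial.X ^ q))) +
            -(u - Polynomial.aeval w r) := by
        rw [← h1]; ring
      rw [h2]
      exact Submodule.add_mem_sup (neg_mem (Ideal.mul_mem_right _ _ hw)) (neg_mem hr)
  have h1 := LinearMap.finrank_le_finrank_of_surjective hsurj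
  have h2 : finrank K (Polynomial.degreeLT K q) = q := by
    rw [(Polynomial.degreeLTEquiv K q).finrank_eq, finrank_fintype_fun_eq_card, Fintype.card_fin]
  rw [h2] at h1
  exact h1

theorem X0_mem (q : ℕ) : (X 0 ^ q : P2 K) ∈ JJ K q := Ideal.subset_span (by simp)
theorem X1_mem (q : ℕ) : (X 1 ^ q : P2 K) ∈ JJ K q := Ideal.subset_span (by simp)

theorem Lq_lin (q : ℕ) (c : K) : Lq q (X 0 - C c * X 1 : P2 K) ≤ q := by
  refine Lq_le_of_span (X 1) (X1_mem q) fun u => ⟨ev c u, ?_⟩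
  have key : ((Ideal.Quotient.mkₐ K (Ideal.span {X 0 - C c * X 1})).comp
      (Polynomial.aeval (X 1 : P2 K))).comp (ev c) =
      Ideal.Quotient.mkₐ K (Ideal.span {X 0 - C c * X 1}) := by
    refine algHom_ext fun i => ?_
    fin_cases i
    · simp only [Fin.zero_eta, AlgHom.comp_apply, ev_X0, map_mul, Polynomial.aeval_X,
        Polynomial.aeval_C, algebraMap_eq]
      rw [← map_mul]
      symm
      simp only [Ideal.Quotient.mkₐ_eq_mk]
      rw [Ideal.Quotient.mk_eq_mk_iff_sub_mem]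
      exact Ideal.mem_span_singleton_self _
    · simp
  have := congrArg (fun φ => φ u) key
  simp only [AlgHom.comp_apply, Ideal.Quotient.mkₐ_eq_mk] at this
  rwa [eq_comm, Ideal.Quotient.mk_eq_mk_iff_sub_mem] at this

theorem Lq_lin' (q : ℕ) : Lq q (X 1 : P2 K) ≤ q := by
  refine Lq_le_of_span (X 0) (X0_mem q) fun u => ⟨evi u, ?_⟩
  have key : ((Ideal.Quotient.mkₐ K (Ideal.span {(X 1 : P2 K)})).comp
      (Polynomial.aeval (X 0 : P2 K))).comp evi =
      Ideal.Quotient.mkₐ K (Ideal.span {X 1}) := by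
    refine algHom_ext fun i => ?_
    fin_cases i
    · simp
    · simp only [Fin.mk_one, AlgHom.comp_apply, evi_X1, map_zero]
      symm
      simp only [Ideal.Quotient.mkₐ_eq_mk]
      rw [Ideal.Quotient.eq_zero_iff_mem]
      exact Ideal.mem_span_singleton_self _
  have := congrArg (fun φ => φ u) key
  simp only [AlgHom.comp_apply, Ideal.Quotient.mkₐ_eq_mk] at this
  rwa [eq_comm, Ideal.Quotient.mk_eq_mk_iff_sub_mem] at this

theorem Lq_ff (q : ℕ) (A : K) : Lq q (ff A) ≤ 4 * q := by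
  have h1 : Lq q (X 0 : P2 K) ≤ q := by simpa using Lq_lin (K := K) q 0
  have h2 := Lq_lin' (K := K) q
  have h3 : Lq q (X 0 - X 1 : P2 K) ≤ q := by simpa using Lq_lin (K := K) q 1
  have h4 := Lq_lin q A
  unfold ff
  have e1 := Lq_mul_le (K := K) q (X 0) (X 1 * ((X 0 - X 1) * (X 0 - C A * X 1)))
  have e2 := Lq_mul_le (K := K) q (X 1) ((X 0 - X 1) * (X 0 - C A * X 1))
  have e3 := Lq_mul_le (K := K) q (X 0 - X 1) (X 0 - C A * X 1)
  omega

theorem Lq_pow_add (q : ℕ) (A : K) (s t : ℕ) :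
    Lq q (ff A ^ (s + t)) ≤ Lq q (ff A ^ s) + 4 * q * t := by
  induction t with
  | zero => simp
  | succ t ih =>
    rw [← add_assoc, pow_succ]
    have h1 := Lq_mul_le q (ff A ^ (s + t)) (ff A)
    have h2 := Lq_ff q A
    rw [mul_add, mul_one]
    omega

theorem Lq_pow_mono (q : ℕ) (A : K) {s t : ℕ} (h : s ≤ t) :
    Lq q (ff A ^ s) ≤ Lq q (ff A ^ t) := Lq_dvd_le (pow_dvd_pow _ h)

end Pool.Agent.Y241.HK
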