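import Pool.Agent.Y241.HK.Good

set_option autoImplicit false

/-!
# Hilbert–Kunz multiplicities: lengths over the localisation
-/

namespace Pool.Agent.Y241.HK

open Module

universe u v

/-- Over a point with residue field `K`, the length is the dimension. -/
theorem length_eq_aux {K : Type v} {S : Type u} [Field K] [CommRing S] [Algebra K S] (M : Ideal S)
    [hM : M.IsMaximal] (h1 : finrank K (S ⧸ M) = 1) (n : ℕ) : ∀ (N : Type u) [AddCommGroup N]
    [Module S N] [Module K N] [IsScalarTower K S N] [Module.Finite K N],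
    (∃ k : ℕ, ∀ a ∈ M ^ k, ∀ x : N, a • x = 0) → finrank K N = n → Module.length S N = n := by
  induction n with
  | zero =>
    intro N _ _ _ _ _ _ h0
    have : Subsingleton N := finrank_zero_iff.1 h0
    exact Module.length_eq_zero
  | succ n ih =>
    intro N _ _ _ _ _ ⟨k, hk⟩ hn
    have hnt : Nontrivial N := by
      by_contra hcon
      rw [not_nontrivial_iff_subsingleton] at hcon
      have := finrank_zero_of_subsingleton (R := K) (M := N)
      omega
    have hfS : Module.Finite S N := Module.Finite.of_restrictScalars_finite K S N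
    obtain ⟨N', hN'⟩ : ∃ N' : Submodule S N, IsCoatom N' := by
      rcases eq_top_or_exists_le_coatom (⊥ : Submodule S N) with h | ⟨N', h, -⟩
      · exact absurd h bot_ne_top
      · exact ⟨N', h⟩
    have hs : IsSimpleModule S (N ⧸ N') := isSimpleModule_iff_isCoatom.2 hN'
    obtain ⟨M', hM', ⟨e⟩⟩ := isSimpleModule_iff_quot_maximal.1 hs
    have hle : M ^ k ≤ M' := by
      intro a ha
      rw [← Ideal.Quotient.eq_zero_iff_mem]
      obtain ⟨x, hx⟩ := e.surjective (1 : S ⧸ M')
      obtain ⟨x, rfl⟩ := Submodule.Quotient.mk_surjective _ x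
      have h2 : a • Submodule.Quotient.mk (p := N') x = 0 := by
        rw [← Submodule.Quotient.mk_smul, hk a ha, Submodule.Quotient.mk_zero]
      have h3 := congrArg e h2
      rw [map_smul, hx, map_zero, Algebra.smul_def, mul_one] at h3
      exact h3
    have hMM' : M = M' := hM.eq_of_le hM'.ne_top (hM'.isPrime.le_of_pow_le hle)
    have hq : finrank K (N ⧸ N') = 1 := by
      rw [(e.restrictScalars K).finrank_eq, ← hMM', h1]
    have hfin' : Module.Finite K N' := by
      change Module.Finite K (N'.restrictScalars K)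
      infer_instance
    have hn' : finrank K N' = n := by
      have h2 := Submodule.finrank_quotient_add_finrank (N'.restrictScalars K)
      have h3 : finrank K (N ⧸ N'.restrictScalars K) = 1 := by
        rw [(Submodule.Quotient.restrictScalarsEquiv K N').finrank_eq, hq]
      have h4 : finrank K (N'.restrictScalars K) = finrank K N' := rfl
      omega
    have h5 := ih N' ⟨k, fun a ha x => Subtype.ext (hk a ha x)⟩ hn'
    rw [Module.length_eq_add_of_exact N'.subtype N'.mkQ N'.injective_subtype N'.mkQ_surjective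
      (LinearMap.exact_subtype_mkQ N'), h5, Module.length_eq_one]
    push_cast
    rfl

theorem exists_inv_mod {S : Type u} [CommRing S] {M I : Ideal S} [hM : M.IsMaximal] {k : ℕ}
    (hk : M ^ k ≤ I) {t : S} (ht : t ∉ M) : ∃ t', t * t' - 1 ∈ I := by
  obtain ⟨a, m, hm, h⟩ := Ideal.IsMaximal.exists_inv hM ht
  have hnil : IsNilpotent (Ideal.Quotient.mk I m) := by
    refine ⟨k, ?_⟩
    rw [← map_pow, Ideal.Quotient.eq_zero_iff_mem]
    exact hk (Ideal.pow_mem_pow hm k)
  have hu : IsUnit (1 - Ideal.Quotient.mk I m) := hnil.isUnit_one_sub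
  have h2 : 1 - Ideal.Quotient.mk I m = Ideal.Quotient.mk I a * Ideal.Quotient.mk I t := by
    rw [← map_mul, ← map_one (Ideal.Quotient.mk I), ← h, map_add]
    ring
  rw [h2] at hu
  obtain ⟨b, hb⟩ := hu.exists_left_inv
  obtain ⟨b, rfl⟩ := Ideal.Quotient.mk_surjective b
  refine ⟨b * a, ?_⟩
  rw [← Ideal.Quotient.mk_eq_mk_iff_sub_mem, map_one, ← hb, map_mul, map_mul]
  ring

theorem length_loc {K : Type v} {S : Type u} [Field K] [CommRing S] [Algebra K S] (M : Ideal S)
    [hM : M.IsMaximal] (h1 : finrank K (S ⧸ M) = 1) (I : Ideal S) [Module.Finite K (S ⧸ I)]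
    {k : ℕ} (hk : M ^ k ≤ I) :
    Module.length (Localization.AtPrime M)
      (Localization.AtPrime M ⧸ I.map (algebraMap S (Localization.AtPrime M))) =
      finrank K (S ⧸ I) := by
  set R := Localization.AtPrime M with hR
  set J := I.map (algebraMap S R) with hJ
  have hsurj : Function.Surjective (algebraMap S (R ⧸ J)) := by
    intro b
    obtain ⟨r, rfl⟩ := Ideal.Quotient.mk_surjective b
    obtain ⟨⟨s, t⟩, hst⟩ := IsLocalization.surj M.primeCompl r
    obtain ⟨t', ht'⟩ := exists_inv_mod hk (t := (t : S)) t.2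
    refine ⟨s * t', ?_⟩
    have h2 : Ideal.Quotient.mk J (algebraMap S R ((t : S) * t' - 1)) = 0 := by
      rw [Ideal.Quotient.eq_zero_iff_mem]
      exact Ideal.mem_map_of_mem _ ht'
    have h3 : algebraMap S (R ⧸ J) (s * t') = Ideal.Quotient.mk J (algebraMap S R (s * t')) := rfl
    rw [h3]
    rw [map_sub, map_mul, map_one, map_sub, map_mul, map_one] at h2
    simp only at hst
    rw [map_mul, ← hst, map_mul, map_mul]
    linear_combination (Ideal.Quotient.mk J r) * h2
  have e1 : Module.length R (R ⧸ J) = Module.length (R ⧸ J) (R ⧸ J) :=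
    Module.length_eq_of_surjective (R := R ⧸ J) (S := R) Ideal.Quotient.mk_surjective
  have e2 : Module.length S (R ⧸ J) = Module.length (R ⧸ J) (R ⧸ J) :=
    Module.length_eq_of_surjective (R := R ⧸ J) (S := S) hsurj
  let φ : S →ₗ[S] (R ⧸ J) := Algebra.linearMap S (R ⧸ J)
  have hφ : ∀ s, φ s = Ideal.Quotient.mk J (algebraMap S R s) := fun s => rfl
  have hker : LinearMap.ker φ = I := by
    ext s
    rw [LinearMap.mem_ker, hφ, Ideal.Quotient.eq_zero_iff_mem]
    constructor
    · intro hs
      obtain ⟨⟨x, y⟩, hxy⟩ := (IsLocalization.mem_map_algebraMap_iff M.primeCompl R).1 hs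
      simp only at hxy
      rw [← map_mul] at hxy
      obtain ⟨c, hc⟩ := (IsLocalization.eq_iff_exists M.primeCompl R).1 hxy
      have hcy : (c : S) * (y : S) ∉ M := by
        intro h
        rcases (hM.isPrime.mem_or_mem h) with h | h
        · exact c.2 h
        · exact y.2 h
      obtain ⟨t', ht'⟩ := exists_inv_mod hk hcy
      have h4 : s = t' * ((c : S) * (x : S)) - s * ((c : S) * (y : S) * t' - 1) := by
        rw [← hc]; ring
      rw [h4]
      exact sub_mem (Ideal.mul_mem_left _ _ (Ideal.mul_mem_left _ _ x.2))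
        (Ideal.mul_mem_left _ _ ht')
    · intro hs
      exact Ideal.mem_map_of_mem _ hs
  have e3 : Module.length S (S ⧸ I) = Module.length S (R ⧸ J) :=
    ((Submodule.quotEquivOfEq _ _ hker.symm).trans
      (φ.quotKerEquivOfSurjective hsurj)).length_eq
  rw [e1, ← e2, ← e3]
  refine length_eq_aux (K := K) M h1 _ (S ⧸ I) ⟨k, fun a ha x => ?_⟩ rfl
  obtain ⟨x, rfl⟩ := Ideal.Quotient.mk_surjective x
  rw [Algebra.smul_def]
  change Ideal.Quotient.mk I a * _ = 0
  rw [← map_mul, Ideal.Quotient.eq_zero_iff_mem]
  exact Ideal.mul_mem_right _ _ (hk ha)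

section

variable {K S : Type u} [Field K] {p d : ℕ} {lam : ℕ → ℕ} [CommRing S] [Algebra K S]
  {M : Ideal S} [hM : M.IsMaximal]

theorem Good.dim (h : Good K p d lam S M) : ringKrullDim (Localization.AtPrime M) = d := by
  rw [IsLocalization.AtPrime.ringKrullDim_eq_height M, h.ht]
  rfl

theorem Good.length [Fact p.Prime] [CharP K p] (h : Good K p d lam S M) (e : ℕ) :
    Module.length (Localization.AtPrime M) (Localization.AtPrime M ⧸
      frobPow (IsLocalRing.maximalIdeal (Localization.AtPrime M)) (p ^ e)) = lam e := by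
  have hnoeth := h.noeth
  have hfin := h.fin e
  have hntS : Nontrivial S := ⟨⟨0, 1, fun h01 => hM.ne_top (by
    rw [Ideal.eq_top_iff_one, ← h01]; exact zero_mem _)⟩⟩
  have hchar : CharP S p := charP_of_injective_algebraMap (algebraMap K S).injective p
  have hcharR : CharP (Localization.AtPrime M) p :=
    charP_of_injective_algebraMap (algebraMap K (Localization.AtPrime M)).injective p
  have hrad : M ≤ (frobPow M (p ^ e)).radical := by
    intro x hx
    exact ⟨p ^ e, Ideal.subset_span ⟨x, hx, rfl⟩⟩
  obtain ⟨k, hk⟩ := Ideal.exists_pow_le_of_le_radical_of_fg hrad (IsNoetherian.noetherian M)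
  rw [← Localization.AtPrime.map_eq_maximalIdeal, frobPow_map,
    length_loc M h.finite_res _ hk, h.len e]

theorem Good.length_sq (h : Good K p d lam S M) :
    (d + 2 : ℕ) ≤ Module.length (Localization.AtPrime M) (Localization.AtPrime M ⧸
      (IsLocalRing.maximalIdeal (Localization.AtPrime M)) ^ 2) := by
  have hf : Module.Finite K (S ⧸ M ^ 2) := Module.finite_of_finrank_pos (by
    have := h.emb; omega)
  rw [← Localization.AtPrime.map_eq_maximalIdeal, ← Ideal.map_pow,
    length_loc M h.finite_res (M ^ 2) (k := 2) le_rfl]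
  exact_mod_cast h.emb

end

theorem length_sq_regular {R : Type u} [CommRing R] [IsLocalRing R] [IsNoetherianRing R] {d : ℕ}
    (hd : ringKrullDim R = d) (h : IsRegularLocalRing R) :
    Module.length R (R ⧸ (IsLocalRing.maximalIdeal R) ^ 2) = (d + 1 : ℕ) := by
  set m := IsLocalRing.maximalIdeal R with hm
  have h1 := (IsRegularLocalRing.iff_finrank_cotangentSpace R).1 h
  rw [hd] at h1
  have h2 : finrank (IsLocalRing.ResidueField R) (IsLocalRing.CotangentSpace R) = d := by
    exact_mod_cast h1
  have h3 : Module.length R (IsLocalRing.CotangentSpace R) = d := by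
    rw [Module.length_eq_of_surjective (R := IsLocalRing.ResidueField R) (S := R)
      IsLocalRing.residue_surjective, Module.length_eq_finrank, h2]
  have hle : m ^ 2 ≤ m := Ideal.pow_le_self two_ne_zero
  have h4 : Module.length R (R ⧸ m ^ 2) = Module.length R m.Cotangent +
      Module.length R (R ⧸ m) := by
    refine Module.length_eq_add_of_exact m.cotangentToQuotientSquare
      (Submodule.factor hle) m.cotangentToQuotientSquare_injective
      (Submodule.factor_surjective hle) ?_
    rw [LinearMap.exact_iff, Ideal.range_cotangentToQuotientSquare]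
    ext u
    obtain ⟨r, rfl⟩ := Ideal.Quotient.mk_surjective u
    rw [Submodule.restrictScalars_mem, Ideal.mk_mem_cotangentIdeal, LinearMap.mem_ker]
    change Ideal.Quotient.mk m r = 0 ↔ _
    rw [Ideal.Quotient.eq_zero_iff_mem]
  have h5 : Module.length R (R ⧸ m) = 1 := by
    have : IsSimpleModule R (R ⧸ m) := by
      rw [isSimpleModule_iff_isCoatom]
      exact Ideal.isMaximal_def.1 inferInstance
    exact Module.length_eq_one R _
  rw [h4, h5]
  have h6 : Module.length R m.Cotangent = d := h3
  rw [h6]
  push_cast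
  rfl

theorem Good.not_regular {K S : Type u} [Field K] {p d : ℕ} {lam : ℕ → ℕ} [CommRing S]
    [Algebra K S] {M : Ideal S} [hM : M.IsMaximal] (h : Good K p d lam S M) :
    ¬ IsRegularLocalRing (Localization.AtPrime M) := by
  intro hreg
  have hnoeth := h.noeth
  have : IsNoetherianRing (Localization.AtPrime M) :=
    IsLocalization.isNoetherianRing M.primeCompl _ inferInstance
  have h1 := h.length_sq
  rw [length_sq_regular h.dim hreg] at h1
  have h2 : d + 2 ≤ d + 1 := by exact_mod_cast h1
  omega

end Pool.Agent.Y241.HK
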