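import Pool.Agent.Y241.HK.Frob

set_option autoImplicit false

/-!
# Hilbert–Kunz multiplicities: the lower bound for the lengths
-/

namespace Pool.Agent.Y241.HK

open MvPolynomial Module

variable {K : Type*} [Field K]

/-- Polynomials of total degree less than `D`. -/
noncomputable def WW (K : Type*) [Field K] (D : ℕ) : Submodule K (P2 K) :=
  Submodule.span K (Set.range fun ab : {ab : Fin D × Fin D // (ab.1 : ℕ) + ab.2 < D} =>
    (monomial (ex ab.1.1 ab.1.2) (1 : K) : P2 K))

theorem finrank_WW_le (D : ℕ) : finrank K (WW K D) ≤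
    (Finset.univ.filter fun ab : Fin D × Fin D => (ab.1 : ℕ) + ab.2 < D).card := by
  rw [← Fintype.card_subtype]
  exact finrank_range_le_card _

instance fin_WW (D : ℕ) : Module.Finite K (WW K D) :=
  Module.Finite.span_of_finite K (Set.finite_range _)

theorem monomial_mem_WW {D : ℕ} {a b : ℕ} (h : a + b < D) (k : K) :
    monomial (ex a b) k ∈ WW K D := by
  have : (monomial (ex a b) k : P2 K) = k • monomial (ex a b) 1 := by
    rw [smul_monomial, smul_eq_mul, mul_one]
  rw [this]
  exact Submodule.smul_mem _ _ (Submodule.subset_span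
    ⟨⟨(⟨a, by omega⟩, ⟨b, by omega⟩), h⟩, rfl⟩)

theorem mem_WW {D : ℕ} {h : P2 K} (hd : h.totalDegree + 1 ≤ D) : h ∈ WW K D := by
  rw [h.as_sum]
  refine Submodule.sum_mem _ fun m hm => ?_
  have h1 := le_totalDegree hm
  rw [← ex_eta m] at h1 ⊢
  rw [ex_degree] at h1
  exact monomial_mem_WW (by omega) _

/-- Vectors supported at the exponents of degree at least `E`. -/
noncomputable def ZZ (K : Type*) [Field K] (q E : ℕ) : Submodule K (Fin q × Fin q → K) :=
  Submodule.span K (Set.range fun ab : {ab : Fin q × Fin q // E ≤ (ab.1 : ℕ) + ab.2} =>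
    (Pi.single ab.1 (1 : K) : Fin q × Fin q → K))

theorem finrank_ZZ_le (q E : ℕ) : finrank K (ZZ K q E) ≤
    (Finset.univ.filter fun ab : Fin q × Fin q => E ≤ (ab.1 : ℕ) + ab.2).card := by
  rw [← Fintype.card_subtype]
  exact finrank_range_le_card _

theorem mem_ZZ {q E : ℕ} {v : Fin q × Fin q → K} (h : ∀ ab, (ab.1 : ℕ) + ab.2 < E → v ab = 0) :
    v ∈ ZZ K q E := by
  have : v = ∑ ab, v ab • (Pi.single ab (1 : K) : Fin q × Fin q → K) := by
    funext cd
    rw [Finset.sum_apply, Finset.sum_eq_single cd]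
    · simp
    · intro ab _ hne
      simp [hne.symm]
    · intro hh
      exact absurd (Finset.mem_univ _) hh
  rw [this]
  refine Submodule.sum_mem _ fun ab _ => ?_
  by_cases hab : E ≤ (ab.1 : ℕ) + ab.2
  · exact Submodule.smul_mem _ _ (Submodule.subset_span ⟨⟨ab, hab⟩, rfl⟩)
  · rw [h ab (by omega), zero_smul]
    exact zero_mem _

theorem card_count {q s D : ℕ} (hD : D + 2 * s = q) :
    (Finset.univ.filter fun ab : Fin D × Fin D => (ab.1 : ℕ) + ab.2 < D).card +
    (Finset.univ.filter fun ab : Fin q × Fin q => D + 4 * s ≤ (ab.1 : ℕ) + ab.2).card ≤ D ^ 2 := by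
  have h1 : (Finset.univ.filter fun ab : Fin q × Fin q => D + 4 * s ≤ (ab.1 : ℕ) + ab.2).card ≤
      (Finset.univ.filter fun ab : Fin D × Fin D => ¬ ((ab.1 : ℕ) + ab.2 < D)).card := by
    refine Finset.card_le_card_of_surjOn
      (fun ab => (⟨ab.1 + 2 * s, by have := ab.1.2; omega⟩,
        ⟨ab.2 + 2 * s, by have := ab.2.2; omega⟩)) ?_
    rintro ⟨⟨a, ha⟩, ⟨b, hb⟩⟩ hab
    simp only [Finset.coe_filter, Finset.mem_univ, true_and, Set.mem_ofPred_eq] at hab
    refine ⟨(⟨a - 2 * s, by omega⟩, ⟨b - 2 * s, by omega⟩), ?_, ?_⟩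
    · simp only [Finset.coe_filter, Finset.mem_univ, true_and, Set.mem_ofPred_eq]
      omega
    · refine Prod.ext (Fin.ext ?_) (Fin.ext ?_)
      · change a - 2 * s + 2 * s = a
        omega
      · change b - 2 * s + 2 * s = b
        omega
  have h2 := Finset.card_filter_add_card_filter_not (s := (Finset.univ : Finset (Fin D × Fin D)))
    (fun ab : Fin D × Fin D => (ab.1 : ℕ) + ab.2 < D)
  rw [Finset.card_univ, Fintype.card_prod, Fintype.card_fin, ← pow_two] at h2
  omega

theorem hom_pow (A : K) (s : ℕ) : (ff A ^ s).IsHomogeneous (4 * s) := (hom_ff A).pow s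

theorem mu_mem_ZZ {A : K} {q s a b : ℕ} (k : K) :
    mu q (ff A ^ s) (monomial (ex a b) k) ∈ ZZ K q (a + b + 4 * s) := by
  refine mem_ZZ fun cd hcd => ?_
  rw [mu_apply, cf_apply]
  have h1 : (monomial (ex a b) k : P2 K).IsHomogeneous (a + b) := by
    refine isHomogeneous_monomial _ ?_
    rw [Finsupp.degree_eq_sum, Fin.sum_univ_two, ex_0, ex_1]
  have h2 := (hom_pow A s).mul h1
  by_contra hne
  have h3 := h2 hne
  have h4 := DFunLike.congr_fun (Finsupp.degree_eq_weight_one (σ := Fin 2) (R := ℕ))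
    (ex (cd.1 : ℕ) cd.2)
  rw [Finsupp.degree_eq_sum, Fin.sum_univ_two, ex_0, ex_1] at h4
  have h5 : (Finsupp.weight (1 : Fin 2 → ℕ)) (ex (cd.1 : ℕ) cd.2) = cd.1 + cd.2 := h4.symm
  omega

/-- The lower bound: every subspace of the kernel counts. -/
theorem Lq_lower {A : K} {q s D : ℕ} (hD : D + 2 * s = q) (U : Submodule K (P2 K))
    (hU : ∀ u ∈ U, u.totalDegree + 1 ≤ D) (hk : ∀ u ∈ U, ff A ^ s * u ∈ JJ K q) :
    q ^ 2 + finrank K U ≤ Lq q (ff A ^ s) + D ^ 2 := by
  have hUW : U ≤ WW K D := fun u hu => mem_WW (hU u hu)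
  set μ := mu q (ff A ^ s) with hμ
  have h1 : LinearMap.range μ ≤ (WW K D).map μ ⊔ ZZ K q (D + 4 * s) := by
    rintro _ ⟨u, rfl⟩
    induction u using MvPolynomial.induction_on' with
    | add p q hp hq => rw [map_add]; exact add_mem hp hq
    | monomial m k =>
      rw [← ex_eta m]
      by_cases hm : m 0 + m 1 < D
      · exact Submodule.mem_sup_left (Submodule.mem_map_of_mem (monomial_mem_WW hm k))
      · refine Submodule.mem_sup_right ?_
        have := mu_mem_ZZ (A := A) (q := q) (s := s) (a := m 0) (b := m 1) k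
        refine Submodule.span_mono ?_ this
        rintro _ ⟨⟨ab, hab⟩, rfl⟩
        exact ⟨⟨ab, by omega⟩, rfl⟩
  have h2 := Submodule.finrank_mono h1
  have h3 := Submodule.finrank_add_le_finrank_add_finrank ((WW K D).map μ) (ZZ K q (D + 4 * s))
  have h4 := LinearMap.finrank_range_add_finrank_ker (μ.domRestrict (WW K D))
  have h5 : LinearMap.range (μ.domRestrict (WW K D)) = (WW K D).map μ := by
    rw [LinearMap.range_domRestrict]
  rw [h5] at h4
  have h6 : finrank K U ≤ finrank K (LinearMap.ker (μ.domRestrict (WW K D))) := by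
    rw [← (Submodule.comapSubtypeEquivOfLe hUW).finrank_eq]
    refine Submodule.finrank_mono ?_
    intro u hu
    rw [Submodule.mem_comap] at hu
    rw [LinearMap.mem_ker, LinearMap.domRestrict_apply, hμ, mu_apply, cf_eq_zero_iff]
    exact hk _ hu
  have h7 := finrank_WW_le (K := K) D
  have h8 := finrank_ZZ_le (K := K) q (D + 4 * s)
  have h9 := card_count hD
  have h10 := Lq_add_rank q (ff A ^ s)
  rw [← hμ] at h10
  omega

end Pool.Agent.Y241.HK
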