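import Pool.Agent.Y241.HK.Upp

set_option autoImplicit false

/-!
# Hilbert–Kunz multiplicities: the limits
-/

namespace Pool.Agent.Y241.HK

open MvPolynomial Module Filter Topology

variable {K : Type*} [Field K]

/-- The normalised length. -/
noncomputable def phi (p : ℕ) (A : K) (e : ℕ) : ℝ :=
  (Lq (p ^ e) (ff A ^ (p ^ e / (p + 1))) : ℝ) / ((p : ℝ) ^ e) ^ 2

/-- The corrected normalised length. -/
noncomputable def psi (p : ℕ) (A : K) (e : ℕ) : ℝ := phi p A e + 4 / (p : ℝ) ^ e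

/-- The limit of the normalised lengths. -/
noncomputable def phiInf (p : ℕ) (A : K) : ℝ := ⨅ e, psi p A e

theorem Lq_next {p : ℕ} [Fact p.Prime] [CharP K p] (A : K) (e : ℕ) :
    Lq (p ^ (e + 1)) (ff A ^ (p ^ (e + 1) / (p + 1))) ≤
      p ^ 2 * Lq (p ^ e) (ff A ^ (p ^ e / (p + 1))) + 4 * p ^ (e + 1) * (p - 1) := by
  have hp : 0 < p := (Fact.out : p.Prime).pos
  set t := p ^ e / (p + 1) with ht
  have h1 : p ^ (e + 1) / (p + 1) ≤ p * t + (p - 1) := by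
    have h2 := Nat.div_add_mod (p ^ e) (p + 1)
    have h3 := Nat.mod_lt (p ^ e) (show 0 < p + 1 by omega)
    set r := p ^ e % (p + 1) with hr
    rw [← ht] at h2
    have h4 : p ^ (e + 1) < (p * t + (p - 1) + 1) * (p + 1) := by
      rw [pow_succ, ← h2]
      have h5 : p * t + (p - 1) + 1 = p * t + p := by omega
      rw [h5]
      have h6 : r * p ≤ p * p := Nat.mul_le_mul_right _ (by omega)
      have h7 : ((p + 1) * t + r) * p = (p + 1) * t * p + r * p := by ring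
      have h8 : (p * t + p) * (p + 1) = (p + 1) * t * p + (p * p + p) := by ring
      rw [h7, h8]
      omega
    exact Nat.lt_succ_iff.1 (Nat.div_lt_of_lt_mul (by rw [mul_comm]; exact h4))
  calc Lq (p ^ (e + 1)) (ff A ^ (p ^ (e + 1) / (p + 1)))
      ≤ Lq (p ^ (e + 1)) (ff A ^ (p * t + (p - 1))) := Lq_pow_mono _ _ h1
    _ ≤ Lq (p ^ (e + 1)) (ff A ^ (p * t)) + 4 * p ^ (e + 1) * (p - 1) := Lq_pow_add _ _ _ _
    _ ≤ _ := by
      have h2 := Lq_frob (p := p) (p ^ e) (ff A ^ t)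
      rw [← pow_mul, ← pow_succ', mul_comm t p] at h2
      omega

theorem psi_succ_le {p : ℕ} [Fact p.Prime] [CharP K p] (A : K) (e : ℕ) :
    psi p A (e + 1) ≤ psi p A e := by
  have hp : 0 < p := (Fact.out : p.Prime).pos
  have hp' : (0 : ℝ) < p := by exact_mod_cast hp
  have h := Lq_next (p := p) A e
  have h' : (Lq (p ^ (e + 1)) (ff A ^ (p ^ (e + 1) / (p + 1))) : ℝ) ≤
      p ^ 2 * Lq (p ^ e) (ff A ^ (p ^ e / (p + 1))) + 4 * p ^ (e + 1) * (p - 1) := by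
    have h2 : ((p - 1 : ℕ) : ℝ) = (p : ℝ) - 1 := by
      rw [Nat.cast_sub hp]; simp
    rw [← h2]
    exact_mod_cast h
  unfold psi phi
  set L1 : ℝ := (Lq (p ^ (e + 1)) (ff A ^ (p ^ (e + 1) / (p + 1))) : ℝ)
  set L0 : ℝ := (Lq (p ^ e) (ff A ^ (p ^ e / (p + 1))) : ℝ)
  have hq : (0 : ℝ) < (p : ℝ) ^ e := pow_pos hp' _
  set q : ℝ := (p : ℝ) ^ e with hqd
  rw [pow_succ (p : ℝ) e] at h' ⊢
  have h3 : L1 / (q * p) ^ 2 ≤ (p ^ 2 * L0 + 4 * (q * p) * (p - 1)) / (q * p) ^ 2 := by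
    gcongr
  have h4 : (p ^ 2 * L0 + 4 * (q * p) * (p - 1)) / (q * p) ^ 2 + 4 / (q * p) =
      L0 / q ^ 2 + 4 / q := by
    field_simp
    ring
  linarith

theorem phi_nonneg {p : ℕ} (A : K) (e : ℕ) : 0 ≤ phi p A e := by
  unfold phi
  positivity

theorem psi_nonneg {p : ℕ} (A : K) (e : ℕ) : 0 ≤ psi p A e := by
  unfold psi
  have := phi_nonneg (p := p) A e
  positivity

theorem bdd_psi {p : ℕ} (A : K) : BddBelow (Set.range (psi p A)) :=
  ⟨0, by rintro _ ⟨e, rfl⟩; exact psi_nonneg A e⟩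

theorem tendsto_psi {p : ℕ} [Fact p.Prime] [CharP K p] (A : K) :
    Tendsto (psi p A) atTop (𝓝 (phiInf p A)) :=
  tendsto_atTop_ciInf (antitone_nat_of_succ_le (psi_succ_le A)) (bdd_psi A)

theorem tendsto_inv_pow {p : ℕ} [Fact p.Prime] (c : ℝ) :
    Tendsto (fun e : ℕ => c / (p : ℝ) ^ e) atTop (𝓝 0) := by
  have hp : 1 < p := (Fact.out : p.Prime).one_lt
  have hp' : (1 : ℝ) < p := by exact_mod_cast hp
  exact (tendsto_const_nhds.div_atTop (tendsto_pow_atTop_atTop_of_one_lt hp'))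

theorem tendsto_phi {p : ℕ} [Fact p.Prime] [CharP K p] (A : K) :
    Tendsto (phi p A) atTop (𝓝 (phiInf p A)) := by
  have h := (tendsto_psi (p := p) A).sub (tendsto_inv_pow (p := p) 4)
  rw [sub_zero] at h
  refine h.congr fun e => ?_
  rw [psi]
  ring

theorem phiInf_le {p : ℕ} (A : K) (e : ℕ) : phiInf p A ≤ phi p A e + 4 / (p : ℝ) ^ e :=
  ciInf_le (bdd_psi A) e

/-- `κ = 1 - ((p - 1) / (p + 1)) ^ 2`. -/
noncomputable def kap (p : ℕ) : ℝ := 1 - (((p : ℝ) - 1) / (p + 1)) ^ 2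

theorem div_even {p : ℕ} (hp : 1 ≤ p) (j : ℕ) : p ^ (2 * j) / (p + 1) = sE p j := by
  rw [← sE_spec hp j, Nat.mul_add_div (by omega), Nat.div_eq_of_lt (by omega), add_zero]

theorem cast_sE {p : ℕ} (hp : 1 ≤ p) (j : ℕ) :
    ((p : ℝ) + 1) * sE p j + 1 = (p : ℝ) ^ (2 * j) := by
  exact_mod_cast sE_spec hp j

theorem cast_D {p : ℕ} (hp : 1 ≤ p) (j : ℕ) :
    ((p ^ (2 * j) - 2 * sE p j : ℕ) : ℝ) =
      ((p : ℝ) - 1) / (p + 1) * (p : ℝ) ^ (2 * j) + 2 / (p + 1) := by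
  have h1 := two_sE_le hp j
  have h2 := cast_sE hp j
  have hp' : (0 : ℝ) < (p : ℝ) + 1 := by positivity
  rw [Nat.cast_sub (by omega)]
  push_cast
  rw [← h2]
  field_simp
  ring

/-- The generic upper bound. -/
theorem phiInf_upper {p : ℕ} [Fact p.Prime] [CharP K p] {A : K} {j : ℕ}
    (h : (MM A (sE p j) (p ^ (2 * j) - 2 * sE p j)).det ≠ 0) :
    phiInf p A ≤ kap p + 4 / (p : ℝ) ^ (2 * j) := by
  have hp : 1 ≤ p := (Fact.out : p.Prime).one_le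
  refine (phiInf_le A (2 * j)).trans (add_le_add_left ?_ _)
  have h1 := two_sE_le hp j
  have h2 := Lq_upper (q := p ^ (2 * j)) (by omega) h
  rw [phi, div_even hp]
  have hp' : (1 : ℝ) ≤ (p : ℝ) := by exact_mod_cast hp
  have hq : (0 : ℝ) < (p : ℝ) ^ (2 * j) := pow_pos (by linarith) _
  have h3 : ((Lq (p ^ (2 * j)) (ff A ^ sE p j) : ℕ) : ℝ) +
      ((p ^ (2 * j) - 2 * sE p j : ℕ) : ℝ) ^ 2 ≤ ((p : ℝ) ^ (2 * j)) ^ 2 := by
    exact_mod_cast h2
  rw [cast_D hp] at h3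
  rw [div_le_iff₀ (pow_pos hq 2), kap]
  set q := (p : ℝ) ^ (2 * j)
  set r := ((p : ℝ) - 1) / (p + 1) with hr
  have hr0 : 0 ≤ r := div_nonneg (by linarith) (by linarith)
  have h4 : (r * q) ^ 2 ≤ (r * q + 2 / (p + 1)) ^ 2 := by
    have : (0 : ℝ) ≤ 2 / ((p : ℝ) + 1) := by positivity
    gcongr
    linarith
  nlinarith

/-- The lower bound. -/
theorem phiInf_lower {p : ℕ} [Fact p.Prime] [CharP K p] {A : K} {i : ℕ} {c : P2 K} (hc : c ≠ 0)
    (hd : c.totalDegree + 2 * sE p i + 1 ≤ p ^ (2 * i))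
    (hm : c * ff A ^ sE p i ∈ JJ K (p ^ (2 * i))) : kap p < phiInf p A := by
  have hp : 2 ≤ p := (Fact.out : p.Prime).two_le
  have hp' : (2 : ℝ) ≤ (p : ℝ) := by exact_mod_cast hp
  set r := ((p : ℝ) - 1) / (p + 1) with hr
  have hr0 : 0 < r := div_pos (by linarith) (by linarith)
  have hQ : (0 : ℝ) < (p : ℝ) ^ (2 * i) := pow_pos (by linarith) _
  have key : ∀ j, 1 - (r + 2 / (p + 1) / (p : ℝ) ^ (2 * (i + j))) ^ 2 +
      (r / (p : ℝ) ^ (2 * i)) ^ 2 / 2 ≤ phi p A (2 * (i + j)) := by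
    intro j
    have h1 := Lq_amp hc hd hm j
    have h2 : 2 * ((p : ℝ) ^ (2 * (i + j))) ^ 2 + ((p ^ (2 * j) - 2 * sE p j : ℕ) : ℝ) ^ 2 ≤
        2 * ((Lq (p ^ (2 * (i + j))) (ff A ^ sE p (i + j)) : ℕ) : ℝ) +
        2 * ((p ^ (2 * (i + j)) - 2 * sE p (i + j) : ℕ) : ℝ) ^ 2 := by
      exact_mod_cast h1
    rw [cast_D (by omega), cast_D (by omega)] at h2
    rw [phi, div_even (by omega)]
    have hq : (0 : ℝ) < (p : ℝ) ^ (2 * (i + j)) := pow_pos (by linarith) _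
    have hqj : (0 : ℝ) < (p : ℝ) ^ (2 * j) := pow_pos (by linarith) _
    have hqq : (p : ℝ) ^ (2 * (i + j)) = (p : ℝ) ^ (2 * j) * (p : ℝ) ^ (2 * i) := by ring
    rw [le_div_iff₀ (pow_pos hq 2)]
    set L := ((Lq (p ^ (2 * (i + j))) (ff A ^ sE p (i + j)) : ℕ) : ℝ)
    set q := (p : ℝ) ^ (2 * (i + j)) with hqd
    set Q := (p : ℝ) ^ (2 * i)
    set k := (p : ℝ) ^ (2 * j)
    rw [← hr] at h2
    have e1 : (1 - (r + 2 / (p + 1) / q) ^ 2 + (r / Q) ^ 2 / 2) * q ^ 2 =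
        q ^ 2 - (r * q + 2 / (p + 1)) ^ 2 + (r * k) ^ 2 / 2 := by
      have e2 : (r + 2 / (p + 1) / q) * q = r * q + 2 / (p + 1) := by
        field_simp
      have e3 : r / Q * q = r * k := by
        rw [hqq]
        field_simp
      calc (1 - (r + 2 / (p + 1) / q) ^ 2 + (r / Q) ^ 2 / 2) * q ^ 2
          = q ^ 2 - ((r + 2 / (p + 1) / q) * q) ^ 2 + (r / Q * q) ^ 2 / 2 := by ring
        _ = _ := by rw [e2, e3]
    rw [e1]
    have h4 : (r * k) ^ 2 ≤ (r * k + 2 / (p + 1)) ^ 2 := by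
      have : (0 : ℝ) ≤ 2 / ((p : ℝ) + 1) := by positivity
      gcongr
      linarith
    nlinarith
  have ht1 : Tendsto (fun j => phi p A (2 * (i + j))) atTop (𝓝 (phiInf p A)) := by
    refine (tendsto_phi A).comp ?_
    refine tendsto_atTop_mono (fun j => ?_) tendsto_id
    simp only [id]
    omega
  have ht2 : Tendsto (fun j : ℕ => 1 - (r + 2 / (p + 1) / (p : ℝ) ^ (2 * (i + j))) ^ 2 +
      (r / (p : ℝ) ^ (2 * i)) ^ 2 / 2) atTop
      (𝓝 (1 - (r + 0) ^ 2 + (r / (p : ℝ) ^ (2 * i)) ^ 2 / 2)) := by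
    refine Tendsto.add_const _ (tendsto_const_nhds.sub (Tendsto.pow (tendsto_const_nhds.add ?_) 2))
    refine (tendsto_inv_pow (p := p) (2 / (p + 1))).comp ?_
    refine tendsto_atTop_mono (fun j => ?_) tendsto_id
    simp only [id]
    omega
  have h5 := le_of_tendsto_of_tendsto' ht2 ht1 key
  rw [add_zero] at h5
  have h6 : 0 < (r / (p : ℝ) ^ (2 * i)) ^ 2 / 2 := by positivity
  rw [kap, ← hr]
  linarith

end Pool.Agent.Y241.HK
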