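import Pool.Agent.Y241.HK.Dim

set_option autoImplicit false

/-!
# Hilbert–Kunz multiplicities: the sequence of parameters
-/

namespace Pool.Agent.Y241.HK

open MvPolynomial Module Filter Topology

universe u

/-- The parameters: some even power of Frobenius fixes `A`, and `A ^ p ≠ A`. -/
def EE (p : ℕ) (L : Type u) [Field L] : Set L :=
  {A | A ^ p ≠ A ∧ ∃ r : ℕ, A ^ p ^ 2 ^ (r + 1) = A}

theorem odd_pow_ne {p : ℕ} {L : Type u} [Field L] [Fact p.Prime] [CharP L p] {A : L} {r j : ℕ}
    (h1 : A ^ p ≠ A) (h2 : A ^ p ^ 2 ^ (r + 1) = A) : A ^ p ^ (2 * j + 1) ≠ A := by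
  intro h3
  have e2 : Function.IsPeriodicPt (frobenius L p) (2 ^ (r + 1)) A := by
    rw [Function.IsPeriodicPt, Function.IsFixedPt, iterate_frobenius, h2]
  have e3 : Function.IsPeriodicPt (frobenius L p) (2 * j + 1) A := by
    rw [Function.IsPeriodicPt, Function.IsFixedPt, iterate_frobenius, h3]
  have e4 := e2.gcd e3
  have e5 : Nat.gcd (2 ^ (r + 1)) (2 * j + 1) = 1 := by
    apply Nat.Coprime.pow_left
    rw [Nat.coprime_two_left]
    exact ⟨j, rfl⟩
  rw [e5, Function.IsPeriodicPt, Function.IsFixedPt, iterate_frobenius, pow_one] at e4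
  exact h1 e4

theorem lower_of_EE {p : ℕ} {L : Type u} [Field L] [Fact p.Prime] [CharP L p] {A : L}
    (h : A ∈ EE p L) : kap p < phiInf p A := by
  obtain ⟨h1, r, h2⟩ := h
  have hp : p ≠ 0 := (Fact.out : p.Prime).ne_zero
  have h0 : A ≠ 0 := fun h => h1 (by rw [h, zero_pow hp])
  have h1' : A ≠ 1 := fun h => h1 (by rw [h, one_pow])
  have hr : 0 < 2 ^ r := by positivity
  have e1 : 2 * (2 ^ r - 1 + 1) = 2 ^ (r + 1) := by
    rw [pow_succ]
    omega
  obtain ⟨c, hc, hd, hm⟩ := exists_c (p := p) (i := 2 ^ r - 1) h0 h1'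
    (fun j _ => odd_pow_ne h1 h2) (by rw [e1]; exact h2)
  exact phiInf_lower hc hd hm

/-- There are infinitely many parameters in an algebraically closed field. -/
theorem infinite_EE (p : ℕ) (L : Type u) [Field L] [IsAlgClosed L] [Fact p.Prime] [CharP L p] :
    (EE p L).Infinite := by
  classical
  intro hfin
  have hp : 1 < p := (Fact.out : p.Prime).one_lt
  -- the fixed points of the powers of Frobenius
  have key : ∀ n : ℕ, n ≠ 0 → ∃ s : Finset L, (∀ A, A ∈ s ↔ A ^ p ^ n = A) ∧ s.card = p ^ n := by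
    intro n hn
    have hdeg := FiniteField.X_pow_card_pow_sub_X_natDegree_eq L hn hp
    have hsep := galois_poly_separable (K := L) p (p ^ n) (dvd_pow_self p hn)
    have hcard := Polynomial.card_rootSet_eq_natDegree (K := L) hsep (IsAlgClosed.splits _)
    rw [hdeg] at hcard
    refine ⟨(Polynomial.rootSet (Polynomial.X ^ p ^ n - Polynomial.X : Polynomial L) L).toFinset,
      fun A => ?_, ?_⟩
    · rw [Set.mem_toFinset, Polynomial.mem_rootSet]
      constructor
      · rintro ⟨-, h⟩
        simpa [sub_eq_zero] using h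
      · intro h
        refine ⟨hsep.ne_zero, ?_⟩
        simp [h]
    · rw [Set.toFinset_card, hcard]
  obtain ⟨s0, hs0, hc0⟩ := key 1 one_ne_zero
  set E := hfin.toFinset with hE
  obtain ⟨r, hr⟩ : ∃ r : ℕ, E.card + s0.card < p ^ 2 ^ (r + 1) := by
    refine ⟨E.card + s0.card, ?_⟩
    have h1 : E.card + s0.card < 2 ^ (E.card + s0.card) := Nat.lt_two_pow_self
    have h2 : 2 ^ (E.card + s0.card) ≤ 2 ^ (E.card + s0.card + 1) :=
      Nat.pow_le_pow_right (by omega) (by omega)
    have h3 : 2 ^ (E.card + s0.card + 1) < p ^ 2 ^ (E.card + s0.card + 1) :=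
      Nat.lt_pow_self hp
    omega
  obtain ⟨s1, hs1, hc1⟩ := key (2 ^ (r + 1)) (by positivity)
  have hsub : s1 ⊆ E ∪ s0 := by
    intro A hA
    rw [Finset.mem_union]
    by_cases h : A ^ p = A
    · right
      rw [hs0, pow_one]
      exact h
    · left
      rw [hE, Set.Finite.mem_toFinset]
      exact ⟨h, r, (hs1 A).1 hA⟩
  have h4 := (Finset.card_le_card hsub).trans (Finset.card_union_le _ _)
  omega

/-- The bad parameters of level `j` form a finite set. -/
theorem finite_bad (p : ℕ) (F L : Type u) [Field F] [Field L] [Algebra F L] (j : ℕ) :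
    {A : L | (MM A (sE p j) (p ^ (2 * j) - 2 * sE p j)).det = 0}.Finite := by
  classical
  set d : Polynomial F := (MM (Polynomial.X : Polynomial F) (sE p j)
    (p ^ (2 * j) - 2 * sE p j)).det with hd
  have hev : ∀ (R : Type u) [CommRing R] [Algebra F R] (a : R), Polynomial.aeval a d =
      (MM a (sE p j) (p ^ (2 * j) - 2 * sE p j)).det := by
    intro R _ _ a
    have h1 := RingHom.map_det (Polynomial.aeval a : Polynomial F →ₐ[F] R).toRingHom
      (MM (Polynomial.X : Polynomial F) (sE p j) (p ^ (2 * j) - 2 * sE p j))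
    rw [map_MM] at h1
    simp only [AlgHom.toRingHom_eq_coe, RingHom.coe_coe, Polynomial.aeval_X] at h1
    exact h1
  have hne : d ≠ 0 := by
    intro h0
    have h1 := hev F (0 : F)
    rw [h0, map_zero] at h1
    exact det_MM_zero (R := F) (sE p j) (p ^ (2 * j) - 2 * sE p j) h1.symm
  refine (Polynomial.rootSet_finite d L).subset ?_
  intro A hA
  rw [Polynomial.mem_rootSet]
  refine ⟨hne, ?_⟩
  rw [hev]
  exact hA

/-- The value attached to the parameter `A`: computed over the field `F(A)`. -/
noncomputable def val (p : ℕ) (F : Type u) {L : Type u} [Field F] [Field L] [Algebra F L]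
    (A : L) : ℝ := phiInf p (IntermediateField.AdjoinSimple.gen F A)

theorem val_lower {p : ℕ} {F L : Type u} [Field F] [Field L] [Algebra F L] [Fact p.Prime]
    [CharP F p] [CharP L p] {A : L} (h : A ∈ EE p L) : kap p < val p F A := by
  have hchar : CharP (IntermediateField.adjoin F {A}) p :=
    charP_of_injective_algebraMap (algebraMap F _).injective p
  have hinj : Function.Injective (algebraMap (IntermediateField.adjoin F {A}) L) :=
    fun x y h => Subtype.ext h
  refine lower_of_EE ⟨?_, ?_⟩
  · intro h1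
    apply h.1
    have := congrArg (algebraMap (IntermediateField.adjoin F {A}) L) h1
    rwa [map_pow, IntermediateField.AdjoinSimple.algebraMap_gen] at this
  · obtain ⟨r, hr⟩ := h.2
    refine ⟨r, hinj ?_⟩
    rw [map_pow, IntermediateField.AdjoinSimple.algebraMap_gen, hr]

theorem val_upper {p : ℕ} {F L : Type u} [Field F] [Field L] [Algebra F L] [Fact p.Prime]
    [CharP F p] {A : L} {j : ℕ}
    (h : (MM A (sE p j) (p ^ (2 * j) - 2 * sE p j)).det ≠ 0) :
    val p F A ≤ kap p + 4 / (p : ℝ) ^ (2 * j) := by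
  have hchar : CharP (IntermediateField.adjoin F {A}) p :=
    charP_of_injective_algebraMap (algebraMap F _).injective p
  refine phiInf_upper (j := j) ?_
  intro h0
  apply h
  have h1 := RingHom.map_det (algebraMap (IntermediateField.adjoin F {A}) L)
    (MM (IntermediateField.AdjoinSimple.gen F A) (sE p j) (p ^ (2 * j) - 2 * sE p j))
  rw [map_MM, IntermediateField.AdjoinSimple.algebraMap_gen, h0, map_zero] at h1
  exact h1.symm

/-- A sequence of parameters with strictly decreasing values. -/
theorem exists_seq (p : ℕ) (F L : Type u) [Field F] [Field L] [Algebra F L] [IsAlgClosed L]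
    [Fact p.Prime] [CharP F p] [CharP L p] :
    ∃ A : ℕ → L, StrictAnti (fun n => val p F (A n)) ∧
      Tendsto (fun n => val p F (A n)) atTop (𝓝 (kap p)) := by
  have hinf := infinite_EE p L
  let B : ℕ → L := fun n => (Set.Infinite.natEmbedding _ hinf n : L)
  have hB : ∀ n, B n ∈ EE p L := fun n => (Set.Infinite.natEmbedding _ hinf n).2
  have hBinj : Function.Injective B := fun a b h =>
    (Set.Infinite.natEmbedding _ hinf).injective (Subtype.ext h)
  have hpos : ∀ n, kap p < val p F (B n) := fun n => val_lower (hB n)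
  have htend : Tendsto (fun n => val p F (B n)) atTop (𝓝 (kap p)) := by
    rw [Metric.tendsto_atTop]
    intro ε hε
    obtain ⟨j, hj⟩ : ∃ j : ℕ, 4 / (p : ℝ) ^ (2 * j) < ε := by
      have h1 : Tendsto (fun j : ℕ => 4 / (p : ℝ) ^ (2 * j)) atTop (𝓝 0) := by
        refine (tendsto_inv_pow (p := p) 4).comp ?_
        refine tendsto_atTop_mono (fun j => ?_) tendsto_id
        simp only [id]
        omega
      exact (h1.eventually (gt_mem_nhds hε)).exists
    have hfin : {n : ℕ | (MM (B n) (sE p j) (p ^ (2 * j) - 2 * sE p j)).det = 0}.Finite :=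
      (finite_bad p F L j).preimage hBinj.injOn
    obtain ⟨N, hN⟩ := hfin.bddAbove
    refine ⟨N + 1, fun n hn => ?_⟩
    have h2 : (MM (B n) (sE p j) (p ^ (2 * j) - 2 * sE p j)).det ≠ 0 := by
      intro h
      have := hN h
      omega
    have h3 := val_upper (F := F) h2
    have h4 := hpos n
    rw [Real.dist_eq, abs_of_pos (by linarith)]
    linarith
  have hinv : Tendsto (fun n => (val p F (B n) - kap p)⁻¹) atTop atTop := by
    have h1 : Tendsto (fun n => val p F (B n) - kap p) atTop (𝓝[>] 0) := by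
      rw [tendsto_nhdsWithin_iff]
      refine ⟨?_, Eventually.of_forall fun n => ?_⟩
      · have := htend.sub_const (kap p)
        rwa [sub_self] at this
      · rw [Set.mem_Ioi]
        have := hpos n
        linarith
    exact h1.inv_tendsto_nhdsGT_zero
  obtain ⟨φ, hφ, hmono⟩ := strictMono_subseq_of_tendsto_atTop hinv
  refine ⟨B ∘ φ, ?_, htend.comp hφ.tendsto_atTop⟩
  intro m n hmn
  have h1 := hmono hmn
  simp only [Function.comp_apply] at h1 ⊢
  have h2 := hpos (φ m)
  have h3 := hpos (φ n)
  have h4 := (inv_lt_inv₀ (by linarith) (by linarith)).1 h1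
  linarith

end Pool.Agent.Y241.HK
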