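import Pool.Agent.Y241.HK.Fib2

set_option autoImplicit false

/-!
# Hilbert–Kunz multiplicities: sums
-/

namespace Pool.Agent.Y241.HK

open MvPolynomial Module Filter Topology

universe u

/-- `x` is a Hilbert–Kunz multiplicity of a point with residue field `K`. -/
def Val (K : Type u) [Field K] (p d : ℕ) (x : ℝ) : Prop :=
  ∃ (lam : ℕ → ℕ) (S : Type u) (_ : CommRing S) (_ : Algebra K S) (M : Ideal S),
    Pre K p d lam S M ∧ Tendsto (fun e => (lam e : ℝ) / ((p : ℝ) ^ e) ^ d) atTop (𝓝 x)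

/-- The same for a point of large embedding dimension. -/
def ValG (K : Type u) [Field K] (p d : ℕ) (x : ℝ) : Prop :=
  ∃ (lam : ℕ → ℕ) (S : Type u) (_ : CommRing S) (_ : Algebra K S) (M : Ideal S),
    Good K p d lam S M ∧ Tendsto (fun e => (lam e : ℝ) / ((p : ℝ) ^ e) ^ d) atTop (𝓝 x)

theorem ValG.val {K : Type u} [Field K] {p d : ℕ} {x : ℝ} (h : ValG K p d x) : Val K p d x := by
  obtain ⟨lam, S, _, _, M, h1, h2⟩ := h
  exact ⟨lam, S, _, _, M, h1.pre, h2⟩

theorem tendsto_sum_aux {p d : ℕ} [Fact p.Prime] (hd : 1 ≤ d) {lam₁ lam₂ : ℕ → ℕ} {x y : ℝ}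
    (h₀ : ∀ e, 1 ≤ lam₁ e)
    (h₁ : Tendsto (fun e => (lam₁ e : ℝ) / ((p : ℝ) ^ e) ^ d) atTop (𝓝 x))
    (h₂ : Tendsto (fun e => (lam₂ e : ℝ) / ((p : ℝ) ^ e) ^ d) atTop (𝓝 y)) :
    Tendsto (fun e => ((lam₁ e + lam₂ e - 1 : ℕ) : ℝ) / ((p : ℝ) ^ e) ^ d) atTop (𝓝 (x + y)) := by
  have hp1 : (1 : ℝ) < p := by exact_mod_cast (Fact.out : p.Prime).one_lt
  have h3 : Tendsto (fun e : ℕ => (1 : ℝ) / ((p : ℝ) ^ e) ^ d) atTop (𝓝 0) := by
    have h4 : Tendsto (fun e : ℕ => (((p : ℝ) ^ d)⁻¹) ^ e) atTop (𝓝 0) := by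
      apply tendsto_pow_atTop_nhds_zero_of_lt_one (by positivity)
      exact inv_lt_one_of_one_lt₀ (one_lt_pow₀ hp1 (by omega))
    refine h4.congr fun e => ?_
    rw [one_div, inv_pow, ← pow_mul, ← pow_mul, mul_comm]
  have h5 := (h₁.add h₂).sub h3
  rw [sub_zero] at h5
  refine h5.congr fun e => ?_
  have h6 : ((lam₁ e + lam₂ e - 1 : ℕ) : ℝ) = (lam₁ e : ℝ) + lam₂ e - 1 := by
    have := h₀ e
    rw [Nat.cast_sub (by omega)]
    push_cast
    ring
  rw [h6]
  ring

theorem ValG.add {K : Type u} [Field K] {p d : ℕ} [Fact p.Prime] (hd : 1 ≤ d) {x y : ℝ}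
    (hx : ValG K p d x) (hy : Val K p d y) : ValG K p d (x + y) := by
  obtain ⟨lam₁, S₁, _, _, M₁, h₁, hl₁⟩ := hx
  obtain ⟨lam₂, S₂, _, _, M₂, h₂, hl₂⟩ := hy
  obtain ⟨T, _, _, M, h, he⟩ := h₁.pre.fib h₂
  exact ⟨_, T, _, _, M, h.good (h₁.emb.trans he), tendsto_sum_aux hd h₁.pre.lam_pos hl₁ hl₂⟩

theorem Val.add {K : Type u} [Field K] {p d : ℕ} [Fact p.Prime] (hd : 1 ≤ d) {x y : ℝ}
    (hx : Val K p d x) (hy : Val K p d y) : Val K p d (x + y) := by
  obtain ⟨lam₁, S₁, _, _, M₁, h₁, hl₁⟩ := hx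
  obtain ⟨lam₂, S₂, _, _, M₂, h₂, hl₂⟩ := hy
  obtain ⟨T, _, _, M, h, he⟩ := h₁.fib h₂
  exact ⟨_, T, _, _, M, h, tendsto_sum_aux hd h₁.lam_pos hl₁ hl₂⟩

theorem Val.one (K : Type u) [Field K] (p : ℕ) [Fact p.Prime] [CharP K p] (d : ℕ) :
    Val K p d 1 := by
  obtain ⟨S, _, _, M, h⟩ := Pre.affine K p d
  refine ⟨_, S, _, _, M, h, ?_⟩
  refine tendsto_const_nhds.congr fun e => ?_
  have hp : (0 : ℝ) < p := by exact_mod_cast (Fact.out : p.Prime).pos
  push_cast
  rw [div_self (by positivity)]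

theorem ValG.add_nat {K : Type u} [Field K] {p d : ℕ} [Fact p.Prime] [CharP K p] (hd : 1 ≤ d)
    {x : ℝ} (hx : ValG K p d x) (c : ℕ) : ValG K p d (x + c) := by
  induction c with
  | zero => simpa using hx
  | succ c ih =>
    have := ih.add hd (Val.one K p d)
    push_cast
    rwa [← add_assoc]

/-- the basic values -/
theorem valG_basic {K : Type u} [Field K] {p : ℕ} [Fact p.Prime] [CharP K p] (A : K) (d : ℕ)
    (hd : 2 ≤ d) : ValG K p d (((p : ℝ) + 1) * phiInf p A) := by
  obtain ⟨k, rfl⟩ := Nat.exists_eq_add_of_le hd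
  obtain ⟨S, _, _, M, h⟩ := good_iter (p := p) A k
  refine ⟨_, S, _, _, M, h, ?_⟩
  have h1 := tendsto_lamS (p := p) A
  refine h1.congr fun e => ?_
  have hp' : (0 : ℝ) < p := by exact_mod_cast (Fact.out : p.Prime).pos
  have hq : (0 : ℝ) < (p : ℝ) ^ e := pow_pos hp' _
  push_cast
  rw [pow_add ((p : ℝ) ^ e) 2 k]
  field_simp

/-- The set of the values over the field `F`. -/
def IsValue (F : Type u) [Field F] (p d : ℕ) (x : ℝ) : Prop :=
  ∃ (S : Type u) (_ : CommRing S) (_ : Algebra F S) (M : Ideal S) (_ : M.IsMaximal),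
    Algebra.FiniteType F S ∧ ringKrullDim (Localization.AtPrime M) = d ∧
    ¬ IsRegularLocalRing (Localization.AtPrime M) ∧
    (∀ e, Module.length (Localization.AtPrime M) (Localization.AtPrime M ⧸
      frobPow (IsLocalRing.maximalIdeal (Localization.AtPrime M)) (p ^ e)) ≠ ⊤) ∧
    Tendsto (fun e => ((Module.length (Localization.AtPrime M) (Localization.AtPrime M ⧸
      frobPow (IsLocalRing.maximalIdeal (Localization.AtPrime M)) (p ^ e))).toNat : ℝ) /
      ((p : ℝ) ^ e) ^ d) atTop (𝓝 x)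

theorem ValG.isValue {F K : Type u} [Field F] [Field K] [Algebra F K] [FiniteDimensional F K]
    {p d : ℕ} [Fact p.Prime] [CharP K p] {x : ℝ} (hx : ValG K p d x) : IsValue F p d x := by
  obtain ⟨lam, S, _, _, M, h, hl⟩ := hx
  let _ : Algebra F S := Algebra.compHom S (algebraMap F K)
  have htower : IsScalarTower F K S := IsScalarTower.of_algebraMap_eq fun _ => rfl
  have hft := h.ft
  have hmax := h.max
  refine ⟨S, inferInstance, inferInstance, M, hmax, ?_, ?_, h.not_regular, ?_, ?_⟩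
  · exact Algebra.FiniteType.trans (S := K) inferInstance inferInstance
  · exact_mod_cast h.dim
  · intro e
    rw [h.length e]
    exact ENat.natCast_ne_top _
  · refine hl.congr fun e => ?_
    rw [h.length e, ENat.toNat_natCast]

/-- The main theorem: a strictly decreasing sequence with limit `4p/(p+1)` all of whose finite sums,
plus an arbitrary integer, are values. -/
theorem main_sums (p : ℕ) [Fact p.Prime] (F : Type u) [Field F] [Finite F] [CharP F p] (d : ℕ)
    (hd : 2 ≤ d) : ∃ a : ℕ → ℝ, StrictAnti a ∧ Tendsto a atTop (𝓝 (4 * p / (p + 1))) ∧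
      ∀ (s : Multiset ℕ) (c : ℕ), s ≠ 0 → IsValue F p d ((s.map a).sum + c) := by
  classical
  have hcharL : CharP (AlgebraicClosure F) p :=
    charP_of_injective_algebraMap (algebraMap F _).injective p
  obtain ⟨A, hA, hlim⟩ := exists_seq p F (AlgebraicClosure F)
  have hp : 0 < p := (Fact.out : p.Prime).pos
  have hp' : (0 : ℝ) < (p : ℝ) := by exact_mod_cast hp
  refine ⟨fun n => ((p : ℝ) + 1) * val p F (A n), ?_, ?_, ?_⟩
  · intro m n hmn
    have := hA hmn
    simp only at this ⊢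
    gcongr
  · have := hlim.const_mul ((p : ℝ) + 1)
    rwa [kap_eq] at this
  · intro s c hs
    let K := IntermediateField.adjoin F (A '' (s.toFinset : Set ℕ))
    have hfd : FiniteDimensional F K := by
      have : Finite (A '' (s.toFinset : Set ℕ)) := Set.toFinite _
      exact IntermediateField.finiteDimensional_adjoin fun x _ => Algebra.IsIntegral.isIntegral x
    have hchar : CharP K p := charP_of_injective_algebraMap (algebraMap F K).injective p
    have hval : ∀ n ∈ s, ValG K p d (((p : ℝ) + 1) * val p F (A n)) := by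
      intro n hn
      have hmem : A n ∈ K := IntermediateField.subset_adjoin F _ ⟨n, by simpa using hn, rfl⟩
      have h1 := valG_basic (p := p) (⟨A n, hmem⟩ : K) d hd
      have h2 : phiInf p (⟨A n, hmem⟩ : K) = val p F (A n) := by
        rw [val, ← phiInf_map (K' := AlgebraicClosure F) p (⟨A n, hmem⟩ : K),
          ← phiInf_map (K' := AlgebraicClosure F) p (IntermediateField.AdjoinSimple.gen F (A n)),
          IntermediateField.AdjoinSimple.algebraMap_gen]
        rfl
      rwa [h2] at h1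
    have hsum : ∀ t : Multiset ℕ, t ≠ 0 → (∀ n ∈ t, n ∈ s) →
        ValG K p d ((t.map fun n => ((p : ℝ) + 1) * val p F (A n)).sum) := by
      intro t
      induction t using Multiset.induction_on with
      | empty => intro h; exact absurd rfl h
      | cons n t ih =>
        intro _ ht
        have hn := hval n (ht n (Multiset.mem_cons_self n t))
        rw [Multiset.map_cons, Multiset.sum_cons]
        by_cases h0 : t = 0
        · subst h0
          simpa using hn
        · exact hn.add (by omega) (ih h0 fun m hm => ht m (Multiset.mem_cons_of_mem hm)).val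
    exact ((hsum s hs fun _ h => h).add_nat (by omega) c).isValue

end Pool.Agent.Y241.HK
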