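import Pool.Agent.Y241.HK.Amp

set_option autoImplicit false

/-!
# Hilbert–Kunz multiplicities: the generic upper bound for the lengths
-/

namespace Pool.Agent.Y241.HK

open MvPolynomial Module

/-- The form with a parameter in a ring. -/
noncomputable def fT {R : Type*} [CommRing R] (t : R) : MvPolynomial (Fin 2) R :=
  X 0 * (X 1 * ((X 0 - X 1) * (X 0 - C t * X 1)))

theorem map_fT {R R' : Type*} [CommRing R] [CommRing R'] (φ : R →+* R') (t : R) :
    map φ (fT t) = fT (φ t) := by
  simp only [fT, map_mul, map_sub, map_X, map_C]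

/-- The matrix of multiplication by `f ^ s`. -/
noncomputable def MM {R : Type*} [CommRing R] (t : R) (s D : ℕ) :
    Matrix (Fin D ×ₗ Fin D) (Fin D ×ₗ Fin D) R :=
  Matrix.of fun ij kl => coeff (ex (2 * s + (ofLex kl).1) (2 * s + (ofLex kl).2))
    (fT t ^ s * monomial (ex (ofLex ij).1 (ofLex ij).2) 1)

theorem map_MM {R R' : Type*} [CommRing R] [CommRing R'] (φ : R →+* R') (t : R) (s D : ℕ) :
    φ.mapMatrix (MM t s D) = MM (φ t) s D := by
  ext ij kl
  simp only [MM, RingHom.mapMatrix_apply, Matrix.map_apply, Matrix.of_apply]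
  rw [← coeff_map, map_mul, map_pow, map_fT, map_monomial, map_one]

theorem coeff_pow_sub {R : Type*} [CommRing R] (s m : ℕ) :
    coeff (ex 0 m) ((X 0 - X 1 : MvPolynomial (Fin 2) R) ^ s) = if m = s then (-1) ^ s else 0 := by
  have h1 : (X 0 : MvPolynomial (Fin 2) R) ∣ (X 0 - X 1) ^ s - (-X 1) ^ s := by
    have := sub_dvd_pow_sub_pow (X 0 - X 1 : MvPolynomial (Fin 2) R) (-X 1) s
    rwa [sub_neg_eq_add, sub_add_cancel] at this
  obtain ⟨h, hh⟩ := h1
  rw [sub_eq_iff_eq_add] at hh
  rw [hh, coeff_add, coeff_X_mul', if_neg, zero_add]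
  · rw [neg_pow, ← C_1, ← C_neg, ← C_pow, coeff_C_mul, X_pow_eq_monomial, coeff_monomial]
    have : (Finsupp.single (1 : Fin 2) s = ex 0 m) ↔ (m = s) := by
      constructor
      · intro h
        have := DFunLike.congr_fun h 1
        rw [ex_1, Finsupp.single_eq_same] at this
        exact this.symm
      · rintro rfl
        simp [ex]
    simp only [this, mul_ite, mul_one, mul_zero]
  · rw [Finsupp.mem_support_iff, ex_0]
    simp

theorem MM_zero {R : Type*} [CommRing R] (s D : ℕ) (ij kl : Fin D ×ₗ Fin D) :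
    MM (0 : R) s D ij kl =
      if ex ((ofLex ij).1 + 2 * s) ((ofLex ij).2 + s) ≤
        ex (2 * s + (ofLex kl).1) (2 * s + (ofLex kl).2) then
      coeff (ex (2 * s + (ofLex kl).1) (2 * s + (ofLex kl).2) -
        ex ((ofLex ij).1 + 2 * s) ((ofLex ij).2 + s)) ((X 0 - X 1 : MvPolynomial (Fin 2) R) ^ s)
      else 0 := by
  have h1 : fT (0 : R) ^ s * monomial (ex (ofLex ij).1 (ofLex ij).2) 1 =
      (X 0 - X 1) ^ s * monomial (ex ((ofLex ij).1 + 2 * s) ((ofLex ij).2 + s)) 1 := by
    have h2 : ∀ a b : ℕ, (monomial (ex a b) (1 : R)) = (X 0 ^ a * X 1 ^ b) := by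
      intro a b
      rw [ex, X_pow_eq_monomial, X_pow_eq_monomial, monomial_mul, one_mul]
    rw [h2, h2, fT, C_0, zero_mul, sub_zero, mul_pow, mul_pow, mul_pow, pow_add, pow_add, pow_mul]
    ring
  rw [MM, Matrix.of_apply, h1, coeff_mul_monomial', mul_one]

theorem det_MM_zero {R : Type*} [CommRing R] [IsDomain R] (s D : ℕ) :
    (MM (0 : R) s D).det ≠ 0 := by
  have hne : ∀ ij kl : Fin D ×ₗ Fin D, kl < ij → MM (0 : R) s D ij kl = 0 := by
    intro ij kl h
    rw [MM_zero]
    rw [Prod.Lex.lt_iff] at h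
    split_ifs with hle
    · have h0 := hle 0
      have h1 := hle 1
      rw [ex_0, ex_0] at h0
      rw [ex_1, ex_1] at h1
      rcases h with h | ⟨h, h'⟩
      · have : ((ofLex kl).1 : ℕ) < (ofLex ij).1 := h
        omega
      · have h3 : ((ofLex kl).2 : ℕ) < (ofLex ij).2 := h'
        have h4 : ((ofLex kl).1 : ℕ) = (ofLex ij).1 := by rw [h]
        have h5 : ex (2 * s + (ofLex kl).1) (2 * s + (ofLex kl).2) -
            ex ((ofLex ij).1 + 2 * s) ((ofLex ij).2 + s) =
            ex 0 (2 * s + (ofLex kl).2 - ((ofLex ij).2 + s)) := by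
          ext i
          fin_cases i
          · simp only [Fin.zero_eta, Finsupp.tsub_apply, ex_0]
            omega
          · simp only [Fin.mk_one, Finsupp.tsub_apply, ex_1]
        rw [h5, coeff_pow_sub, if_neg]
        omega
    · rfl
  have hdiag : ∀ ij : Fin D ×ₗ Fin D, MM (0 : R) s D ij ij = (-1) ^ s := by
    intro ij
    rw [MM_zero, if_pos]
    · have h5 : ex (2 * s + (ofLex ij).1) (2 * s + (ofLex ij).2) -
          ex ((ofLex ij).1 + 2 * s) ((ofLex ij).2 + s) = ex 0 s := by
        ext i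
        fin_cases i
        · simp only [Fin.zero_eta, Finsupp.tsub_apply, ex_0]
          omega
        · simp only [Fin.mk_one, Finsupp.tsub_apply, ex_1]
          omega
      rw [h5, coeff_pow_sub, if_pos rfl]
    · intro i
      fin_cases i
      · simp only [Fin.zero_eta, ex_0]
        omega
      · simp only [Fin.mk_one, ex_1]
        omega
  rw [Matrix.det_of_isUpperTriangular (fun ij kl h => hne ij kl h)]
  simp only [hdiag]
  exact Finset.prod_ne_zero_iff.2 fun _ _ => pow_ne_zero _ (neg_ne_zero.2 one_ne_zero)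

/-- If the determinant does not vanish, the length is at most `q ^ 2 - D ^ 2`. -/
theorem Lq_upper {K : Type*} [Field K] {A : K} {q s D : ℕ} (hD : D + 2 * s = q)
    (h : (MM A s D).det ≠ 0) : Lq q (ff A ^ s) + D ^ 2 ≤ q ^ 2 := by
  have h1 := Lq_add_rank q (ff A ^ s)
  have hli : LinearIndependent K (MM A s D).row :=
    Matrix.linearIndependent_rows_of_det_ne_zero h
  -- restriction
  let ρ : (Fin q × Fin q → K) →ₗ[K] (Fin D ×ₗ Fin D → K) :=
    LinearMap.pi fun kl => LinearMap.proj ((⟨2 * s + (ofLex kl).1, by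
      have := (ofLex kl).1.2; omega⟩, ⟨2 * s + (ofLex kl).2, by
      have := (ofLex kl).2.2; omega⟩) : Fin q × Fin q)
  have hrow : (MM A s D).row = ρ ∘ fun ij : Fin D ×ₗ Fin D =>
      mu q (ff A ^ s) (monomial (ex (ofLex ij).1 (ofLex ij).2) 1) := by
    funext ij kl
    rfl
  rw [hrow] at hli
  have hli2 := LinearIndependent.of_comp ρ hli
  have h2 : Fintype.card (Fin D ×ₗ Fin D) ≤ finrank K (LinearMap.range (mu q (ff A ^ s))) := by
    have h3 : LinearIndependent K (fun ij : Fin D ×ₗ Fin D =>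
        (⟨mu q (ff A ^ s) (monomial (ex (ofLex ij).1 (ofLex ij).2) 1), ⟨_, rfl⟩⟩ :
          LinearMap.range (mu q (ff A ^ s)))) :=
      LinearIndependent.of_comp (Submodule.subtype _) hli2
    exact h3.fintype_card_le_finrank
  have h3 : Fintype.card (Fin D ×ₗ Fin D) = D ^ 2 := by
    rw [Fintype.card_congr (ofLex : (Fin D ×ₗ Fin D) ≃ Fin D × Fin D), Fintype.card_prod,
      Fintype.card_fin, pow_two]
  omega

end Pool.Agent.Y241.HK
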